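import Mathlib

/-!
# Degrees of composita, matrices over intermediate fields, characters
-/

set_option autoImplicit false
set_option linter.unusedSectionVars false

namespace Pool.Agent.Cayley

section Compositum

variable {k F M : Type*} [Field k] [Field F] [Algebra k F] [Field M] [Algebra k M]

/-- If `M` is the compositum of `L` and the image of `F`, and the subfield `F'` of `F` is mapped
into `L`, then the degree of `M` over `L` is at most the degree of `F` over `F'`. -/
lemma finrank_compositum (θ : F →ₐ[k] M) (F' : IntermediateField k F) (L : IntermediateField k M)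
    (hFL : ∀ f ∈ F', θ f ∈ L) (hfin : FiniteDimensional F' F)
    (hgen : ∀ T : IntermediateField k M, L ≤ T → (∀ f, θ f ∈ T) → T = ⊤) :
    FiniteDimensional L M ∧ Module.finrank L M ≤ Module.finrank F' F := by
  let g : F' →+* M := θ.toRingHom.comp (algebraMap F' F)
  let g' : F' →+* L := g.codRestrict L.toSubfield.toSubring fun f => hFL f f.2
  let _ : Algebra F' M := g.toAlgebra
  let _ : Algebra F' L := g'.toAlgebra
  have _ : IsScalarTower F' L M := IsScalarTower.of_algebraMap_eq fun _ => rfl
  let θ' : F →ₐ[F'] M := { θ.toRingHom with commutes' := fun _ => rfl }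
  let T : IntermediateField F' M := θ'.fieldRange
  let e : F ≃ₐ[F'] T := AlgEquiv.ofInjectiveField θ'
  have hfT : FiniteDimensional F' T := e.toLinearEquiv.finiteDimensional
  have h1 : Module.rank L (IntermediateField.adjoin L (T : Set M)) ≤ Module.rank F' T :=
    IntermediateField.adjoin_rank_le_of_isAlgebraic_right L T
  have h2 : Module.rank F' T = (Module.finrank F' F : Cardinal) := by
    rw [e.toLinearEquiv.finrank_eq, Module.finrank_eq_rank]
  have h3 : IntermediateField.adjoin L (T : Set M) = ⊤ := by
    have h4 : (IntermediateField.adjoin L (T : Set M)).restrictScalars k = ⊤ := by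
      apply hgen
      · intro z hz
        exact (IntermediateField.adjoin L (T : Set M)).algebraMap_mem (⟨z, hz⟩ : L)
      · intro f
        exact IntermediateField.subset_adjoin L (T : Set M) ⟨f, rfl⟩
    rw [eq_top_iff]
    intro z _
    have h5 : z ∈ (IntermediateField.adjoin L (T : Set M)).restrictScalars k := by
      rw [h4]; trivial
    exact h5
  rw [h3, IntermediateField.rank_top', h2] at h1
  have h6 : FiniteDimensional L M := Module.rank_lt_aleph0_iff.mp
    (lt_of_le_of_lt h1 (Cardinal.natCast_lt_aleph0))
  refine ⟨h6, ?_⟩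
  rw [← Module.finrank_eq_rank] at h1
  exact_mod_cast h1

end Compositum

section MatrixMem

variable {k M I : Type*} [Field k] [Field M] [Algebra k M] [Fintype I] [DecidableEq I]

lemma mul_mem_entries {L : IntermediateField k M} {A B : Matrix I I M} (hA : ∀ i j, A i j ∈ L)
    (hB : ∀ i j, B i j ∈ L) (i j : I) : (A * B) i j ∈ L := by
  rw [Matrix.mul_apply]
  exact sum_mem fun l _ => mul_mem (hA i l) (hB l j)

lemma inv_mem_entries {L : IntermediateField k M} {A : Matrix I I M} (hA : ∀ i j, A i j ∈ L)
    (i j : I) : (A⁻¹) i j ∈ L := by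
  set A' : Matrix I I L := Matrix.of fun i j => ⟨A i j, hA i j⟩ with hA'
  have h1 : A = (algebraMap L M).mapMatrix A' := by
    ext i j; rfl
  rw [Matrix.inv_def, Matrix.smul_apply, smul_eq_mul, Ring.inverse_eq_inv']
  refine mul_mem (inv_mem ?_) ?_
  · rw [h1, ← RingHom.map_det]
    exact (A'.det).2
  · rw [h1, ← RingHom.map_adjugate]
    exact (A'.adjugate i j).2

lemma diagonal_mem_entries {L : IntermediateField k M} {d : I → M} (hd : ∀ i, d i ∈ L)
    (i j : I) : Matrix.diagonal d i j ∈ L := by
  by_cases h : i = j
  · subst h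
    rw [Matrix.diagonal_apply_eq]
    exact hd i
  · rw [Matrix.diagonal_apply_ne _ h]
    exact zero_mem L

end MatrixMem

section Chars

variable (k : Type*) [Field k] [IsAlgClosed k] [CharZero k] (p : ℕ) [Fact p.Prime]

lemma exists_injective_char : ∃ ψ : AddChar (ZMod p) k, Function.Injective ψ := by
  have hp : p.Prime := Fact.out
  have _ : NeZero (p : k) := ⟨Nat.cast_ne_zero.mpr hp.ne_zero⟩
  have _ : NeZero p := ⟨hp.ne_zero⟩
  obtain ⟨ζ, hζ⟩ := HasEnoughRootsOfUnity.exists_primitiveRoot k p
  refine ⟨AddChar.zmodChar p hζ.pow_eq_one, ?_⟩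
  intro a b hab
  rw [AddChar.zmodChar_apply, AddChar.zmodChar_apply] at hab
  exact ZMod.val_injective p (hζ.pow_inj (ZMod.val_lt a) (ZMod.val_lt b) hab)

end Chars

end Pool.Agent.Cayley
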