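import Pool.Agent.Cayley.Embed

/-!
# The tame embeddings, continued
-/

set_option autoImplicit false
set_option linter.unusedSectionVars false

namespace Pool.Agent.Cayley

open HahnSeries hiding pow_add

attribute [-instance] HahnSeries.powerSeriesAlgebra

section Near2

variable {K : Type*} [Field K]

lemma near_order {h : HahnSeries ℝ K} {c : K} (hc : Near h c) (hc0 : c ≠ 0) :
    h.order = 0 ∧ h.leadingCoeff = c := by
  have h1 : (C c : HahnSeries ℝ K).orderTop = 0 := orderTop_single hc0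
  have h2 : (C c : HahnSeries ℝ K).orderTop < (h - C c).orderTop := by rw [h1]; exact hc
  have h3 : h = C c + (h - C c) := by ring
  have h4 : h.orderTop = 0 := by
    rw [h3, orderTop_add_eq_left h2, h1]
  have h0 : h ≠ 0 := by
    rw [← orderTop_ne_top, h4]
    exact WithTop.zero_ne_top
  refine ⟨?_, ?_⟩
  · rw [← order_eq_orderTop_of_ne_zero h0] at h4
    exact_mod_cast h4
  · rw [h3, leadingCoeff_add_eq_left h2]
    exact leadingCoeff_of_single

lemma near_of_pos {h : HahnSeries ℝ K} (hh : 0 < h.orderTop) : Near h 0 := by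
  rw [Near, map_zero, sub_zero]
  exact hh

end Near2

section FracX

variable {k : Type*} [Field k] {B : Type*}

lemma fracX_algInd : AlgebraicIndependent k fun i : B =>
    (algebraMap (MvPolynomial B k) (FractionRing (MvPolynomial B k)) (MvPolynomial.X i)) := by
  have h1 : AlgebraicIndependent k (MvPolynomial.X : B → MvPolynomial B k) :=
    MvPolynomial.algebraicIndependent_X B k
  exact h1.map' (f := IsScalarTower.toAlgHom k (MvPolynomial B k)
    (FractionRing (MvPolynomial B k))) (IsFractionRing.injective _ _)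

end FracX

section Emb

variable (k : Type*) [Field k] (p : ℕ) [Fact p.Prime]

/-- The index set of the coefficients. -/
abbrev Cv (p : ℕ) : Type := (Ix p × Ix p) ⊕ Ix p

/-- The field of coefficients. -/
abbrev K1 (k : Type*) [Field k] (p : ℕ) : Type _ := FractionRing (MvPolynomial (Cv p) k)

variable {p}

lemma smul_eq_mul_hahn (a : k) (f : HahnSeries ℝ (K1 k p)) :
    a • f = algebraMap k (HahnSeries ℝ (K1 k p)) a * f := by
  exact Algebra.smul_def a f

/-- The coefficients. -/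
noncomputable def cg (i : Cv p) : K1 k p :=
  algebraMap (MvPolynomial (Cv p) k) (K1 k p) (MvPolynomial.X i)

lemma cg_algInd : AlgebraicIndependent k (cg k : Cv p → K1 k p) := fracX_algInd

/-- The exponents. -/
noncomputable def exC : Cv p → ℝ := Sum.elim (fun ic => expo ic.2) expo

/-- The weights. -/
def wtC : Cv p → Ix p := Sum.elim (fun ic => ic.2) id

/-- The monomials. -/
noncomputable def mo (i : Cv p) : HahnSeries ℝ (K1 k p) := single (exC i) (cg k i)

lemma mo_algInd : AlgebraicIndependent k (mo k : Cv p → HahnSeries ℝ (K1 k p)) :=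
  mon_algInd exC (cg k) (cg_algInd k)

variable {k} (ψ : AddChar (ZMod p) k)

lemma mo_twist {ε : AddChar ℝ k} {σ : Ix p} (hε : Adm ψ ε σ) (i : Cv p) :
    twist (K1 k p) ε (mo k i) = pr ψ (wtC i) σ • mo k i := by
  have h1 : exC i = expo (wtC i) := by
    rcases i with ic | c <;> rfl
  rw [mo, h1, twist_single, adm_expo hε]
  ext b
  rw [coeff_smul, coeff_single, coeff_single, Algebra.smul_def]
  split_ifs
  · rfl
  · rw [mul_zero]

/-- The transformed monomials. -/
noncomputable def rr (g : Ix p) : HahnSeries ℝ (K1 k p) := ∑ c, pr ψ c g • mo k (Sum.inr c)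

lemma rr_twist {ε : AddChar ℝ k} {σ : Ix p} (hε : Adm ψ ε σ) (g : Ix p) :
    twist (K1 k p) ε (rr ψ g) = rr ψ (g + σ) := by
  rw [rr, rr, map_sum]
  refine Finset.sum_congr rfl fun c _ => ?_
  rw [map_smul, mo_twist ψ hε, smul_smul, pr_add_right]
  rfl

lemma near_rr (g : Ix p) : Near (rr ψ g) (cg k (Sum.inr 0)) := by
  have h1 : ∀ c ∈ (Finset.univ : Finset (Ix p)), Near (pr ψ c g • mo k (Sum.inr c))
      (if c = 0 then cg k (Sum.inr 0) else 0) := by
    intro c _
    split_ifs with hc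
    · subst hc
      rw [pr_zero_left, one_smul, mo]
      have : exC (Sum.inr 0 : Cv p) = 0 := expo_zero
      rw [this]
      exact near_C _
    · have h2 : Near (mo k (Sum.inr c)) 0 := by
        apply near_of_pos
        rw [mo, orderTop_single]
        · exact_mod_cast expo_pos hc
        · exact (cg_algInd k).ne_zero _
      rw [smul_eq_mul_hahn, HahnSeries.algebraMap_apply]
      have h3 := near_mul (near_C (algebraMap k (K1 k p) (pr ψ c g))) h2
      rwa [mul_zero] at h3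
  have h2 := near_sum Finset.univ _ _ h1
  rw [Finset.sum_ite_eq' Finset.univ (0 : Ix p), if_pos (Finset.mem_univ _)] at h2
  exact h2

lemma rr_ne_zero (g : Ix p) : rr ψ g ≠ 0 := by
  intro h
  have h1 := (near_order (near_rr ψ g) ((cg_algInd k).ne_zero _)).2
  rw [h, leadingCoeff_zero] at h1
  exact (cg_algInd k (p := p)).ne_zero _ h1.symm

lemma prod_rr_ne_zero : ∏ h : Ix p, rr ψ h ≠ 0 :=
  Finset.prod_ne_zero_iff.mpr fun g _ => rr_ne_zero ψ g

/-- The eigenvalues in the field of Hahn series. -/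
noncomputable def xt (ξ : k) (g : Ix p) : HahnSeries ℝ (K1 k p) :=
  algebraMap k _ ξ * rr ψ g ^ (p ^ 2) / ∏ h, rr ψ h

lemma card_Ix : Fintype.card (Ix p) = p ^ 2 := by
  rw [Fintype.card_prod, ZMod.card, sq]

lemma prod_xt {ξ : k} (hξ : ξ ^ (p ^ 2) = 1) : ∏ g, xt ψ ξ g = 1 := by
  unfold xt
  rw [Finset.prod_div_distrib, Finset.prod_mul_distrib, Finset.prod_const, Finset.prod_const,
    Finset.card_univ, card_Ix, ← map_pow, hξ, map_one, one_mul, Finset.prod_pow]
  exact div_self (pow_ne_zero _ (prod_rr_ne_zero ψ))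

lemma xt_twist (ξ : k) {ε : AddChar ℝ k} {σ : Ix p} (hε : Adm ψ ε σ) (g : Ix p) :
    twist (K1 k p) ε (xt ψ ξ g) = xt ψ ξ (g + σ) := by
  unfold xt
  rw [map_div₀, map_mul, AlgHom.commutes, map_pow, map_prod]
  simp only [rr_twist ψ hε]
  congr 1
  exact Equiv.prod_comp (Equiv.addRight σ) (rr ψ)

lemma xt_leadingCoeff (ξ : k) (hξ : ξ ≠ 0) (g : Ix p) :
    (xt ψ ξ g).leadingCoeff = algebraMap k (K1 k p) ξ ∧ (xt ψ ξ g) ≠ 0 := by
  have hc0 : cg k (Sum.inr 0 : Cv p) ≠ 0 := (cg_algInd k).ne_zero _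
  have h1 : xt ψ ξ g * ∏ h, rr ψ h = algebraMap k _ ξ * rr ψ g ^ (p ^ 2) :=
    div_mul_cancel₀ _ (prod_rr_ne_zero ψ)
  have h2 := (near_order (near_mul (near_C (algebraMap k (K1 k p) ξ))
    (near_pow (near_rr ψ g) (p ^ 2))) (mul_ne_zero ((map_ne_zero _).mpr hξ)
      (pow_ne_zero _ hc0))).2
  have h3 := near_sum (K := K1 k p) ∅ (fun _ : Ix p => 0) (fun _ => 0) (by simp)
  have h4 : Near (∏ h, rr ψ h) (cg k (Sum.inr 0) ^ (p ^ 2)) := by
    have h5 : ∀ s : Finset (Ix p), Near (∏ h ∈ s, rr ψ h) (cg k (Sum.inr 0) ^ s.card) := by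
      intro s
      induction s using Finset.induction_on with
      | empty =>
        rw [Finset.prod_empty, Finset.card_empty, pow_zero, ← map_one (C : K1 k p →+* _)]
        exact near_C 1
      | insert a s ha ih =>
        rw [Finset.prod_insert ha, Finset.card_insert_of_notMem ha, pow_succ, mul_comm (_ ^ _)]
        exact near_mul (near_rr ψ a) ih
    have h6 := h5 Finset.univ
    rwa [Finset.card_univ, card_Ix] at h6
  have h5 := (near_order h4 (pow_ne_zero _ hc0)).2
  have h6 := congrArg leadingCoeff h1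
  rw [leadingCoeff_mul, h5, HahnSeries.algebraMap_apply, h2] at h6
  refine ⟨mul_right_cancel₀ (pow_ne_zero _ hc0) h6, ?_⟩
  intro h7
  rw [h7, leadingCoeff_zero, zero_mul] at h6
  exact mul_ne_zero ((map_ne_zero _).mpr hξ) (pow_ne_zero _ hc0) h6.symm

/-- The images of the generators. -/
noncomputable def fe (ξ : k) : Var p → HahnSeries ℝ (K1 k p) :=
  Sum.elim (fun ic => mo k (Sum.inl ic)) (fun g => xt ψ ξ g.1)

lemma xOf_fe {ξ : k} (hξ : ξ ^ (p ^ 2) = 1) (g : Ix p) : xOf (fe ψ ξ) g = xt ψ ξ g :=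
  xOf_eq (fe ψ ξ) (xt ψ ξ) (prod_xt ψ hξ) (fun _ => rfl) g

lemma fe_algInd (hψ : Function.Injective ψ) [CharZero k] {ξ : k} (hξ : ξ ^ (p ^ 2) = 1) :
    AlgebraicIndependent k (fe ψ ξ) := by
  have hp : p.Prime := Fact.out
  have hξ0 : ξ ≠ 0 := by
    rintro rfl
    rw [zero_pow (pow_ne_zero 2 hp.ne_zero)] at hξ
    exact zero_ne_one hξ
  set z : Var p ⊕ Unit → HahnSeries ℝ (K1 k p) := Sum.elim (fe ψ ξ) (fun _ => rr ψ 0) with hz
  suffices h : AlgebraicIndependent k z by
    have h1 := h.comp Sum.inl Sum.inl_injective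
    exact h1
  have hcard : Nat.card (Var p ⊕ Unit) = Nat.card (Cv p) := by
    rw [Nat.card_eq_fintype_card, Nat.card_eq_fintype_card, Fintype.card_sum, Fintype.card_sum,
      Fintype.card_sum, Fintype.card_unit, add_assoc]
    congr 1
    have h1 := Fintype.card_subtype_compl (fun g : Ix p => g = 0)
    rw [Fintype.card_subtype_eq] at h1
    have h2 : 0 < Fintype.card (Ix p) := Fintype.card_pos
    have h3 : Fintype.card {g : Ix p // g ≠ 0} = Fintype.card (Ix p) - 1 := h1
    omega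
  refine count' hcard z (mo k) (mo_algInd k) ?_
  set Kz := IntermediateField.adjoin k (Set.range z) with hKz
  have hmem : ∀ j, z j ∈ Kz := fun j => IntermediateField.subset_adjoin k _ ⟨j, rfl⟩
  have halg : ∀ a ∈ Kz, IsAlgebraic Kz a := fun a ha => isAlgebraic_algebraMap (⟨a, ha⟩ : Kz)
  have hx : ∀ g, xt ψ ξ g ∈ Kz := by
    intro g
    rw [← xOf_fe ψ hξ]
    by_cases hg : g = 0
    · rw [hg, xOf_zero]
      exact inv_mem (prod_mem fun g' _ => hmem (Sum.inl (Sum.inr g')))
    · rw [xOf_of_ne _ hg]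
      exact hmem (Sum.inl (Sum.inr ⟨g, hg⟩))
  have hr0 : rr ψ 0 ∈ Kz := hmem (Sum.inr ())
  have hrpow : ∀ g, rr ψ g ^ (p ^ 2) ∈ Kz := by
    intro g
    have hξ' : algebraMap k (HahnSeries ℝ (K1 k p)) ξ ≠ 0 := (map_ne_zero _).mpr hξ0
    have hπ := prod_rr_ne_zero ψ (k := k) (p := p)
    have h1 : rr ψ g ^ (p ^ 2) = xt ψ ξ g / xt ψ ξ 0 * rr ψ 0 ^ (p ^ 2) := by
      have h00 := rr_ne_zero ψ (0 : Ix p)
      unfold xt
      field_simp
    rw [h1]
    exact mul_mem (div_mem (hx g) (hx 0)) (pow_mem hr0 _)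
  have hralg : ∀ g, IsAlgebraic Kz (rr ψ g) := fun g =>
    (halg _ (hrpow g)).of_pow (pow_pos hp.pos 2)
  intro i
  rcases i with ic | c
  · exact halg _ (hmem (Sum.inl (Sum.inl ic)))
  · have h1 := hat_sum ψ hψ (fun c => mo k (Sum.inr c : Cv p)) c
    have hp2 : ((p : k) ^ 2) ≠ 0 := pow_ne_zero 2 (Nat.cast_ne_zero.mpr hp.ne_zero)
    have h2 : mo k (Sum.inr c : Cv p) = ((p : k) ^ 2)⁻¹ • hat ψ (rr ψ) c := by
      change _ = ((p : k) ^ 2)⁻¹ • hat ψ (fun g => ∑ c, pr ψ c g • mo k (Sum.inr c)) c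
      rw [h1, smul_smul, inv_mul_cancel₀ hp2, one_smul]
    rw [h2]
    have h3 : ∀ (a : k) (f : HahnSeries ℝ (K1 k p)), IsAlgebraic Kz f → IsAlgebraic Kz (a • f) := by
      intro a f hf
      rw [smul_eq_mul_hahn]
      exact (halg _ (Kz.algebraMap_mem a)).mul hf
    apply h3
    unfold hat
    have h4 : ∀ s : Finset (Ix p), IsAlgebraic Kz (∑ g ∈ s, pr ψ c (-g) • rr ψ g) := by
      intro s
      induction s using Finset.induction_on with
      | empty => rw [Finset.sum_empty]; exact isAlgebraic_zero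
      | insert a s ha ih =>
        rw [Finset.sum_insert ha]
        exact (h3 _ _ (hralg a)).add ih
    exact h4 _

/-- The tame embeddings. -/
noncomputable def emb (hψ : Function.Injective ψ) [CharZero k] {ξ : k} (hξ : ξ ^ (p ^ 2) = 1) :
    MF k p →ₐ[k] HahnSeries ℝ (K1 k p) := liftM (fe_algInd ψ hψ hξ)

lemma emb_xx (hψ : Function.Injective ψ) [CharZero k] {ξ : k} (hξ : ξ ^ (p ^ 2) = 1) (g : Ix p) :
    emb ψ hψ hξ (xx k g) = xt ψ ξ g := by
  have h1 : emb ψ hψ hξ (xx k g) = xOf (fun i => emb ψ hψ hξ (gen k i)) g :=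
    map_xOf (emb ψ hψ hξ).toRingHom (gen k) g
  rw [h1, ← xOf_fe ψ hξ]
  congr 1
  funext i
  exact liftM_gen _ i

lemma emb_tame (hψ : Function.Injective ψ) [CharZero k] {ξ : k} (hξ : ξ ^ (p ^ 2) = 1)
    (ε : AddChar ℝ k) (σ : Ix p) (hε : Adm ψ ε σ) (z : MF k p) :
    twist (K1 k p) ε (emb ψ hψ hξ z) = emb ψ hψ hξ (act ψ σ z) := by
  have h1 : (twist (K1 k p) ε).comp (emb ψ hψ hξ) = (emb ψ hψ hξ).comp (act ψ σ) := by
    refine algHom_ext_of_adjoin (gen_top k) fun i => ?_
    change twist (K1 k p) ε (emb ψ hψ hξ (gen k i)) = emb ψ hψ hξ (act ψ σ (gen k i))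
    rcases i with ic | g
    · have h2 : emb ψ hψ hξ (gen k (Sum.inl ic)) = mo k (Sum.inl ic) := liftM_gen _ _
      have h3 : act ψ σ (gen k (Sum.inl ic)) = pr ψ ic.2 σ • gen k (Sum.inl ic) := act_V ψ σ _ _
      rw [h3, map_smul, h2, mo_twist ψ hε]
      rfl
    · have h2 : gen k (Sum.inr g) = xx k g.1 := (xOf_of_ne (gen k) g.2).symm
      rw [h2, act_xx, emb_xx, emb_xx, xt_twist ψ ξ hε]
  exact DFunLike.congr_fun h1 z

lemma emb_leadingCoeff (hψ : Function.Injective ψ) [CharZero k] {ξ : k} (hξ : ξ ^ (p ^ 2) = 1) :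
    (emb ψ hψ hξ (∏ a, xx k ((a, 0) : Ix p))).leadingCoeff = algebraMap k (K1 k p) (ξ ^ p) := by
  have hp : p.Prime := Fact.out
  have hξ0 : ξ ≠ 0 := by
    rintro rfl
    rw [zero_pow (pow_ne_zero 2 hp.ne_zero)] at hξ
    exact zero_ne_one hξ
  rw [map_prod]
  simp only [emb_xx]
  rw [(order_leadingCoeff_prod _ _ fun a _ => (xt_leadingCoeff ψ ξ hξ0 _).2).2,
    Finset.prod_congr rfl fun a _ => (xt_leadingCoeff ψ ξ hξ0 _).1, Finset.prod_const,
    Finset.card_univ, ZMod.card, map_pow]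

end Emb

end Pool.Agent.Cayley
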