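import Pool.Agent.Cayley.Commute
import Pool.Agent.Cayley.Embed2
import Pool.Agent.Cayley.Degree

/-!
# The degree bound for the special linear group of size `p ^ 2`
-/

set_option autoImplicit false
set_option linter.unusedSectionVars false

namespace Pool.Agent.Cayley

open HahnSeries hiding pow_add

attribute [-instance] HahnSeries.powerSeriesAlgebra

section Eigen

variable {k F : Type*} [Field k] [IsAlgClosed k] [CharZero k] [Field F] [Algebra k F]
  {p : ℕ} [Fact p.Prime] (ψ : AddChar (ZMod p) k)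

lemma map_smul_MF (φ : MF k p →ₐ[k] MF k p) (a : k) (f : MF k p) : φ (a • f) = a • φ f := by
  have h : ∀ g : MF k p, a • g = algebraMap k (MF k p) a * g := fun g => by
    exact Algebra.smul_def a g
  rw [h, h, map_mul, AlgHom.commutes]

/-- The eigenvalues of a matrix commuting with the generic one. -/
lemma exists_eigen (hψ : Function.Injective ψ) (Z : Matrix (Ix p) (Ix p) (MF k p))
    (hZ : Z * XX ψ = XX ψ * Z) : ∃ y : Ix p → MF k p, Z * vv ψ = vv ψ * Matrix.diagonal y := by
  have hv := vv_det ψ hψ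
  set N := (vv ψ)⁻¹ * Z * vv ψ with hN
  have h1 : vv ψ * N = Z * vv ψ := by
    rw [hN, ← Matrix.mul_assoc, ← Matrix.mul_assoc, Matrix.mul_nonsing_inv _ hv, Matrix.one_mul]
  have h2 : N * Matrix.diagonal (xx k) = Matrix.diagonal (xx k) * N := by
    have h3 : vv ψ * (N * Matrix.diagonal (xx k)) = vv ψ * (Matrix.diagonal (xx k) * N) := by
      rw [← Matrix.mul_assoc, h1, Matrix.mul_assoc, ← XX_mul_vv ψ hψ, ← Matrix.mul_assoc, hZ,
        Matrix.mul_assoc, ← h1, ← Matrix.mul_assoc, XX_mul_vv ψ hψ, Matrix.mul_assoc]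
    have h4 := congrArg (fun A => (vv ψ)⁻¹ * A) h3
    simp only [← Matrix.mul_assoc, Matrix.nonsing_inv_mul _ hv, Matrix.one_mul] at h4
    exact h4
  have h5 : ∀ g h, g ≠ h → N g h = 0 := by
    intro g h hgh
    have h6 := congrFun (congrFun h2 g) h
    rw [Matrix.mul_diagonal, Matrix.diagonal_mul] at h6
    by_contra h0
    have h7 : xx k h = xx k g := mul_left_cancel₀ h0 (by rw [h6, mul_comm])
    exact hgh (xx_injective ψ hψ h7).symm
  refine ⟨fun g => N g g, ?_⟩
  rw [← h1]
  congr 1
  ext g h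
  by_cases hgh : g = h
  · subst hgh
    rw [Matrix.diagonal_apply_eq]
  · rw [Matrix.diagonal_apply_ne _ hgh, h5 g h hgh]

end Eigen

section Main

variable {k F : Type*} [Field k] [IsAlgClosed k] [CharZero k] [Field F] [Algebra k F]
  {p : ℕ} [Fact p.Prime]

/-- **The degree bound.** -/
theorem degree_bound (X : Matrix (Ix p) (Ix p) F) (hdet : X.det = 1)
    (hgen : ∀ P : MvPolynomial (Ix p × Ix p) k,
      MvPolynomial.aeval (fun ij : Ix p × Ix p => X ij.1 ij.2) P = 0 → slPoly k (Ix p) ∣ P)
    (htop : IntermediateField.adjoin k (Set.range fun ij : Ix p × Ix p => X ij.1 ij.2) = ⊤)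
    (Y : Matrix (Ix p) (Ix p) F) (htr : Y.trace = 0)
    (hequi : ∀ g : Matrix (Ix p) (Ix p) k, g.det = 1 → ∃ φ : F →ₐ[k] F,
      X.map φ = g.map (algebraMap k F) * X * (g.map (algebraMap k F))⁻¹ ∧
      Y.map φ = g.map (algebraMap k F) * Y * (g.map (algebraMap k F))⁻¹) :
    (p : Cardinal) ≤ Module.rank
      (IntermediateField.adjoin k (Set.range fun ij : Ix p × Ix p => Y ij.1 ij.2)) F := by
  have hp : p.Prime := Fact.out
  by_contra hlt
  push Not at hlt
  set F' := IntermediateField.adjoin k (Set.range fun ij : Ix p × Ix p => Y ij.1 ij.2) with hF'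
  have hfin : FiniteDimensional F' F := Module.rank_lt_aleph0_iff.mp
    (lt_trans hlt Cardinal.natCast_lt_aleph0)
  have hdeg : Module.finrank F' F < p := by
    rw [← Module.finrank_eq_rank] at hlt
    exact_mod_cast hlt
  obtain ⟨ψ, hψ⟩ := exists_injective_char k p
  -- the matrix commutes with the generic one
  have hcomm := commute_of_equivariant X hdet hgen htop Y hequi
  -- the embedding of the function field
  obtain ⟨θ, hθ⟩ := exists_hom (M := MF k p) htop
    (b := fun ij : Ix p × Ix p => XX ψ ij.1 ij.2) (by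
      intro P
      rw [XX_generic ψ hψ]
      refine ⟨hgen P, ?_⟩
      rintro ⟨R, rfl⟩
      rw [map_mul, aeval_slPoly, hdet, sub_self, zero_mul])
  have hθX : X.map θ = XX ψ := by
    ext i j
    exact hθ (i, j)
  set Z := Y.map θ with hZ
  have hZX : Z * XX ψ = XX ψ * Z := by
    rw [← hθX, hZ]
    have h1 := congrArg (fun A => A.map θ) hcomm
    simp only [Matrix.map_mul] at h1
    exact h1
  obtain ⟨y, hy⟩ := exists_eigen ψ hψ Z hZX
  -- the action
  have hθact : ∀ σ f, act ψ σ (θ f) = θ f := by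
    intro σ f
    have h1 : (act ψ σ).comp θ = θ := by
      refine algHom_ext_of_adjoin htop fun ij => ?_
      change act ψ σ (θ (X ij.1 ij.2)) = θ (X ij.1 ij.2)
      have h2 : θ (X ij.1 ij.2) = XX ψ ij.1 ij.2 := hθ ij
      rw [h2, act_XX ψ hψ]
    exact DFunLike.congr_fun h1 f
  have hacty : ∀ σ g, act ψ σ (y g) = y (g + σ) := fun σ g =>
    act_eigen ψ hψ σ Z y hy (fun i j => hθact σ (Y i j)) g
  -- the Fourier transform
  set yh := hat ψ y with hyh
  have hactyh : ∀ σ c, act ψ σ (yh c) = pr ψ c σ • yh c := by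
    intro σ c
    rw [hyh, ← hat_translate ψ y c σ]
    unfold hat
    rw [map_sum]
    refine Finset.sum_congr rfl fun g _ => ?_
    rw [map_smul_MF, hacty]
  have hyh0 : yh 0 = 0 := by
    rw [hyh, hat_zero]
    have h1 : (Matrix.diagonal y).trace = ∑ g, y g := Matrix.trace_diagonal y
    rw [← h1]
    have h2 : Matrix.diagonal y = (vv ψ)⁻¹ * (Z * vv ψ) := by
      rw [hy, ← Matrix.mul_assoc, Matrix.nonsing_inv_mul _ (vv_det ψ hψ), Matrix.one_mul]
    rw [h2, Matrix.trace_mul_comm, Matrix.mul_assoc, Matrix.mul_nonsing_inv _ (vv_det ψ hψ),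
      Matrix.mul_one, hZ]
    have h3 : (Y.map θ).trace = θ Y.trace := by
      rw [Matrix.trace, Matrix.trace, map_sum]
      rfl
    rw [h3, htr, map_zero]
  -- the transcendence basis
  set η : Var p → MF k p := Sum.elim (fun ic => gen k (Sum.inl ic)) (fun c => yh c.1) with hη
  set L := IntermediateField.adjoin k (Set.range η) with hL
  have hmem : ∀ i, η i ∈ L := fun i => IntermediateField.subset_adjoin k _ ⟨i, rfl⟩
  have hyhL : ∀ c, yh c ∈ L := by
    intro c
    by_cases hc : c = 0
    · rw [hc, hyh0]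
      exact zero_mem L
    · exact hmem (Sum.inr ⟨c, hc⟩)
  have hyL : ∀ g, y g ∈ L := by
    intro g
    have hp2 : ((p : k) ^ 2) ≠ 0 := pow_ne_zero 2 (Nat.cast_ne_zero.mpr hp.ne_zero)
    have h1 : y g = ((p : k) ^ 2)⁻¹ • ∑ c, pr ψ c g • yh c := by
      rw [hyh, sum_hat ψ hψ, smul_smul, inv_mul_cancel₀ hp2, one_smul]
    rw [h1]
    exact L.smul_mem (sum_mem fun c _ => L.smul_mem (hyhL c))
  have hVL : ∀ i j, VV k p i j ∈ L := fun i j => hmem (Sum.inl (i, j))
  have hvL : ∀ i j, vv ψ i j ∈ L := mul_mem_entries hVL fun i j => L.algebraMap_mem _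
  have hZL : ∀ i j, Z i j ∈ L := by
    have h1 : Z = vv ψ * Matrix.diagonal y * (vv ψ)⁻¹ := by
      rw [← hy, Matrix.mul_assoc, Matrix.mul_nonsing_inv _ (vv_det ψ hψ), Matrix.mul_one]
    rw [h1]
    exact mul_mem_entries (mul_mem_entries hvL (diagonal_mem_entries hyL)) (inv_mem_entries hvL)
  have hF'L : ∀ f ∈ F', θ f ∈ L := by
    intro f hf
    have h1 : F' ≤ L.comap θ := by
      rw [hF', IntermediateField.adjoin_le_iff]
      rintro _ ⟨ij, rfl⟩
      exact hZL ij.1 ij.2
    exact h1 hf
  obtain ⟨hfinL, hdegL⟩ := finrank_compositum θ F' L hF'L hfin (by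
    intro T hLT hθT
    have hXT : ∀ i j, XX ψ i j ∈ T := by
      intro i j
      rw [← hθX]
      exact hθT _
    have hvT : ∀ i j, vv ψ i j ∈ T := fun i j => hLT (hvL i j)
    have hxT : ∀ g, xx k g ∈ T := by
      intro g
      have h1 : Matrix.diagonal (xx k) = (vv ψ)⁻¹ * (XX ψ * vv ψ) := by
        rw [XX_mul_vv ψ hψ, ← Matrix.mul_assoc, Matrix.nonsing_inv_mul _ (vv_det ψ hψ),
          Matrix.one_mul]
      have h2 := congrFun (congrFun h1 g) g
      rw [Matrix.diagonal_apply_eq] at h2
      rw [h2]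
      exact mul_mem_entries (inv_mem_entries hvT) (mul_mem_entries hXT hvT) g g
    rw [eq_top_iff, ← gen_top k, IntermediateField.adjoin_le_iff]
    rintro _ ⟨i, rfl⟩
    rcases i with ic | g
    · exact hLT (hmem (Sum.inl ic))
    · have h1 : gen k (Sum.inr g) = xx k g.1 := (xOf_of_ne (gen k) g.2).symm
      rw [h1]
      exact hxT _)
  have hηind : AlgebraicIndependent k η := count' rfl η (gen k) (gen_algInd k) fun i =>
    Algebra.IsAlgebraic.isAlgebraic (gen k i)
  -- the setup
  let D : Setup k (MF k p) (Var p) p :=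
    { ψ := ψ
      η := η
      hη := hηind
      fin := hfinL
      deg := lt_of_le_of_lt hdegL hdeg
      ρ := act ψ
      hρ := act_iterate ψ
      w := Sum.elim (fun ic => ic.2) (fun c => c.1)
      hρη := by
        intro σ i
        rcases i with ic | c
        · exact act_V ψ σ ic.1 ic.2
        · exact hactyh σ c.1
      x := xx k
      hx := act_xx ψ }
  -- the embeddings
  have hpp : 0 < p := hp.pos
  choose ξ hξ using fun j => IsAlgClosed.exists_pow_nat_eq (ψ j) hpp
  have hψp : ∀ j, ψ j ^ p = 1 := by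
    intro j
    rw [← AddChar.map_nsmul_eq_pow, nsmul_eq_mul, CharP.cast_eq_zero, zero_mul,
      AddChar.map_zero_eq_one]
  have hξ2 : ∀ j, ξ j ^ (p ^ 2) = 1 := by
    intro j
    rw [sq, pow_mul, hξ, hψp]
  let κ := AlgebraicClosure (FractionRing (Polynomial (K1 k p)))
  let u : κ := algebraMap (FractionRing (Polynomial (K1 k p))) κ
    (algebraMap (Polynomial (K1 k p)) (FractionRing (Polynomial (K1 k p))) Polynomial.X)
  have hu : Transcendental (K1 k p) u := by
    have h1 : Transcendental (K1 k p) (Polynomial.X : Polynomial (K1 k p)) :=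
      Polynomial.transcendental_X (K1 k p)
    intro h2
    apply h1
    have hinj : Function.Injective (IsScalarTower.toAlgHom (K1 k p) (Polynomial (K1 k p)) κ) := by
      have h3 : (IsScalarTower.toAlgHom (K1 k p) (Polynomial (K1 k p)) κ :
          Polynomial (K1 k p) → κ) = (algebraMap (FractionRing (Polynomial (K1 k p))) κ) ∘
          (algebraMap (Polynomial (K1 k p)) (FractionRing (Polynomial (K1 k p)))) := by
        funext f
        exact IsScalarTower.algebraMap_apply (Polynomial (K1 k p))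
          (FractionRing (Polynomial (K1 k p))) κ f
      rw [h3]
      exact (algebraMap (FractionRing (Polynomial (K1 k p))) κ).injective.comp
        (IsFractionRing.injective _ _)
    exact (isAlgebraic_algHom_iff (IsScalarTower.toAlgHom (K1 k p) (Polynomial (K1 k p)) κ)
      hinj).mp h2
  exact D.core (κ := κ) hψ (prod_xx k) u hu (fun j => emb ψ hψ (hξ2 j))
    (fun j ε σ hε z => emb_tame ψ hψ (hξ2 j) ε σ hε z)
    (fun j => by
      have h1 := emb_leadingCoeff ψ hψ (hξ2 j)
      rw [hξ] at h1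
      exact h1)

end Main

end Pool.Agent.Cayley
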