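import Mathlib

/-!
# Characters of the real line with prescribed values and `p`-power torsion
-/

set_option autoImplicit false
set_option linter.unusedSectionVars false

namespace Pool.Agent.Cayley

section RatChar

variable (k : Type*) [Field k] (p : ℕ)

/-- The `p`-power torsion of the multiplicative group of a field. -/
def torsUnits : Subgroup kˣ where
  carrier := {u | ∃ N : ℕ, u ^ p ^ N = 1}
  one_mem' := ⟨0, one_pow _⟩
  mul_mem' := by
    rintro a b ⟨N, hN⟩ ⟨N', hN'⟩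
    refine ⟨N + N', ?_⟩
    rw [mul_pow, pow_add, pow_mul, hN, one_pow, one_mul, mul_comm (p ^ N), pow_mul, hN', one_pow]
  inv_mem' := by
    rintro a ⟨N, hN⟩
    exact ⟨N, by rw [inv_pow, hN, inv_one]⟩

variable {k p}

lemma torsUnits_root (hp : p.Prime) [IsAlgClosed k] (a : torsUnits k p) (m : ℕ) (hm : m ≠ 0) :
    ∃ b : torsUnits k p, b ^ m = a := by
  obtain ⟨a, N, hN⟩ := a
  obtain ⟨s, m', hm', rfl⟩ := Nat.exists_eq_pow_mul_and_not_dvd hm p hp.ne_one
  obtain ⟨y, hy⟩ := IsAlgClosed.exists_pow_nat_eq (a : k) (pow_pos hp.pos s)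
  have hy0 : y ≠ 0 := by
    rintro rfl
    rw [zero_pow (pow_pos hp.pos s).ne'] at hy
    exact a.ne_zero hy.symm
  set u : kˣ := Units.mk0 y hy0 with hu
  have hus : u ^ p ^ s = a := by
    ext
    rw [Units.val_pow_eq_pow_val, hu, Units.val_mk0, hy]
  have hut : u ^ p ^ (s + N + 1) = 1 := by
    rw [pow_add, pow_add, pow_mul, pow_mul, hus, hN, one_pow]
  have hcop : Nat.Coprime m' (p ^ (s + N + 1)) :=
    Nat.Coprime.pow_right _ ((Nat.Prime.coprime_iff_not_dvd hp).mpr hm').symm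
  obtain ⟨t, ht⟩ := Nat.exists_mul_mod_eq_one_of_coprime hcop
    (Nat.one_lt_pow (Nat.succ_ne_zero _) hp.one_lt)
  have hut' : u ^ (m' * t) = u := by
    conv_lhs => rw [← Nat.div_add_mod (m' * t) (p ^ (s + N + 1)), ht.2]
    rw [pow_add, pow_mul, hut, one_pow, one_mul, pow_one]
  refine ⟨⟨u ^ t, s + N + 1, ?_⟩, ?_⟩
  · rw [← pow_mul, mul_comm, pow_mul, hut, one_pow]
  · apply Subtype.ext
    change (u ^ t) ^ (p ^ s * m') = a
    rw [← pow_mul, ← hus]
    have : t * (p ^ s * m') = (m' * t) * p ^ s := by ring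
    rw [this, pow_mul, hut']

lemma exists_ratChar (hp : p.Prime) [IsAlgClosed k] {ζ : k} (hζ : ∃ N : ℕ, ζ ^ p ^ N = 1) :
    ∃ e : AddChar ℚ k, e 1 = ζ ∧ ∀ q, ∃ N : ℕ, e q ^ p ^ N = 1 := by
  obtain ⟨N, hN⟩ := hζ
  have hζ0 : ζ ≠ 0 := by
    rintro rfl
    rw [zero_pow (pow_pos hp.pos N).ne'] at hN
    exact zero_ne_one hN
  have hu : (Units.mk0 ζ hζ0) ∈ torsUnits k p := by
    refine ⟨N, ?_⟩
    ext
    rw [Units.val_pow_eq_pow_val, Units.val_mk0, hN, Units.val_one]
  have hdiv : ∀ {n : ℤ}, n ≠ 0 → Function.Surjective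
      (fun a => n • a : Additive (torsUnits k p) → Additive (torsUnits k p)) := by
    intro n hn a
    obtain ⟨b, hb⟩ := torsUnits_root hp (Additive.toMul a) n.natAbs (Int.natAbs_ne_zero.mpr hn)
    rcases Int.natAbs_eq n with h | h
    · refine ⟨Additive.ofMul b, ?_⟩
      change n • Additive.ofMul b = a
      rw [h, natCast_zsmul, ← ofMul_pow, hb]
      rfl
    · refine ⟨-Additive.ofMul b, ?_⟩
      change n • -Additive.ofMul b = a
      rw [h, neg_smul, smul_neg, neg_neg, natCast_zsmul, ← ofMul_pow, hb]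
      rfl
  let _ : DivisibleBy (Additive (torsUnits k p)) ℤ := divisibleByOfSMulRightSurj _ _ hdiv
  obtain ⟨h, hh⟩ := (Module.Baer.of_divisible
    (Additive (torsUnits k p))).extension_property_addMonoidHom
      (Int.castAddHom ℚ) Int.cast_injective
      (zmultiplesHom (Additive (torsUnits k p)) (Additive.ofMul ⟨_, hu⟩))
  have h1 : h 1 = Additive.ofMul ⟨_, hu⟩ := by
    have := DFunLike.congr_fun hh (1 : ℤ)
    simpa using this
  refine ⟨{ toFun := fun q => (((Additive.toMul (h q) : torsUnits k p) : kˣ) : k)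
            map_zero_eq_one' := ?_
            map_add_eq_mul' := ?_ }, ?_, ?_⟩
  · rw [map_zero]; rfl
  · intro a b
    rw [map_add]; rfl
  · change (((Additive.toMul (h 1) : torsUnits k p) : kˣ) : k) = ζ
    rw [h1]; rfl
  · intro q
    obtain ⟨N, hN⟩ := (Additive.toMul (h q)).2
    refine ⟨N, ?_⟩
    change (((Additive.toMul (h q) : torsUnits k p) : kˣ) : k) ^ p ^ N = 1
    rw [← Units.val_pow_eq_pow_val, hN, Units.val_one]

end RatChar

/-- Linear functionals with prescribed values on a linearly independent family. -/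
lemma exists_functional {ι V : Type*} [AddCommGroup V] [Module ℚ V] {v : ι → V}
    (hv : LinearIndependent ℚ v) (f : ι → ℚ) : ∃ l : V →ₗ[ℚ] ℚ, ∀ i, l (v i) = f i := by
  obtain ⟨g, hg⟩ := LinearMap.exists_extend ((Module.Basis.span hv).constr ℚ f)
  refine ⟨g, fun i => ?_⟩
  have h1 := DFunLike.congr_fun hg (Module.Basis.span hv i)
  rw [Module.Basis.constr_basis, LinearMap.comp_apply] at h1
  rw [← h1]
  congr 1
  rw [Submodule.subtype_apply, Module.Basis.span_apply]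

lemma linInd_two : LinearIndependent ℚ ![(1 : ℝ), √2] := by
  rw [LinearIndependent.pair_iff]
  intro s t h
  have h2 : (s : ℝ) + t * √2 = 0 := by
    rw [Rat.smul_def, Rat.smul_def, mul_one] at h
    exact h
  have ht : t = 0 := by
    by_contra ht
    have h3 : √2 = ((-s / t : ℚ) : ℝ) := by
      push_cast
      rw [eq_div_iff (by exact_mod_cast ht)]
      linarith
    exact irrational_sqrt_two ⟨_, h3.symm⟩
  subst ht
  have hs : s = 0 := by
    rw [Rat.cast_zero, zero_mul, add_zero] at h2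
    exact_mod_cast h2
  exact ⟨hs, rfl⟩

lemma linInd_three {γ : ℝ} (hγ : ∀ a b : ℚ, γ ≠ a + b * √2) :
    LinearIndependent ℚ ![γ, (1 : ℝ), √2] := by
  have : ![γ, (1 : ℝ), √2] = Fin.cons γ ![(1 : ℝ), √2] := rfl
  rw [this, linearIndependent_finCons]
  refine ⟨linInd_two, fun h => ?_⟩
  rw [Matrix.range_cons, Matrix.range_cons, Matrix.range_empty, Set.union_empty,
    Set.singleton_union, Submodule.mem_span_pair] at h
  obtain ⟨a, b, h⟩ := h
  refine hγ a b ?_
  rw [← h, Rat.smul_def, Rat.smul_def, mul_one]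

section Adm

variable {k : Type*} [Field k] {p : ℕ}

/-- Admissible characters of the real line. -/
structure Adm (ψ : AddChar (ZMod p) k) (ε : AddChar ℝ k) (σ : ZMod p × ZMod p) : Prop where
  tors : ∀ b, ∃ N : ℕ, ε b ^ p ^ N = 1
  one : ε 1 = ψ σ.1
  sqrt : ε (√2) = ψ σ.2

lemma exists_adm_of_functional [IsAlgClosed k] (hp : p.Prime) (ψ : AddChar (ZMod p) k)
    (l : ℝ →ₗ[ℚ] ℚ) (c d : ℤ) (h1 : l 1 = c) (h2 : l (√2) = d) :
    ∃ ε, Adm ψ ε ((c : ZMod p), (d : ZMod p)) ∧ ∀ γ, l γ = 0 → ε γ = 1 := by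
  have hψ : ∃ N : ℕ, ψ 1 ^ p ^ N = 1 := by
    refine ⟨1, ?_⟩
    rw [← AddChar.map_nsmul_eq_pow, pow_one, nsmul_eq_mul, CharP.cast_eq_zero, zero_mul,
      AddChar.map_zero_eq_one]
  obtain ⟨e, he1, he⟩ := exists_ratChar hp hψ
  have hint : ∀ c : ℤ, e (c : ℚ) = ψ (c : ZMod p) := by
    intro c
    have h3 : (c : ℚ) = c • (1 : ℚ) := by rw [zsmul_eq_mul, mul_one]
    have h4 : (c : ZMod p) = c • (1 : ZMod p) := by rw [zsmul_eq_mul, mul_one]
    rw [h3, h4, AddChar.map_zsmul_eq_zpow, AddChar.map_zsmul_eq_zpow, he1]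
  refine ⟨{ toFun := fun b => e (l b)
            map_zero_eq_one' := by rw [map_zero, AddChar.map_zero_eq_one]
            map_add_eq_mul' := fun a b => by rw [map_add, AddChar.map_add_eq_mul] }, ⟨?_, ?_, ?_⟩, ?_⟩
  · intro b
    exact he (l b)
  · change e (l 1) = _
    rw [h1, hint]
  · change e (l (√2)) = _
    rw [h2, hint]
  · intro γ hγ
    change e (l γ) = 1
    rw [hγ, AddChar.map_zero_eq_one]

/-- For a generic exponent, all classes are realised. -/
lemma exists_adm_generic [IsAlgClosed k] (hp : p.Prime) (ψ : AddChar (ZMod p) k) {γ : ℝ}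
    (hγ : ∀ a b : ℚ, γ ≠ a + b * √2) (σ : ZMod p × ZMod p) :
    ∃ ε, Adm ψ ε σ ∧ ε γ = 1 := by
  obtain ⟨c, hc⟩ := ZMod.intCast_surjective σ.1
  obtain ⟨d, hd⟩ := ZMod.intCast_surjective σ.2
  obtain ⟨l, hl⟩ := exists_functional (linInd_three hγ) ![0, (c : ℚ), (d : ℚ)]
  obtain ⟨ε, hε, hε'⟩ := exists_adm_of_functional hp ψ l c d (hl 1) (hl 2)
  refine ⟨ε, ?_, hε' γ (hl 0)⟩
  rw [hc, hd] at hε
  exact hε

lemma exists_adm [IsAlgClosed k] (hp : p.Prime) (ψ : AddChar (ZMod p) k)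
    (σ : ZMod p × ZMod p) : ∃ ε, Adm ψ ε σ := by
  obtain ⟨c, hc⟩ := ZMod.intCast_surjective σ.1
  obtain ⟨d, hd⟩ := ZMod.intCast_surjective σ.2
  obtain ⟨l, hl⟩ := exists_functional linInd_two ![(c : ℚ), (d : ℚ)]
  obtain ⟨ε, hε, -⟩ := exists_adm_of_functional hp ψ l c d (hl 0) (hl 1)
  refine ⟨ε, ?_⟩
  rw [hc, hd] at hε
  exact hε

lemma exists_orthogonal (hp : p.Prime) (q₁ q₂ : ℚ) :
    ∃ c d : ℤ, ¬ ((p : ℤ) ∣ c ∧ (p : ℤ) ∣ d) ∧ (c : ℚ) * q₁ + d * q₂ = 0 := by
  -- clear denominators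
  set a : ℤ := q₁.num * q₂.den with ha
  set b : ℤ := q₂.num * q₁.den with hb
  have hD : ((q₁.den : ℚ) * q₂.den) ≠ 0 :=
    mul_ne_zero (by exact_mod_cast q₁.den_nz) (by exact_mod_cast q₂.den_nz)
  have ha' : (a : ℚ) = q₁ * (q₁.den * q₂.den) := by
    rw [ha]; push_cast
    rw [← mul_assoc, Rat.mul_den_eq_num]
  have hb' : (b : ℚ) = q₂ * (q₁.den * q₂.den) := by
    rw [hb]; push_cast
    rw [mul_comm (q₁.den : ℚ), ← mul_assoc, Rat.mul_den_eq_num]
  rcases Nat.eq_zero_or_pos (Int.gcd a b) with h0 | hpos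
  · rw [Int.gcd_eq_zero_iff] at h0
    refine ⟨1, 0, ?_, ?_⟩
    · rintro ⟨h, -⟩
      have := Int.eq_one_of_dvd_one (by positivity) h
      exact hp.one_lt.ne' (by exact_mod_cast this)
    · rw [h0.1] at ha'
      have : q₁ = 0 := by
        rcases mul_eq_zero.mp ha'.symm with h | h
        · exact h
        · exact absurd h hD
      rw [this]; simp
  · obtain ⟨m, n, hmn, hm, hn⟩ := Int.exists_gcd_one hpos
    refine ⟨-n, m, ?_, ?_⟩
    · rintro ⟨h, h'⟩
      rw [dvd_neg] at h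
      have h3 : (p : ℤ) ∣ Int.gcd m n := Int.dvd_coe_gcd h' h
      rw [hmn] at h3
      have := Int.eq_one_of_dvd_one (by positivity) h3
      exact hp.one_lt.ne' (by exact_mod_cast this)
    · have hg : ((Int.gcd a b : ℤ) : ℚ) ≠ 0 := by
        exact_mod_cast hpos.ne'
      have h4 : (a : ℚ) * n = b * m := by
        have : a * n = b * m := by
          conv_lhs => rw [hm]
          conv_rhs => rw [hn]
          ring
        exact_mod_cast this
      rw [ha', hb'] at h4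
      have h5 : (q₁ * n - q₂ * m) * (q₁.den * q₂.den) = 0 := by linear_combination h4
      rcases mul_eq_zero.mp h5 with h | h
      · push_cast
        linear_combination -h
      · exact absurd h hD

/-- For every exponent at least one non-trivial class is realised. -/
lemma exists_adm_some [IsAlgClosed k] (hp : p.Prime) (ψ : AddChar (ZMod p) k) (γ : ℝ) :
    ∃ σ : ZMod p × ZMod p, σ ≠ 0 ∧ ∃ ε, Adm ψ ε σ ∧ ε γ = 1 := by
  by_cases hγ : ∀ a b : ℚ, γ ≠ a + b * √2
  · have : Fact p.Prime := ⟨hp⟩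
    refine ⟨(1, 1), ?_, exists_adm_generic hp ψ hγ _⟩
    intro h
    exact one_ne_zero (congrArg Prod.fst h)
  · push Not at hγ
    obtain ⟨a, b, rfl⟩ := hγ
    obtain ⟨c, d, hcd, h0⟩ := exists_orthogonal hp a b
    obtain ⟨l, hl⟩ := exists_functional linInd_two ![(c : ℚ), (d : ℚ)]
    have hl1 : l 1 = c := hl 0
    have hl2 : l (√2) = d := hl 1
    obtain ⟨ε, hε, hε'⟩ := exists_adm_of_functional hp ψ l c d hl1 hl2
    refine ⟨(c, d), ?_, ε, hε, hε' _ ?_⟩
    · intro h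
      apply hcd
      rw [Prod.mk_eq_zero] at h
      exact ⟨(ZMod.intCast_zmod_eq_zero_iff_dvd c p).mp h.1,
        (ZMod.intCast_zmod_eq_zero_iff_dvd d p).mp h.2⟩
    · have h3 : (a : ℝ) + b * √2 = a • (1 : ℝ) + b • √2 := by
        rw [Rat.smul_def, Rat.smul_def, mul_one]
      rw [h3, map_add, map_smul, map_smul, hl1, hl2, smul_eq_mul, smul_eq_mul]
      linear_combination h0

end Adm

end Pool.Agent.Cayley
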