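import Mathlib

/-!
# Specialisation of elements of a function field at a point
-/

set_option autoImplicit false
set_option linter.unusedSectionVars false

namespace Pool.Agent.Cayley

section

variable (k : Type*) {F K σ : Type*} [Field k] [Field F] [Algebra k F] [Field K] [Algebra k K]

/-- The element `f` is defined at the point `c` and has value `r` there, where the field `F` has
coordinates `a`. -/
def Sp (a : σ → F) (c : σ → K) (f : F) (r : K) : Prop :=
  ∃ P Q : MvPolynomial σ k, MvPolynomial.aeval c Q ≠ 0 ∧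
    f * MvPolynomial.aeval a Q = MvPolynomial.aeval a P ∧
    r * MvPolynomial.aeval c Q = MvPolynomial.aeval c P

/-- Entrywise specialisation. -/
def SpM (a : σ → F) (c : σ → K) {I J : Type*} (M : Matrix I J F) (m : Matrix I J K) : Prop :=
  ∀ i j, Sp k a c (M i j) (m i j)

variable {k} {a : σ → F} {c : σ → K}

lemma Sp.aeval (P : MvPolynomial σ k) :
    Sp k a c (MvPolynomial.aeval a P) (MvPolynomial.aeval c P) :=
  ⟨P, 1, by rw [map_one]; exact one_ne_zero, by rw [map_one, mul_one], by rw [map_one, mul_one]⟩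

lemma Sp.gen (i : σ) : Sp k a c (a i) (c i) := by
  have h := Sp.aeval (a := a) (c := c) (MvPolynomial.X i : MvPolynomial σ k)
  rwa [MvPolynomial.aeval_X, MvPolynomial.aeval_X] at h

lemma Sp.algebraMap (r : k) : Sp k a c (algebraMap k F r) (algebraMap k K r) := by
  have h := Sp.aeval (a := a) (c := c) (MvPolynomial.C r : MvPolynomial σ k)
  rwa [MvPolynomial.aeval_C, MvPolynomial.aeval_C] at h

lemma Sp.zero : Sp k a c 0 0 := by
  have h := Sp.algebraMap (a := a) (c := c) (0 : k)
  rwa [map_zero, map_zero] at h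

lemma Sp.one : Sp k a c 1 1 := by
  have h := Sp.algebraMap (a := a) (c := c) (1 : k)
  rwa [map_one, map_one] at h

lemma Sp.add {f f' : F} {r r' : K} (h : Sp k a c f r) (h' : Sp k a c f' r') :
    Sp k a c (f + f') (r + r') := by
  obtain ⟨P, Q, hQ, h1, h2⟩ := h
  obtain ⟨P', Q', hQ', h1', h2'⟩ := h'
  refine ⟨P * Q' + P' * Q, Q * Q', ?_, ?_, ?_⟩
  · rw [map_mul]; exact mul_ne_zero hQ hQ'
  · rw [map_add, map_mul, map_mul, map_mul, ← h1, ← h1']; ring
  · rw [map_add, map_mul, map_mul, map_mul, ← h2, ← h2']; ring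

lemma Sp.mul {f f' : F} {r r' : K} (h : Sp k a c f r) (h' : Sp k a c f' r') :
    Sp k a c (f * f') (r * r') := by
  obtain ⟨P, Q, hQ, h1, h2⟩ := h
  obtain ⟨P', Q', hQ', h1', h2'⟩ := h'
  refine ⟨P * P', Q * Q', ?_, ?_, ?_⟩
  · rw [map_mul]; exact mul_ne_zero hQ hQ'
  · rw [map_mul, map_mul, ← h1, ← h1']; ring
  · rw [map_mul, map_mul, ← h2, ← h2']; ring

lemma Sp.sum {B : Type*} (s : Finset B) {f : B → F} {r : B → K}
    (h : ∀ b ∈ s, Sp k a c (f b) (r b)) : Sp k a c (∑ b ∈ s, f b) (∑ b ∈ s, r b) := by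
  classical
  induction s using Finset.induction_on with
  | empty => rw [Finset.sum_empty, Finset.sum_empty]; exact Sp.zero
  | insert b s hb ih =>
    rw [Finset.sum_insert hb, Finset.sum_insert hb]
    exact (h b (Finset.mem_insert_self b s)).add
      (ih fun b' hb' => h b' (Finset.mem_insert_of_mem hb'))

lemma Sp.prod {B : Type*} (s : Finset B) {f : B → F} {r : B → K}
    (h : ∀ b ∈ s, Sp k a c (f b) (r b)) : Sp k a c (∏ b ∈ s, f b) (∏ b ∈ s, r b) := by
  classical
  induction s using Finset.induction_on with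
  | empty => rw [Finset.prod_empty, Finset.prod_empty]; exact Sp.one
  | insert b s hb ih =>
    rw [Finset.prod_insert hb, Finset.prod_insert hb]
    exact (h b (Finset.mem_insert_self b s)).mul
      (ih fun b' hb' => h b' (Finset.mem_insert_of_mem hb'))

lemma Sp.pow {f : F} {r : K} (h : Sp k a c f r) (n : ℕ) : Sp k a c (f ^ n) (r ^ n) := by
  induction n with
  | zero => rw [pow_zero, pow_zero]; exact Sp.one
  | succ n ih => rw [pow_succ, pow_succ]; exact ih.mul h

lemma Sp.unique (hac : ∀ P : MvPolynomial σ k, MvPolynomial.aeval a P = 0 →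
    MvPolynomial.aeval c P = 0) {f : F} {r r' : K} (h : Sp k a c f r) (h' : Sp k a c f r') :
    r = r' := by
  obtain ⟨P, Q, hQ, h1, h2⟩ := h
  obtain ⟨P', Q', hQ', h1', h2'⟩ := h'
  have h3 : MvPolynomial.aeval a (P * Q' - P' * Q) = 0 := by
    rw [map_sub, map_mul, map_mul, ← h1, ← h1']; ring
  have h4 := hac _ h3
  rw [map_sub, map_mul, map_mul, ← h2, ← h2'] at h4
  have h5 : (r - r') * (MvPolynomial.aeval c Q * MvPolynomial.aeval c Q') = 0 := by
    rw [← h4]; ring
  rcases mul_eq_zero.mp h5 with h6 | h6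
  · exact sub_eq_zero.mp h6
  · exact absurd h6 (mul_ne_zero hQ hQ')

lemma Sp.inv (hac : ∀ P : MvPolynomial σ k, MvPolynomial.aeval a P = 0 →
    MvPolynomial.aeval c P = 0) {f : F} {r : K} (h : Sp k a c f r) (hr : r ≠ 0) :
    Sp k a c f⁻¹ r⁻¹ := by
  obtain ⟨P, Q, hQ, h1, h2⟩ := h
  have hP : MvPolynomial.aeval c P ≠ 0 := by
    rw [← h2]; exact mul_ne_zero hr hQ
  have hf : f ≠ 0 := by
    rintro rfl
    rw [zero_mul] at h1
    exact hP (hac P h1.symm)
  refine ⟨Q, P, hP, ?_, ?_⟩
  · rw [← h1, inv_mul_cancel_left₀ hf]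
  · rw [← h2, inv_mul_cancel_left₀ hr]

lemma Sp.aeval_comp {τ : Type*} {f : τ → F} {r : τ → K} (h : ∀ i, Sp k a c (f i) (r i))
    (P : MvPolynomial τ k) :
    Sp k a c (MvPolynomial.aeval f P) (MvPolynomial.aeval r P) := by
  induction P using MvPolynomial.induction_on with
  | C b => rw [MvPolynomial.aeval_C, MvPolynomial.aeval_C]; exact Sp.algebraMap b
  | add p q hp hq => rw [map_add, map_add]; exact hp.add hq
  | mul_X p i hp =>
    rw [map_mul, map_mul, MvPolynomial.aeval_X, MvPolynomial.aeval_X]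
    exact hp.mul (h i)

/-- An element written as a fraction is defined where its denominator does not vanish. -/
lemma Sp.of_frac {f : F} {P Q : MvPolynomial σ k}
    (hf : f * MvPolynomial.aeval a Q = MvPolynomial.aeval a P)
    (hQ : MvPolynomial.aeval c Q ≠ 0) :
    Sp k a c f (MvPolynomial.aeval c P / MvPolynomial.aeval c Q) :=
  ⟨P, Q, hQ, hf, div_mul_cancel₀ _ hQ⟩

section Matrix

variable {I J L : Type*} [Fintype I] [DecidableEq I] [Fintype J]

lemma SpM.mul {M : Matrix L J F} {m : Matrix L J K} {M' : Matrix J I F} {m' : Matrix J I K}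
    (h : SpM k a c M m) (h' : SpM k a c M' m') : SpM k a c (M * M') (m * m') := by
  intro i j
  rw [Matrix.mul_apply, Matrix.mul_apply]
  exact Sp.sum _ fun b _ => (h i b).mul (h' b j)

lemma SpM.det {M : Matrix I I F} {m : Matrix I I K} (h : SpM k a c M m) :
    Sp k a c M.det m.det := by
  rw [Matrix.det_apply', Matrix.det_apply']
  refine Sp.sum _ fun s _ => Sp.mul ?_ (Sp.prod _ fun i _ => h _ _)
  have h1 := Sp.algebraMap (a := a) (c := c) ((Equiv.Perm.sign s : ℤ) : k)
  rwa [map_intCast, map_intCast] at h1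

lemma SpM.adjugate {M : Matrix I I F} {m : Matrix I I K} (h : SpM k a c M m) :
    SpM k a c M.adjugate m.adjugate := by
  intro i j
  rw [Matrix.adjugate_apply, Matrix.adjugate_apply]
  apply SpM.det
  intro i' j'
  rw [Matrix.updateRow_apply, Matrix.updateRow_apply]
  split_ifs
  · by_cases hj : j' = i
    · subst hj
      rw [Pi.single_eq_same, Pi.single_eq_same]
      exact Sp.one
    · rw [Pi.single_eq_of_ne hj, Pi.single_eq_of_ne hj]
      exact Sp.zero
  · exact h i' j'

lemma SpM.inv (hac : ∀ P : MvPolynomial σ k, MvPolynomial.aeval a P = 0 →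
    MvPolynomial.aeval c P = 0) {M : Matrix I I F} {m : Matrix I I K} (h : SpM k a c M m)
    (hm : m.det ≠ 0) : SpM k a c M⁻¹ m⁻¹ := by
  intro i j
  rw [Matrix.inv_def, Matrix.inv_def, Matrix.smul_apply, Matrix.smul_apply,
    Ring.inverse_eq_inv', Ring.inverse_eq_inv', smul_eq_mul, smul_eq_mul]
  exact (h.det.inv hac hm).mul (h.adjugate i j)

lemma SpM.diagonal {d : I → F} {d' : I → K} (h : ∀ i, Sp k a c (d i) (d' i)) :
    SpM k a c (Matrix.diagonal d) (Matrix.diagonal d') := by
  intro i j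
  by_cases hij : i = j
  · subst hij
    rw [Matrix.diagonal_apply_eq, Matrix.diagonal_apply_eq]
    exact h i
  · rw [Matrix.diagonal_apply_ne _ hij, Matrix.diagonal_apply_ne _ hij]
    exact Sp.zero

lemma SpM.map (M : Matrix L J k) :
    SpM k a c (M.map (algebraMap k F)) (M.map (algebraMap k K)) :=
  fun i j => Sp.algebraMap (M i j)

end Matrix

end

end Pool.Agent.Cayley
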