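import Pool.Agent.Cayley.DiagDense
import Pool.Agent.Cayley.Spec

/-!
# Equivariant maps commute with the generic matrix
-/

set_option autoImplicit false
set_option linter.unusedSectionVars false

namespace Pool.Agent.Cayley

section

variable {k F : Type*} [Field k] [Field F] [Algebra k F] {I : Type*} [Fintype I] [DecidableEq I]

/-- Common denominators for finitely many elements. -/
lemma common_denom {σ B : Type*} [Fintype B] [DecidableEq B] {a : σ → F}
    (htop : IntermediateField.adjoin k (Set.range a) = ⊤) (f : B → F) :
    ∃ (q : MvPolynomial σ k) (P : B → MvPolynomial σ k), MvPolynomial.aeval a q ≠ 0 ∧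
      ∀ b, f b * MvPolynomial.aeval a q = MvPolynomial.aeval a (P b) := by
  have h1 : ∀ b, ∃ P Q : MvPolynomial σ k, MvPolynomial.aeval a Q ≠ 0 ∧
      f b * MvPolynomial.aeval a Q = MvPolynomial.aeval a P := by
    intro b
    have hz : f b ∈ IntermediateField.adjoin k (Set.range a) := by rw [htop]; trivial
    obtain ⟨r, s, hrs⟩ := (IntermediateField.mem_adjoin_range_iff k a (f b)).mp hz
    by_cases hs : MvPolynomial.aeval a s = 0
    · refine ⟨0, 1, ?_, ?_⟩
      · rw [map_one]; exact one_ne_zero
      · rw [hrs, hs, div_zero, zero_mul, map_zero]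
    · exact ⟨r, s, hs, by rw [hrs, div_mul_cancel₀ _ hs]⟩
  choose P Q hQ hPQ using h1
  refine ⟨∏ b, Q b, fun b => P b * ∏ b' ∈ Finset.univ.erase b, Q b', ?_, ?_⟩
  · rw [map_prod]
    exact Finset.prod_ne_zero_iff.mpr fun b _ => hQ b
  · intro b
    rw [← Finset.mul_prod_erase Finset.univ Q (Finset.mem_univ b), map_mul, map_mul, ← hPQ b]
    ring

variable [IsAlgClosed k] [Nonempty I]

/-- An equivariant matrix of rational functions commutes with the generic matrix. -/
theorem commute_of_equivariant (X : Matrix I I F) (hdet : X.det = 1)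
    (hgen : ∀ P : MvPolynomial (I × I) k,
      MvPolynomial.aeval (fun ij : I × I => X ij.1 ij.2) P = 0 → slPoly k I ∣ P)
    (htop : IntermediateField.adjoin k (Set.range fun ij : I × I => X ij.1 ij.2) = ⊤)
    (Y : Matrix I I F)
    (hequi : ∀ g : Matrix I I k, g.det = 1 → ∃ φ : F →ₐ[k] F,
      X.map φ = g.map (algebraMap k F) * X * (g.map (algebraMap k F))⁻¹ ∧
      Y.map φ = g.map (algebraMap k F) * Y * (g.map (algebraMap k F))⁻¹) :
    Y * X = X * Y := by
  set a : I × I → F := fun ij => X ij.1 ij.2 with ha
  obtain ⟨q, P, hq, hP⟩ := common_denom htop fun ij : I × I => Y ij.1 ij.2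
  -- the commutator as a polynomial matrix
  set PM : Matrix I I (MvPolynomial (I × I) k) := Matrix.of fun i j => P (i, j) with hPM
  set GX := Matrix.mvPolynomialX I I k with hGX
  have hdvd : ∀ i j, slPoly k I ∣ q * (PM * GX - GX * PM) i j := by
    intro i j
    apply slPoly_dvd_of_vanish
    intro g hg
    rw [map_mul]
    by_cases hqg : MvPolynomial.aeval (fun ij : I × I => g ij.1 ij.2) q = 0
    · rw [hqg, zero_mul]
    · set c : I × I → k := fun ij => g ij.1 ij.2 with hc
      have hac : ∀ R : MvPolynomial (I × I) k, MvPolynomial.aeval a R = 0 →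
          MvPolynomial.aeval c R = 0 := by
        intro R hR
        obtain ⟨R', rfl⟩ := hgen R hR
        rw [map_mul, aeval_slPoly, hg, sub_self, zero_mul]
      set y : Matrix I I k := Matrix.of fun i j =>
        MvPolynomial.aeval c (P (i, j)) / MvPolynomial.aeval c q with hy
      have hY : SpM k a c Y y := fun i j => Sp.of_frac (hP (i, j)) hqg
      have hX : SpM k a c X g := fun i j => Sp.gen (i, j)
      have hG : SpM k a c (g.map (algebraMap k F)) g := SpM.map g
      have hgdet : g.det ≠ 0 := by rw [hg]; exact one_ne_zero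
      have hgu : IsUnit g.det := isUnit_iff_ne_zero.mpr hgdet
      obtain ⟨φ, hφX, hφY⟩ := hequi g hg
      have hX' : SpM k a c (X.map φ) g := by
        have h1 := (hG.mul hX).mul (hG.inv hac hgdet)
        rw [← hφX, Matrix.mul_assoc, Matrix.mul_nonsing_inv _ hgu, Matrix.mul_one] at h1
        exact h1
      have hY' : SpM k a c (Y.map φ) (g * y * g⁻¹) := by
        have h1 := (hG.mul hY).mul (hG.inv hac hgdet)
        rw [← hφY] at h1
        exact h1
      have hev : ∀ R : MvPolynomial (I × I) k,
          Sp k a c (φ (MvPolynomial.aeval a R)) (MvPolynomial.aeval c R) := by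
        intro R
        rw [MvPolynomial.comp_aeval_apply]
        exact Sp.aeval_comp (fun ij : I × I => hX' ij.1 ij.2) R
      have hconj : g * y * g⁻¹ = y := by
        ext i j
        have h1 := congrArg φ (hP (i, j))
        rw [map_mul] at h1
        have h2 := (hY' i j).mul (hev q)
        have h3 := hev (P (i, j))
        rw [← h1] at h3
        have h4 := Sp.unique hac h2 h3
        rw [hy, Matrix.of_apply, eq_div_iff hqg, ← hy]
        exact h4
      have hcomm : y * g = g * y := by
        conv_lhs => rw [← hconj]
        rw [Matrix.mul_assoc, Matrix.nonsing_inv_mul _ hgu, Matrix.mul_one]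
      have hyP : ∀ i j, y i j * MvPolynomial.aeval c q = MvPolynomial.aeval c (P (i, j)) :=
        fun i j => div_mul_cancel₀ _ hqg
      have h5 := congrFun (congrFun hcomm i) j
      rw [Matrix.mul_apply, Matrix.mul_apply] at h5
      have h6 : MvPolynomial.aeval c ((PM * GX - GX * PM) i j) = 0 := by
        rw [Matrix.sub_apply, Matrix.mul_apply, Matrix.mul_apply, map_sub, map_sum, map_sum]
        have h7 : ∀ l, MvPolynomial.aeval c (PM i l * GX l j)
            = (y i l * g l j) * MvPolynomial.aeval c q := by
          intro l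
          rw [map_mul, hPM, Matrix.of_apply, hGX, Matrix.mvPolynomialX_apply,
            MvPolynomial.aeval_X, ← hyP]
          change y i l * _ * g l j = _
          ring
        have h8 : ∀ l, MvPolynomial.aeval c (GX i l * PM l j)
            = (g i l * y l j) * MvPolynomial.aeval c q := by
          intro l
          rw [map_mul, hPM, Matrix.of_apply, hGX, Matrix.mvPolynomialX_apply,
            MvPolynomial.aeval_X, ← hyP]
          change g i l * _ = _
          ring
        simp only [h7, h8]
        rw [← Finset.sum_mul, ← Finset.sum_mul, h5, sub_self]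
      rw [h6, mul_zero]
  have hzero : ∀ i j, MvPolynomial.aeval a ((PM * GX - GX * PM) i j) = 0 := by
    intro i j
    have hsl : MvPolynomial.aeval a (slPoly k I) = 0 := by
      rw [ha, aeval_slPoly, hdet, sub_self]
    rcases slPoly_prime.dvd_or_dvd (hdvd i j) with ⟨R, hR⟩ | ⟨R, hR⟩
    · exfalso
      apply hq
      rw [hR, map_mul, hsl, zero_mul]
    · rw [hR, map_mul, hsl, zero_mul]
  ext i j
  apply mul_right_cancel₀ hq
  have h1 := hzero i j
  rw [Matrix.sub_apply, Matrix.mul_apply, Matrix.mul_apply, map_sub, map_sum, map_sum,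
    sub_eq_zero] at h1
  rw [Matrix.mul_apply, Matrix.mul_apply, Finset.sum_mul, Finset.sum_mul]
  calc ∑ l, Y i l * X l j * MvPolynomial.aeval a q
      = ∑ l, MvPolynomial.aeval a (PM i l * GX l j) := by
        refine Finset.sum_congr rfl fun l _ => ?_
        rw [map_mul, hPM, Matrix.of_apply, hGX, Matrix.mvPolynomialX_apply,
          MvPolynomial.aeval_X, ← hP]
        change _ = Y i l * _ * X l j
        ring
    _ = ∑ l, MvPolynomial.aeval a (GX i l * PM l j) := h1
    _ = ∑ l, X i l * Y l j * MvPolynomial.aeval a q := by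
        refine Finset.sum_congr rfl fun l _ => ?_
        rw [map_mul, hPM, Matrix.of_apply, hGX, Matrix.mvPolynomialX_apply,
          MvPolynomial.aeval_X, ← hP]
        change X i l * (Y l j * _) = _
        ring

end

end Pool.Agent.Cayley
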