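import Mathlib

/-!
# Fibres of a generically finite field extension over a purely transcendental field
-/

set_option autoImplicit false
set_option linter.unusedSectionVars false

namespace Pool.Agent.Cayley

open IntermediateField

section Hom

variable {k M H τ : Type*} [Field k] [Field M] [Algebra k M] [Field H] [Algebra k H]

/-- The embedding of `k(η)` attached to an algebraically independent point `y`. -/
noncomputable def baseHom {η : τ → M} (hη : AlgebraicIndependent k η) {y : τ → H}
    (hy : AlgebraicIndependent k y) : adjoin k (Set.range η) →ₐ[k] H :=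
  (IsFractionRing.liftAlgHom (K := FractionRing (MvPolynomial τ k))
    (algebraicIndependent_iff_injective_aeval.2 hy)).comp hη.reprField

lemma baseHom_aeval {η : τ → M} (hη : AlgebraicIndependent k η) {y : τ → H}
    (hy : AlgebraicIndependent k y) (P : MvPolynomial τ k) (a : adjoin k (Set.range η))
    (ha : (a : M) = MvPolynomial.aeval η P) : baseHom hη hy a = MvPolynomial.aeval y P := by
  have h1 : a = hη.aevalEquivField (algebraMap _ _ P) := by
    apply Subtype.ext
    rw [ha, hη.aevalEquivField_algebraMap_apply_coe]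
  rw [h1]
  change IsFractionRing.liftAlgHom (K := FractionRing (MvPolynomial τ k))
    (algebraicIndependent_iff_injective_aeval.2 hy) (hη.aevalEquivField.symm (hη.aevalEquivField
    (algebraMap _ _ P))) = _
  rw [AlgEquiv.symm_apply_apply]
  rw [IsFractionRing.liftAlgHom_apply]
  exact IsFractionRing.lift_algebraMap (algebraicIndependent_iff_injective_aeval.2 hy) P

lemma baseHom_gen {η : τ → M} (hη : AlgebraicIndependent k η) {y : τ → H}
    (hy : AlgebraicIndependent k y) (i : τ) (a : adjoin k (Set.range η))
    (ha : (a : M) = η i) : baseHom hη hy a = y i := by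
  rw [baseHom_aeval hη hy (MvPolynomial.X i) a (by rw [MvPolynomial.aeval_X, ha]),
    MvPolynomial.aeval_X]

end Hom

section Fibre

variable {k M H τ : Type*} [Field k] [Field M] [Algebra k M] [Field H] [Algebra k H]
variable [CharZero k] [IsAlgClosed H]

open Classical in
/-- The finset of embeddings of `M` above the point `y`, and the trace formula. -/
lemma fibre_exists {η : τ → M} (hη : AlgebraicIndependent k η)
    [FiniteDimensional (adjoin k (Set.range η)) M] {y : τ → H}
    (hy : AlgebraicIndependent k y) :
    ∃ S : Finset (M →ₐ[k] H), (∀ ι : M →ₐ[k] H, ι ∈ S ↔ ∀ i, ι (η i) = y i) ∧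
      S.card = Module.finrank (adjoin k (Set.range η)) M ∧
      ∀ z : M, ∑ ι ∈ S, ι z
        = baseHom hη hy (Algebra.trace (adjoin k (Set.range η)) M z) := by
  let _ : Algebra (adjoin k (Set.range η)) H := (baseHom hη hy).toRingHom.toAlgebra
  have hmap : ∀ a : adjoin k (Set.range η), algebraMap (adjoin k (Set.range η)) H a
      = baseHom hη hy a := fun a => rfl
  have _ : IsScalarTower k (adjoin k (Set.range η)) H :=
    IsScalarTower.of_algebraMap_eq fun r => ((baseHom hη hy).commutes r).symm
  have _ : CharZero (adjoin k (Set.range η)) := charZero_of_injective_algebraMap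
    (algebraMap k (adjoin k (Set.range η))).injective
  let f : (M →ₐ[adjoin k (Set.range η)] H) ↪ (M →ₐ[k] H) :=
    ⟨AlgHom.restrictScalars k, AlgHom.restrictScalars_injective k⟩
  refine ⟨Finset.univ.map f, ?_, ?_, ?_⟩
  · intro ι
    rw [Finset.mem_map]
    constructor
    · rintro ⟨ι', -, rfl⟩ i
      have h1 : η i ∈ adjoin k (Set.range η) := subset_adjoin k _ ⟨i, rfl⟩
      change ι' (η i) = y i
      have h2 := ι'.commutes ⟨η i, h1⟩
      rw [hmap, baseHom_gen hη hy i _ rfl] at h2
      exact h2
    · intro h
      have hcomm : ∀ a : adjoin k (Set.range η), ι (a : M) = baseHom hη hy a := by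
        intro a
        obtain ⟨P, Q, hPQ⟩ := (mem_adjoin_range_iff k η _).mp a.2
        have hc : ∀ R : MvPolynomial τ k, ι (MvPolynomial.aeval η R) = MvPolynomial.aeval y R := by
          intro R
          rw [MvPolynomial.comp_aeval_apply, show (fun i => ι (η i)) = y from funext h]
        have hP : MvPolynomial.aeval η P ∈ adjoin k (Set.range η) := by
          have := algebra_adjoin_le_adjoin k (Set.range η)
          apply this
          rw [Algebra.adjoin_range_eq_range_aeval]
          exact ⟨P, rfl⟩
        have hQ : MvPolynomial.aeval η Q ∈ adjoin k (Set.range η) := by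
          have := algebra_adjoin_le_adjoin k (Set.range η)
          apply this
          rw [Algebra.adjoin_range_eq_range_aeval]
          exact ⟨Q, rfl⟩
        have h3 : a = ⟨_, hP⟩ / ⟨_, hQ⟩ := Subtype.ext hPQ
        rw [hPQ, map_div₀, hc, hc, h3, map_div₀, baseHom_aeval hη hy P ⟨_, hP⟩ rfl,
          baseHom_aeval hη hy Q ⟨_, hQ⟩ rfl]
      refine ⟨{ ι with commutes' := hcomm }, Finset.mem_univ _, ?_⟩
      ext z
      rfl
  · rw [Finset.card_map, Finset.card_univ, AlgHom.card]
  · intro z
    rw [Finset.sum_map, ← hmap, trace_eq_sum_embeddings H]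
    rfl

/-- Uniform rational formula for the sums over the fibres. -/
lemma trace_formula {η : τ → M} (hη : AlgebraicIndependent k η)
    [FiniteDimensional (adjoin k (Set.range η)) M] (z : M) :
    ∃ P Q : MvPolynomial τ k, Q ≠ 0 ∧ ∀ (y : τ → H), AlgebraicIndependent k y →
      ∀ S : Finset (M →ₐ[k] H), (∀ ι : M →ₐ[k] H, ι ∈ S ↔ ∀ i, ι (η i) = y i) →
      (∑ ι ∈ S, ι z) * MvPolynomial.aeval y Q = MvPolynomial.aeval y P := by
  set w := Algebra.trace (adjoin k (Set.range η)) M z with hw
  set q := hη.aevalEquivField.symm w with hq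
  obtain ⟨P, Q, hQ, hPQ⟩ := IsFractionRing.div_surjective (A := MvPolynomial τ k) q
  have hQ0 : Q ≠ 0 := nonZeroDivisors.ne_zero hQ
  refine ⟨P, Q, hQ0, fun y hy S hS => ?_⟩
  obtain ⟨S', hS', -, htr⟩ := fibre_exists (H := H) hη hy
  have hSS : S = S' := by
    ext ι
    rw [hS, hS']
  rw [hSS, htr, ← hw]
  have h1 : w = hη.aevalEquivField (algebraMap _ _ P) / hη.aevalEquivField (algebraMap _ _ Q) := by
    rw [← map_div₀, hPQ, hq, AlgEquiv.apply_symm_apply]
  rw [h1, map_div₀, baseHom_aeval hη hy P _ (hη.aevalEquivField_algebraMap_apply_coe P),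
    baseHom_aeval hη hy Q _ (hη.aevalEquivField_algebraMap_apply_coe Q), div_mul_cancel₀]
  intro h0
  apply hQ0
  have := hy
  rw [AlgebraicIndependent, injective_iff_map_eq_zero] at this
  exact this Q h0

end Fibre

end Pool.Agent.Cayley
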