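import Pool.Agent.Cayley.Twist

/-!
# The twisting argument
-/

set_option autoImplicit false
set_option linter.unusedSectionVars false

namespace Pool.Agent.Cayley

open HahnSeries hiding pow_add

attribute [-instance] HahnSeries.powerSeriesAlgebra

section T1

variable {Γ k K M τ : Type*} [AddCommGroup Γ] [LinearOrder Γ] [IsOrderedAddMonoid Γ]
  [Field k] [Field K] [Algebra k K] [Field M] [Algebra k M]

/-- If an embedding lies above a point on which the automorphism `ρ` acts like a character with
`p`-power torsion values, and the fibre has less than `p` elements, then the embedding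
intertwines the automorphism and the character. -/
lemma twist_comp {p : ℕ} (hp : p.Prime) (ε : AddChar Γ k)
    (hε : ∀ b, ∃ N : ℕ, ε b ^ p ^ N = 1) (ρ : M →ₐ[k] M) (hρ : ∀ z, ρ^[p] z = z)
    (η : τ → M) (hη : ∀ i, η i ≠ 0) (c : τ → k) (hρη : ∀ i, ρ (η i) = c i • η i)
    (y : τ → HahnSeries Γ K) (hy : ∀ i, twist K ε (y i) = c i • y i)
    (S : Finset (M →ₐ[k] HahnSeries Γ K)) (hS : ∀ ι, ι ∈ S ↔ ∀ i, ι (η i) = y i)
    (hcard : S.card < p) (ι : M →ₐ[k] HahnSeries Γ K) (hι : ι ∈ S) (z : M) :
    twist K ε (ι z) = ι (ρ z) := by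
  have hTinj : Function.Injective (twist K ε) := (twist K ε).toRingHom.injective
  have hρn : ∀ n z, ρ^[p * n] z = z := by
    intro n z
    rw [Function.iterate_mul]
    exact Function.iterate_fixed (hρ z) n
  have hiterη : ∀ n i, ρ^[n] (η i) = c i ^ n • η i := by
    intro n
    induction n with
    | zero => intro i; simp
    | succ n ih => intro i; rw [Function.iterate_succ_apply', ih, map_smul, hρη, smul_smul, pow_succ]
  have hcp : ∀ i, c i ^ p = 1 := by
    intro i
    have h1 := hiterη p i
    rw [hρ, Algebra.smul_def] at h1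
    have h2 : (algebraMap k M) (c i ^ p) = 1 := mul_right_cancel₀ (hη i) (by rw [← h1, one_mul])
    exact (algebraMap k M).injective (by rw [h2, map_one])
  set π : (M →ₐ[k] HahnSeries Γ K) → (M →ₐ[k] HahnSeries Γ K) :=
    fun ι => (twist K ε).comp (ι.comp (ρ ^ (p - 1))) with hπ
  have hπS : ∀ ι ∈ S, π ι ∈ S := by
    intro ι hι
    rw [hS] at hι ⊢
    intro i
    change twist K ε (ι ((ρ ^ (p - 1)) (η i))) = y i
    rw [AlgHom.coe_pow, hiterη, map_smul, hι, map_smul, hy, smul_smul, ← pow_succ,
      Nat.sub_add_cancel hp.one_lt.le, hcp, one_smul]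
  have hπiter : ∀ (n : ℕ) (z : M), (π^[n] ι) z = (twist K ε)^[n] (ι (ρ^[(p - 1) * n] z)) := by
    intro n
    induction n with
    | zero => intro z; simp
    | succ n ih =>
      intro z
      rw [Function.iterate_succ_apply', Function.iterate_succ_apply']
      change twist K ε ((π^[n] ι) ((ρ ^ (p - 1)) z)) = _
      rw [AlgHom.coe_pow, ih, ← Function.iterate_add_apply, mul_add, mul_one]
  have hmaps : ∀ n, π^[n] ι ∈ S := by
    intro n
    induction n with
    | zero => exact hι
    | succ n ih => rw [Function.iterate_succ_apply']; exact hπS _ ih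
  obtain ⟨a, b, hab, hbp, heq⟩ : ∃ a b, a < b ∧ b < p ∧ π^[a] ι = π^[b] ι := by
    obtain ⟨a, ha, b, hb, hab, heq⟩ := Finset.exists_ne_map_eq_of_card_lt_of_maps_to
      (s := Finset.range p) (t := S) (f := fun n => π^[n] ι)
      (by rw [Finset.card_range]; exact hcard) (fun n _ => hmaps n)
    rcases lt_or_gt_of_ne hab with h | h
    · exact ⟨a, b, h, Finset.mem_range.mp hb, heq⟩
    · exact ⟨b, a, h, Finset.mem_range.mp ha, heq.symm⟩
  set e := b - a with he
  have he0 : 0 < e := by omega
  have hep : e < p := by omega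
  have hb : b = a + e := by omega
  have hTe : ∀ w, (twist K ε)^[e] (ι w) = ι (ρ^[e] w) := by
    intro w
    have h1 := DFunLike.congr_fun heq (ρ^[b] w)
    rw [hπiter, hπiter, ← Function.iterate_add_apply, ← Function.iterate_add_apply] at h1
    have h2 : (p - 1) * b + b = p * b := by
      have := hp.one_lt
      obtain ⟨q, rfl⟩ : ∃ q, p = q + 1 := ⟨p - 1, by omega⟩
      rw [Nat.add_sub_cancel]; ring
    have h3 : (p - 1) * a + b = p * a + e := by
      have := hp.one_lt
      obtain ⟨q, rfl⟩ : ∃ q, p = q + 1 := ⟨p - 1, by omega⟩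
      rw [Nat.add_sub_cancel, hb]; ring
    rw [h2, h3, hρn, Function.iterate_add_apply, hρn, hb, Function.iterate_add_apply] at h1
    exact (hTinj.iterate a h1).symm
  have hTen : ∀ n w, (twist K ε)^[e * n] (ι w) = ι (ρ^[e * n] w) := by
    intro n
    induction n with
    | zero => intro w; simp
    | succ n ih =>
      intro w
      rw [mul_add, mul_one, add_comm, Function.iterate_add_apply, ih, hTe,
        ← Function.iterate_add_apply]
  have hTp : ∀ w, (twist K ε)^[p] (ι w) = ι w := by
    intro w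
    apply twist_fixed_of_iterate K hp ε hε e he0 hep
    rw [hTen, mul_comm, hρn]
  have hcop : Nat.Coprime e p := (Nat.coprime_of_lt_prime he0.ne' hep hp).symm
  obtain ⟨n, hn⟩ := Nat.exists_mul_mod_eq_one_of_coprime hcop hp.one_lt
  have h5 : e * n = p * (e * n / p) + 1 := by
    conv_lhs => rw [← Nat.div_add_mod (e * n) p, hn.2]
  have h6 := hTen n z
  rw [h5, Function.iterate_succ_apply', Function.iterate_succ_apply', Function.iterate_mul,
    Function.iterate_fixed (hTp z)] at h6
  rw [h6, hρn]

end T1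

section Class

variable {K : Type*} [Field K]

lemma order_leadingCoeff_prod {B : Type*} (s : Finset B) (t : B → HahnSeries ℝ K)
    (h : ∀ b ∈ s, t b ≠ 0) :
    (∏ b ∈ s, t b).order = ∑ b ∈ s, (t b).order ∧
      (∏ b ∈ s, t b).leadingCoeff = ∏ b ∈ s, (t b).leadingCoeff := by
  classical
  induction s using Finset.induction_on with
  | empty => simp
  | insert a s ha ih =>
    obtain ⟨ih1, ih2⟩ := ih fun b hb => h b (Finset.mem_insert_of_mem hb)
    have h1 : ∏ b ∈ s, t b ≠ 0 := Finset.prod_ne_zero_iff.mpr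
      fun b hb => h b (Finset.mem_insert_of_mem hb)
    have h2 : t a ≠ 0 := h a (Finset.mem_insert_self a s)
    rw [Finset.prod_insert ha, Finset.sum_insert ha, Finset.prod_insert ha, order_mul h2 h1,
      leadingCoeff_mul, ih1, ih2]
    exact ⟨rfl, rfl⟩

lemma prod_one_class {B : Type*} [Fintype B] (t : B → HahnSeries ℝ K)
    (horder : ∀ b b', (t b).order = (t b').order)
    (hlc : ∀ b b', (t b).order = 0 → (t b).leadingCoeff = (t b').leadingCoeff)
    (hprod : ∏ b, t b = 1) (b : B) :
    (t b).order = 0 ∧ (t b).leadingCoeff ^ Fintype.card B = 1 := by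
  have hne : ∀ b ∈ Finset.univ, t b ≠ 0 := by
    rw [← Finset.prod_ne_zero_iff, hprod]
    exact one_ne_zero
  obtain ⟨h1, h2⟩ := order_leadingCoeff_prod Finset.univ t hne
  rw [hprod, order_one] at h1
  rw [hprod, leadingCoeff_one] at h2
  have h3 : (t b).order = 0 := by
    rw [Finset.sum_congr rfl fun b' _ => horder b' b, Finset.sum_const, Finset.card_univ,
      nsmul_eq_mul] at h1
    rcases mul_eq_zero.mp h1.symm with h | h
    · exfalso
      rw [Nat.cast_eq_zero, Fintype.card_eq_zero_iff] at h
      exact h.elim b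
    · exact h
  refine ⟨h3, ?_⟩
  rw [Finset.prod_congr rfl fun b' _ => (hlc b b' h3).symm, Finset.prod_const,
    Finset.card_univ] at h2
  exact h2.symm

/-- The class lemma for a cyclic group of prime order. -/
lemma zmod_class {k M : Type*} [Field k] [Algebra k K] [Field M] [Algebra k M] {p : ℕ}
    [Fact p.Prime] (ε : AddChar ℝ k) (ρ : M →ₐ[k] M) (T : ZMod p → M) (s : ZMod p) (hs : s ≠ 0)
    (hT : ∀ b, ρ (T b) = T (b + s)) (hprod : ∏ b, T b = 1) (ι : M →ₐ[k] HahnSeries ℝ K)
    (hι : ∀ z, twist K ε (ι z) = ι (ρ z)) (b : ZMod p) :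
    (ι (T b)).order = 0 ∧ (ι (T b)).leadingCoeff ^ p = 1 := by
  have hord1 : ∀ b, (ι (T (b + s))).order = (ι (T b)).order := by
    intro b
    rw [← hT, ← hι, order_twist]
  have hlc1 : ∀ b, (ι (T b)).order = 0 → (ι (T (b + s))).leadingCoeff = (ι (T b)).leadingCoeff := by
    intro b hb
    rw [← hT, ← hι, leadingCoeff_twist, hb, AddChar.map_zero_eq_one, map_one, one_mul]
  have hn : ∀ (n : ℕ) b, (ι (T (b + n * s))).order = (ι (T b)).order ∧
      ((ι (T b)).order = 0 → (ι (T (b + n * s))).leadingCoeff = (ι (T b)).leadingCoeff) := by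
    intro n
    induction n with
    | zero => intro b; simp
    | succ n ih =>
      intro b
      obtain ⟨ih1, ih2⟩ := ih b
      have h1 : b + ((n + 1 : ℕ) : ZMod p) * s = b + n * s + s := by push_cast; ring
      rw [h1, hord1]
      exact ⟨ih1, fun h => by rw [hlc1 _ (by rw [ih1, h]), ih2 h]⟩
  have hgen : ∀ b b' : ZMod p, b' = b + (((b' - b) * s⁻¹).val : ZMod p) * s := by
    intro b b'
    rw [ZMod.natCast_zmod_val, inv_mul_cancel_right₀ hs, add_sub_cancel]
  have hprod' : ∏ b, ι (T b) = 1 := by rw [← map_prod, hprod, map_one]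
  have h := prod_one_class (fun b => ι (T b)) ?_ ?_ hprod' b
  · rw [ZMod.card] at h
    exact h
  · intro b b'
    have := (hn ((b' - b) * s⁻¹).val b).1
    rw [← hgen] at this
    exact this.symm
  · intro b b' hb
    have := (hn ((b' - b) * s⁻¹).val b).2 hb
    rw [← hgen] at this
    exact this.symm

end Class

end Pool.Agent.Cayley
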