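import Mathlib

/-!
# The valuation of a polynomial in a generic Hahn series
-/

set_option autoImplicit false
set_option linter.unusedSectionVars false

namespace Pool.Agent.Cayley

open HahnSeries hiding pow_add

attribute [-instance] HahnSeries.powerSeriesAlgebra

variable {k κ₁ κ : Type*} [Field k] [Field κ₁] [Field κ] [Algebra k κ₁] [Algebra k κ]
  [Algebra κ₁ κ] [IsScalarTower k κ₁ κ]

lemma support_map_inj (h : HahnSeries ℝ κ₁) :
    (h.map (algebraMap κ₁ κ)).support = h.support := by
  ext b
  rw [mem_support, mem_support]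
  change algebraMap κ₁ κ (h.coeff b) ≠ 0 ↔ _
  rw [map_ne_zero]

variable (k κ₁ κ) in
/-- Coefficientwise extension of scalars. -/
noncomputable def mapH : HahnSeries ℝ κ₁ →ₐ[k] HahnSeries ℝ κ where
  toFun h := h.map (algebraMap κ₁ κ)
  map_one' := by
    ext b
    change algebraMap κ₁ κ ((1 : HahnSeries ℝ κ₁).coeff b) = (1 : HahnSeries ℝ κ).coeff b
    rw [coeff_one, coeff_one]
    split_ifs
    · rw [map_one]
    · rw [map_zero]
  map_mul' h h' := by
    ext b
    change algebraMap κ₁ κ ((h * h').coeff b) = (_ * _ : HahnSeries ℝ κ).coeff b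
    rw [coeff_mul, coeff_mul, map_sum]
    refine Finset.sum_congr ?_ ?_
    · ext ij
      simp only [Finset.mem_antidiagonal, support_map_inj]
    · intro ij _
      rw [map_mul]
      rfl
  map_zero' := by
    ext b
    change algebraMap κ₁ κ ((0 : HahnSeries ℝ κ₁).coeff b) = (0 : HahnSeries ℝ κ).coeff b
    rw [coeff_zero, coeff_zero, map_zero]
  map_add' h h' := by
    ext b
    change algebraMap κ₁ κ ((h + h').coeff b) = (_ + _ : HahnSeries ℝ κ).coeff b
    rw [coeff_add, coeff_add, map_add]
    rfl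
  commutes' r := by
    ext b
    rw [HahnSeries.algebraMap_apply, HahnSeries.algebraMap_apply]
    change algebraMap κ₁ κ ((single 0 (algebraMap k κ₁ r)).coeff b)
      = (single 0 (algebraMap k κ r)).coeff b
    rw [coeff_single, coeff_single]
    split_ifs
    · rw [← IsScalarTower.algebraMap_apply]
    · rw [map_zero]

lemma coeff_mapH (h : HahnSeries ℝ κ₁) (b : ℝ) :
    (mapH k κ₁ κ h).coeff b = algebraMap κ₁ κ (h.coeff b) := rfl

lemma orderTop_mapH (h : HahnSeries ℝ κ₁) : (mapH k κ₁ κ h).orderTop = h.orderTop := by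
  by_cases h0 : h = 0
  · rw [h0, map_zero, orderTop_zero, orderTop_zero]
  · have h1 := order_eq_orderTop_of_ne_zero h0
    rw [← h1]
    refine orderTop_eq_of_le ?_ ?_
    · change _ ∈ (h.map (algebraMap κ₁ κ)).support
      rw [support_map_inj, mem_support]
      exact coeff_order_eq_zero.not.mpr h0
    · intro b hb
      change b ∈ (h.map (algebraMap κ₁ κ)).support at hb
      rw [support_map_inj, mem_support] at hb
      exact order_le_of_coeff_ne_zero hb

lemma order_mapH (h : HahnSeries ℝ κ₁) : (mapH k κ₁ κ h).order = h.order := by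
  by_cases h0 : h = 0
  · rw [h0, map_zero, order_zero, order_zero]
  · have h2 : mapH k κ₁ κ h ≠ 0 := (map_ne_zero _).mpr h0
    have h1 := orderTop_mapH (k := k) (κ := κ) h
    rw [← order_eq_orderTop_of_ne_zero h0, ← order_eq_orderTop_of_ne_zero h2,
      WithTop.coe_eq_coe] at h1
    exact h1

lemma leadingCoeff_mapH (h : HahnSeries ℝ κ₁) :
    (mapH k κ₁ κ h).leadingCoeff = algebraMap κ₁ κ h.leadingCoeff := by
  rw [leadingCoeff_eq, leadingCoeff_eq, order_mapH, coeff_mapH]

/-- Valuation of a polynomial evaluated at a Hahn series with transcendental leading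
coefficient. -/
lemma orderTop_eval₂ (G : Polynomial (HahnSeries ℝ κ₁)) (lam : HahnSeries ℝ κ)
    (hlam0 : lam ≠ 0) (htr : Transcendental κ₁ lam.leadingCoeff) :
    (G.eval₂ (mapH k κ₁ κ).toRingHom lam).orderTop
      = G.support.inf fun i => (((G.coeff i).order + i * lam.order : ℝ) : WithTop ℝ) := by
  by_cases hG : G = 0
  · rw [hG, Polynomial.eval₂_zero, Polynomial.support_zero, Finset.inf_empty, orderTop_zero]
  have hne : G.support.Nonempty := Polynomial.support_nonempty.mpr hG
  obtain ⟨i₀, hi₀, hmin⟩ := Finset.exists_min_image G.support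
    (fun i => (G.coeff i).order + i * lam.order) hne
  set f : ℕ → ℝ := fun i => (G.coeff i).order + i * lam.order with hf
  have hinf : G.support.inf (fun i => ((f i : ℝ) : WithTop ℝ)) = (f i₀ : WithTop ℝ) := by
    apply le_antisymm
    · exact Finset.inf_le hi₀
    · exact Finset.le_inf fun i hi => WithTop.coe_le_coe.mpr (hmin i hi)
  rw [hinf]
  have hlc0 : ∀ i ∈ G.support, G.coeff i ≠ 0 := fun i hi => Polynomial.mem_support_iff.mp hi
  have hterm0 : ∀ i ∈ G.support, mapH k κ₁ κ (G.coeff i) ≠ 0 :=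
    fun i hi => (map_ne_zero _).mpr (hlc0 i hi)
  have hord : ∀ i ∈ G.support, (mapH k κ₁ κ (G.coeff i) * lam ^ i).order = f i := by
    intro i hi
    rw [order_mul (hterm0 i hi) (pow_ne_zero i hlam0), order_mapH, order_pow, nsmul_eq_mul]
  have hsum : ∀ b, (G.eval₂ (mapH k κ₁ κ).toRingHom lam).coeff b
      = ∑ i ∈ G.support, (mapH k κ₁ κ (G.coeff i) * lam ^ i).coeff b := by
    intro b
    rw [Polynomial.eval₂_eq_sum, Polynomial.sum_def, coeff_sum]
    rfl
  refine orderTop_eq_of_le ?_ ?_
  · rw [mem_support, hsum]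
    have h1 : ∀ i ∈ G.support, (mapH k κ₁ κ (G.coeff i) * lam ^ i).coeff (f i₀)
        = if f i = f i₀ then algebraMap κ₁ κ (G.coeff i).leadingCoeff * lam.leadingCoeff ^ i
          else 0 := by
      intro i hi
      split_ifs with h
      · rw [← h, ← hord i hi, ← leadingCoeff_eq, leadingCoeff_mul, leadingCoeff_mapH]
        congr 1
        clear hi h
        induction i with
        | zero => rw [pow_zero, pow_zero, leadingCoeff_one]
        | succ n ih => rw [pow_succ, pow_succ, leadingCoeff_mul, ih]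
      · apply coeff_eq_zero_of_lt_order
        rw [hord i hi]
        exact lt_of_le_of_ne (hmin i hi) (Ne.symm h)
    rw [Finset.sum_congr rfl h1]
    set R : Polynomial κ₁ := ∑ i ∈ G.support.filter (fun i => f i = f i₀),
      Polynomial.monomial i (G.coeff i).leadingCoeff with hR
    have hRne : R ≠ 0 := by
      intro h0
      have h2 : R.coeff i₀ = (G.coeff i₀).leadingCoeff := by
        rw [hR, Polynomial.finsetSum_coeff]
        simp only [Polynomial.coeff_monomial]
        rw [Finset.sum_ite_eq' (G.support.filter (fun i => f i = f i₀)) i₀]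
        have hmem : i₀ ∈ G.support.filter (fun i => f i = f i₀) :=
          Finset.mem_filter.mpr ⟨hi₀, rfl⟩
        rw [if_pos hmem]
      rw [h0, Polynomial.coeff_zero] at h2
      exact leadingCoeff_ne_zero.mpr (hlc0 i₀ hi₀) h2.symm
    have h3 : ∑ i ∈ G.support, (if f i = f i₀ then
        algebraMap κ₁ κ (G.coeff i).leadingCoeff * lam.leadingCoeff ^ i else 0)
        = Polynomial.aeval lam.leadingCoeff R := by
      rw [hR, map_sum, Finset.sum_filter]
      refine Finset.sum_congr rfl fun i _ => ?_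
      split_ifs
      · rw [Polynomial.aeval_monomial]
      · rfl
    rw [h3]
    exact fun h => hRne (transcendental_iff.mp htr R h)
  · intro b hb
    rw [mem_support, hsum] at hb
    by_contra hlt
    push Not at hlt
    apply hb
    refine Finset.sum_eq_zero fun i hi => ?_
    apply coeff_eq_zero_of_lt_order
    rw [hord i hi]
    exact lt_of_lt_of_le hlt (hmin i hi)

lemma eval₂_ne_zero (G : Polynomial (HahnSeries ℝ κ₁)) (hG : G ≠ 0) (lam : HahnSeries ℝ κ)
    (hlam0 : lam ≠ 0) (htr : Transcendental κ₁ lam.leadingCoeff) :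
    G.eval₂ (mapH k κ₁ κ).toRingHom lam ≠ 0 := by
  rw [← orderTop_ne_top, orderTop_eval₂ G lam hlam0 htr]
  obtain ⟨i, hi⟩ := Polynomial.support_nonempty.mpr hG
  have h1 : G.support.inf (fun i => (((G.coeff i).order + i * lam.order : ℝ) : WithTop ℝ))
      ≤ (((G.coeff i).order + i * lam.order : ℝ) : WithTop ℝ) := Finset.inf_le hi
  exact (lt_of_le_of_lt h1 (WithTop.coe_lt_top _)).ne

/-- The condition that the value of `B` is smaller than that of `A` at exponent `γ`. -/
def Dom (A B : Polynomial (HahnSeries ℝ κ₁)) (γ : ℝ) : Prop :=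
  ∀ a ∈ A.support, ∃ l ∈ B.support, (B.coeff l).order + l * γ < (A.coeff a).order + a * γ

lemma dom_iff (A B : Polynomial (HahnSeries ℝ κ₁)) (hB : B ≠ 0) (lam : HahnSeries ℝ κ)
    (hlam0 : lam ≠ 0) (htr : Transcendental κ₁ lam.leadingCoeff) :
    (B.eval₂ (mapH k κ₁ κ).toRingHom lam).orderTop
      < (A.eval₂ (mapH k κ₁ κ).toRingHom lam).orderTop ↔ Dom A B lam.order := by
  have hBtop : (B.eval₂ (mapH k κ₁ κ).toRingHom lam).orderTop < ⊤ := by
    rw [orderTop_lt_top]
    exact eval₂_ne_zero B hB lam hlam0 htr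
  rw [orderTop_eval₂ A lam hlam0 htr, Finset.lt_inf_iff hBtop, orderTop_eval₂ B lam hlam0 htr]
  refine forall₂_congr fun a _ => ?_
  rw [Finset.inf_lt_iff]
  simp only [WithTop.coe_lt_coe]

lemma isOpen_dom (A B : Polynomial (HahnSeries ℝ κ₁)) : IsOpen {γ : ℝ | Dom A B γ} := by
  have h : {γ : ℝ | Dom A B γ} = ⋂ a ∈ A.support, ⋃ l ∈ B.support,
      {γ : ℝ | (B.coeff l).order + l * γ < (A.coeff a).order + a * γ} := by
    ext γ
    simp only [Dom, Set.mem_ofPred_eq, Set.mem_iInter, Set.mem_iUnion, exists_prop]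
  rw [h]
  refine isOpen_biInter_finset fun a _ => isOpen_biUnion fun l _ => ?_
  exact isOpen_lt (by fun_prop) (by fun_prop)

end Pool.Agent.Cayley
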