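import Pool.Agent.Cayley.Near
import Pool.Agent.Cayley.Val

/-!
# Constancy of residues along generic paths
-/

set_option autoImplicit false
set_option linter.unusedSectionVars false

namespace Pool.Agent.Cayley

open HahnSeries hiding pow_add

attribute [-instance] HahnSeries.powerSeriesAlgebra

variable {k κ₁ κ τ : Type*} [Field k] [Field κ₁] [Field κ] [Algebra k κ₁] [Algebra k κ]
  [Algebra κ₁ κ] [IsScalarTower k κ₁ κ]

/-- The restriction of a polynomial to the line through `y₀` and `y₁`. -/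
noncomputable def pathHom (y₀ y₁ : τ → HahnSeries ℝ κ₁) :
    MvPolynomial τ k →ₐ[k] Polynomial (HahnSeries ℝ κ₁) :=
  MvPolynomial.aeval fun i => Polynomial.C (y₀ i) + Polynomial.X * Polynomial.C (y₁ i - y₀ i)

variable (k) in
/-- The point with parameter `lam` on the line through `y₀` and `y₁`. -/
noncomputable def pathPt (y₀ y₁ : τ → HahnSeries ℝ κ₁) (lam : HahnSeries ℝ κ) :
    τ → HahnSeries ℝ κ :=
  fun i => mapH k κ₁ κ (y₀ i) + lam * mapH k κ₁ κ (y₁ i - y₀ i)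

lemma pathHom_eval₂ (y₀ y₁ : τ → HahnSeries ℝ κ₁) (lam : HahnSeries ℝ κ)
    (P : MvPolynomial τ k) :
    (pathHom y₀ y₁ P).eval₂ (mapH k κ₁ κ).toRingHom lam
      = MvPolynomial.aeval (pathPt k y₀ y₁ lam) P := by
  induction P using MvPolynomial.induction_on with
  | C a =>
    rw [pathHom, MvPolynomial.aeval_C, MvPolynomial.aeval_C]
    change (Polynomial.C (algebraMap k (HahnSeries ℝ κ₁) a)).eval₂ _ _ = _
    rw [Polynomial.eval₂_C]
    exact (mapH k κ₁ κ).commutes a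
  | add p q hp hq => rw [map_add, map_add, Polynomial.eval₂_add, hp, hq]
  | mul_X p i hp =>
    rw [map_mul, map_mul, Polynomial.eval₂_mul, hp, MvPolynomial.aeval_X]
    congr 1
    rw [pathHom, MvPolynomial.aeval_X, Polynomial.eval₂_add, Polynomial.eval₂_mul,
      Polynomial.eval₂_C, Polynomial.eval₂_C, Polynomial.eval₂_X]
    rfl

lemma pathHom_coeff_zero (y₀ y₁ : τ → HahnSeries ℝ κ₁) (P : MvPolynomial τ k) :
    (pathHom y₀ y₁ P).coeff 0 = MvPolynomial.aeval y₀ P := by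
  rw [Polynomial.coeff_zero_eq_eval_zero]
  induction P using MvPolynomial.induction_on with
  | C a =>
    rw [pathHom, MvPolynomial.aeval_C, MvPolynomial.aeval_C]
    change (Polynomial.C (algebraMap k (HahnSeries ℝ κ₁) a)).eval _ = _
    rw [Polynomial.eval_C]
  | add p q hp hq => rw [map_add, map_add, Polynomial.eval_add, hp, hq]
  | mul_X p i hp =>
    rw [map_mul, map_mul, Polynomial.eval_mul, hp, MvPolynomial.aeval_X]
    congr 1
    rw [pathHom, MvPolynomial.aeval_X, Polynomial.eval_add, Polynomial.eval_mul,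
      Polynomial.eval_C, Polynomial.eval_C, Polynomial.eval_X, zero_mul, add_zero]

lemma aeval_ne_zero_of_algInd {H : Type*} [CommRing H] [Algebra k H] {y : τ → H}
    (hy : AlgebraicIndependent k y) {P : MvPolynomial τ k} (hP : P ≠ 0) :
    MvPolynomial.aeval y P ≠ 0 := by
  intro h
  rw [AlgebraicIndependent, injective_iff_map_eq_zero] at hy
  exact hP (hy P h)

lemma pathHom_ne_zero {y₀ y₁ : τ → HahnSeries ℝ κ₁} (h₀ : AlgebraicIndependent k y₀)
    {P : MvPolynomial τ k} (hP : P ≠ 0) : pathHom y₀ y₁ P ≠ 0 := by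
  intro h
  apply aeval_ne_zero_of_algInd h₀ hP
  rw [← pathHom_coeff_zero y₀ y₁, h, Polynomial.coeff_zero]

lemma pathPt_algInd {y₀ y₁ : τ → HahnSeries ℝ κ₁} (h₀ : AlgebraicIndependent k y₀)
    (lam : HahnSeries ℝ κ) (hlam0 : lam ≠ 0) (htr : Transcendental κ₁ lam.leadingCoeff) :
    AlgebraicIndependent k (pathPt k y₀ y₁ lam) := by
  rw [AlgebraicIndependent, injective_iff_map_eq_zero]
  intro P hP
  by_contra h
  rw [← pathHom_eval₂] at hP
  exact eval₂_ne_zero _ (pathHom_ne_zero h₀ h) lam hlam0 htr hP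

/-- The fraction `P / Q` has residue `N` at the point `y`. -/
def Good (P Q : MvPolynomial τ k) (N : ℕ) (y : τ → HahnSeries ℝ κ) : Prop :=
  (MvPolynomial.aeval y Q).orderTop < (MvPolynomial.aeval y (P - (N : MvPolynomial τ k) * Q)).orderTop

lemma good_iff (P Q : MvPolynomial τ k) (N : ℕ) (y : τ → HahnSeries ℝ κ) :
    Good P Q N y ↔ (MvPolynomial.aeval y Q).orderTop
      < (MvPolynomial.aeval y P - C (N : κ) * MvPolynomial.aeval y Q).orderTop := by
  rw [Good, map_sub, map_mul, map_natCast, map_natCast]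

lemma good_unique [CharZero κ] {P Q : MvPolynomial τ k} {N N' : ℕ} {y : τ → HahnSeries ℝ κ}
    (h : Good P Q N y) (h' : Good P Q N' y) : N = N' := by
  rw [good_iff] at h h'
  exact_mod_cast residue_unique h h'

lemma good_pathPt_iff {y₀ y₁ : τ → HahnSeries ℝ κ₁} (h₀ : AlgebraicIndependent k y₀)
    (lam : HahnSeries ℝ κ) (hlam0 : lam ≠ 0) (htr : Transcendental κ₁ lam.leadingCoeff)
    (P Q : MvPolynomial τ k) (hQ : Q ≠ 0) (N : ℕ) :
    Good P Q N (pathPt k y₀ y₁ lam) ↔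
      Dom (pathHom y₀ y₁ (P - (N : MvPolynomial τ k) * Q)) (pathHom y₀ y₁ Q) lam.order := by
  rw [Good, ← pathHom_eval₂, ← pathHom_eval₂,
    dom_iff _ _ (pathHom_ne_zero h₀ hQ) lam hlam0 htr]

lemma dense_generic : Dense {γ : ℝ | ∀ a b : ℚ, γ ≠ a + b * √2} := by
  have hc : (Set.range fun q : ℚ × ℚ => (q.1 : ℝ) + q.2 * √2).Countable := Set.countable_range _
  have h := hc.dense_compl ℝ
  convert h using 1
  ext γ
  simp only [Set.mem_ofPred_eq, Set.mem_compl_iff, Set.mem_range, Prod.exists, not_exists]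
  exact forall₂_congr fun a b => ne_comm

/-- Domination holds for large exponents as soon as it holds for the constant coefficients. -/
lemma dom_eventually (A B : Polynomial (HahnSeries ℝ κ₁)) (hB : B.coeff 0 ≠ 0)
    (h : (B.coeff 0).orderTop < (A.coeff 0).orderTop) : ∀ᶠ γ in Filter.atTop, Dom A B γ := by
  unfold Dom
  rw [Filter.eventually_all_finset]
  intro a ha
  have h0 : (0 : ℕ) ∈ B.support := Polynomial.mem_support_iff.mpr hB
  rcases Nat.eq_zero_or_pos a with rfl | hpos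
  · refine Filter.Eventually.of_forall fun γ => ⟨0, h0, ?_⟩
    rw [← order_eq_orderTop_of_ne_zero hB,
      ← order_eq_orderTop_of_ne_zero (Polynomial.mem_support_iff.mp ha), WithTop.coe_lt_coe] at h
    linarith
  · have ht : Filter.Tendsto (fun γ : ℝ => (A.coeff a).order + a * γ) Filter.atTop
        Filter.atTop := by
      apply Filter.tendsto_atTop_add_const_left
      exact Filter.Tendsto.const_mul_atTop (by exact_mod_cast hpos) Filter.tendsto_id
    filter_upwards [ht.eventually_gt_atTop (B.coeff 0).order] with γ hγ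
    refine ⟨0, h0, ?_⟩
    rw [Nat.cast_zero, zero_mul, add_zero]
    exact hγ

theorem path_const [CharZero κ] {y₀ y₁ : τ → HahnSeries ℝ κ₁} (h₀ : AlgebraicIndependent k y₀)
    (u : κ) (hu : Transcendental κ₁ u) (P₁ Q₁ P₂ Q₂ : MvPolynomial τ k) (hQ₁ : Q₁ ≠ 0)
    (hQ₂ : Q₂ ≠ 0)
    (H1 : ∀ γ : ℝ, ∃ N : ℕ, Good P₁ Q₁ N (pathPt k y₀ y₁ (single γ u)) ∨
      Good P₂ Q₂ N (pathPt k y₀ y₁ (single γ u)))
    (H2 : ∀ γ : ℝ, (∀ a b : ℚ, γ ≠ a + b * √2) →
      ∃ N : ℕ, Good P₁ Q₁ N (pathPt k y₀ y₁ (single γ u)) ∧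
      Good P₂ Q₂ N (pathPt k y₀ y₁ (single γ u)))
    (N₀ : ℕ) (H3 : Good P₁ Q₁ N₀ y₀) (γ : ℝ) (hγ : ∀ a b : ℚ, γ ≠ a + b * √2) :
    Good P₁ Q₁ N₀ (pathPt k y₀ y₁ (single γ u)) := by
  have hu0 : u ≠ 0 := by
    rintro rfl
    exact hu isAlgebraic_zero
  have hs0 : ∀ γ : ℝ, (single γ u : HahnSeries ℝ κ) ≠ 0 := fun γ => single_ne_zero hu0
  have hst : ∀ γ : ℝ, Transcendental κ₁ (single γ u : HahnSeries ℝ κ).leadingCoeff := by
    intro γ; rw [leadingCoeff_of_single]; exact hu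
  have hso : ∀ γ : ℝ, (single γ u : HahnSeries ℝ κ).order = γ := fun γ => order_single hu0
  have hd₁ : ∀ N γ, Good P₁ Q₁ N (pathPt k y₀ y₁ (single γ u)) ↔
      Dom (pathHom y₀ y₁ (P₁ - (N : MvPolynomial τ k) * Q₁)) (pathHom y₀ y₁ Q₁) γ := by
    intro N γ
    rw [good_pathPt_iff h₀ _ (hs0 γ) (hst γ) P₁ Q₁ hQ₁ N, hso]
  have hd₂ : ∀ N γ, Good P₂ Q₂ N (pathPt k y₀ y₁ (single γ u)) ↔
      Dom (pathHom y₀ y₁ (P₂ - (N : MvPolynomial τ k) * Q₂)) (pathHom y₀ y₁ Q₂) γ := by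
    intro N γ
    rw [good_pathPt_iff h₀ _ (hs0 γ) (hst γ) P₂ Q₂ hQ₂ N, hso]
  -- the open sets
  set V : ℕ → Set ℝ := fun N => {γ | Good P₁ Q₁ N (pathPt k y₀ y₁ (single γ u)) ∨
      Good P₂ Q₂ N (pathPt k y₀ y₁ (single γ u))} with hV
  have hVo : ∀ N, IsOpen (V N) := by
    intro N
    have : V N = {γ | Dom (pathHom y₀ y₁ (P₁ - (N : MvPolynomial τ k) * Q₁))
        (pathHom y₀ y₁ Q₁) γ} ∪ {γ | Dom (pathHom y₀ y₁ (P₂ - (N : MvPolynomial τ k) * Q₂))
        (pathHom y₀ y₁ Q₂) γ} := by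
      ext γ
      rw [hV]
      simp only [Set.mem_ofPred_eq, Set.mem_union, hd₁, hd₂]
    rw [this]
    exact (isOpen_dom _ _).union (isOpen_dom _ _)
  have hgen : ∀ γ N N', (∀ a b : ℚ, γ ≠ a + b * √2) → γ ∈ V N → γ ∈ V N' → N = N' := by
    intro γ N N' hγ h h'
    obtain ⟨M, hM1, hM2⟩ := H2 γ hγ
    have h1 : N = M := by
      rcases h with h | h
      · exact good_unique h hM1
      · exact good_unique h hM2
    have h2 : N' = M := by
      rcases h' with h | h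
      · exact good_unique h hM1
      · exact good_unique h hM2
    rw [h1, h2]
  have hdisj : ∀ γ N N', γ ∈ V N → γ ∈ V N' → N = N' := by
    intro γ N N' h h'
    obtain ⟨γ', hγ', hmem⟩ := dense_generic.inter_open_nonempty _ ((hVo N).inter (hVo N'))
      ⟨γ, h, h'⟩
    exact hgen γ' N N' hmem hγ'.1 hγ'.2
  choose f hf using H1
  have hfl : IsLocallyConstant f := by
    rw [IsLocallyConstant.iff_exists_open]
    intro γ
    exact ⟨V (f γ), hVo _, hf γ, fun γ' hγ' => hdisj γ' _ _ (hf γ') hγ'⟩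
  have hconst : ∀ γ γ', f γ = f γ' := fun γ γ' => hfl.apply_eq_of_preconnectedSpace γ γ'
  -- the end point
  have hend : ∀ᶠ γ in Filter.atTop, γ ∈ V N₀ := by
    have h1 := dom_eventually (pathHom y₀ y₁ (P₁ - (N₀ : MvPolynomial τ k) * Q₁))
      (pathHom y₀ y₁ Q₁) (by
        rw [pathHom_coeff_zero]
        exact aeval_ne_zero_of_algInd h₀ hQ₁) (by
        rw [pathHom_coeff_zero, pathHom_coeff_zero]
        exact H3)
    filter_upwards [h1] with γ hγ
    exact Or.inl ((hd₁ N₀ γ).mpr hγ)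
  obtain ⟨γ', hγ'⟩ := hend.exists
  have hN : f γ' = N₀ := hdisj γ' _ _ (hf γ') hγ'
  obtain ⟨M, hM1, hM2⟩ := H2 γ hγ
  have h5 : M = f γ := hdisj γ _ _ (Or.inl hM1) (hf γ)
  rw [hconst γ γ', hN] at h5
  rw [← h5]
  exact hM1

end Pool.Agent.Cayley
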