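import Pool.Agent.Cayley.HahnClosed
import Pool.Agent.Cayley.Chars
import Pool.Agent.Cayley.Fibre
import Pool.Agent.Cayley.Fix
import Pool.Agent.Cayley.Path

/-!
# The lower bound for the degree: the core argument
-/

set_option autoImplicit false
set_option linter.unusedSectionVars false

namespace Pool.Agent.Cayley

open HahnSeries hiding pow_add
open IntermediateField

attribute [-instance] HahnSeries.powerSeriesAlgebra

/-- The data to which the core argument applies. -/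
structure Setup (k M τ : Type*) [Field k] [Field M] [Algebra k M] (p : ℕ) where
  /-- a character of the cyclic group of order `p` -/
  ψ : AddChar (ZMod p) k
  /-- the transcendence basis -/
  η : τ → M
  hη : AlgebraicIndependent k η
  fin : FiniteDimensional (adjoin k (Set.range η)) M
  deg : Module.finrank (adjoin k (Set.range η)) M < p
  /-- the action -/
  ρ : ZMod p × ZMod p → (M →ₐ[k] M)
  hρ : ∀ σ z, (ρ σ)^[p] z = z
  /-- the weights -/
  w : τ → ZMod p × ZMod p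
  hρη : ∀ σ i, ρ σ (η i) = ψ ((w i).1 * σ.1 + (w i).2 * σ.2) • η i
  /-- the eigenvalues -/
  x : ZMod p × ZMod p → M
  hx : ∀ σ g, ρ σ (x g) = x (g + σ)

namespace Setup

variable {k M τ : Type*} [Field k] [Field M] [Algebra k M] {p : ℕ} [Fact p.Prime]
variable (D : Setup k M τ p)

/-- A point on which `ε` acts through the weights. -/
def Tw {K : Type*} [Field K] [Algebra k K] (ε : AddChar ℝ k) (σ : ZMod p × ZMod p)
    (y : τ → HahnSeries ℝ K) : Prop :=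
  ∀ i, twist K ε (y i) = D.ψ ((D.w i).1 * σ.1 + (D.w i).2 * σ.2) • y i

/-- The first product of eigenvalues. -/
noncomputable def z₁ : M := ∏ a, D.x (a, 0)

/-- The second product of eigenvalues. -/
noncomputable def z₂ : M := ∏ b, D.x (0, b)

lemma ρ_prod₁ (σ : ZMod p × ZMod p) (b : ZMod p) :
    D.ρ σ (∏ a, D.x (a, b)) = ∏ a, D.x (a, b + σ.2) := by
  rw [map_prod]
  simp only [D.hx]
  exact Equiv.prod_comp (Equiv.addRight σ.1) fun a => D.x (a, b + σ.2)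

lemma ρ_prod₂ (σ : ZMod p × ZMod p) (a : ZMod p) :
    D.ρ σ (∏ b, D.x (a, b)) = ∏ b, D.x (a + σ.1, b) := by
  rw [map_prod]
  simp only [D.hx]
  exact Equiv.prod_comp (Equiv.addRight σ.2) fun b => D.x (a + σ.1, b)

section Emb

variable {K : Type*} [Field K] [Algebra k K]

lemma class₁ (hx1 : ∏ g, D.x g = 1) (ε : AddChar ℝ k) (σ : ZMod p × ZMod p) (hσ : σ.2 ≠ 0)
    (ι : M →ₐ[k] HahnSeries ℝ K) (hι : ∀ z, twist K ε (ι z) = ι (D.ρ σ z)) :
    (ι D.z₁).order = 0 ∧ (ι D.z₁).leadingCoeff ^ p = 1 :=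
  zmod_class ε (D.ρ σ) (fun b => ∏ a, D.x (a, b)) σ.2 hσ (D.ρ_prod₁ σ)
    (by rw [← Fintype.prod_prod_type_right]; exact hx1) ι hι 0

lemma class₂ (hx1 : ∏ g, D.x g = 1) (ε : AddChar ℝ k) (σ : ZMod p × ZMod p) (hσ : σ.1 ≠ 0)
    (ι : M →ₐ[k] HahnSeries ℝ K) (hι : ∀ z, twist K ε (ι z) = ι (D.ρ σ z)) :
    (ι D.z₂).order = 0 ∧ (ι D.z₂).leadingCoeff ^ p = 1 :=
  zmod_class ε (D.ρ σ) (fun a => ∏ b, D.x (a, b)) σ.1 hσ (D.ρ_prod₂ σ)
    (by rw [← Fintype.prod_prod_type]; exact hx1) ι hι 0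

lemma class_eq (hx1 : ∏ g, D.x g = 1) (ι : M →ₐ[k] HahnSeries ℝ K)
    (hι : ∀ σ, ∃ ε : AddChar ℝ k, ∀ z, twist K ε (ι z) = ι (D.ρ σ z)) :
    (ι D.z₁).leadingCoeff = (ι D.z₂).leadingCoeff := by
  have hord : ∀ g g', (ι (D.x g)).order = (ι (D.x g')).order := by
    intro g g'
    obtain ⟨ε, hε⟩ := hι (g - g')
    rw [← order_twist K ε (ι (D.x g')), hε, D.hx, add_sub_cancel]
  have hlc : ∀ g g', (ι (D.x g)).order = 0 →
      (ι (D.x g)).leadingCoeff = (ι (D.x g')).leadingCoeff := by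
    intro g g' h
    obtain ⟨ε, hε⟩ := hι (g' - g)
    have h1 : D.x g' = D.ρ (g' - g) (D.x g) := by rw [D.hx, add_sub_cancel]
    rw [h1, ← hε, leadingCoeff_twist, h, AddChar.map_zero_eq_one, map_one, one_mul]
  have hprod : ∏ g, ι (D.x g) = 1 := by rw [← map_prod, hx1, map_one]
  have h0 := fun g => (prod_one_class (fun g => ι (D.x g)) hord hlc hprod g).1
  have hne : ∀ g, ι (D.x g) ≠ 0 := by
    intro g h
    have : ∏ g, ι (D.x g) = 0 := Finset.prod_eq_zero (Finset.mem_univ g) h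
    rw [hprod] at this
    exact one_ne_zero this
  rw [z₁, z₂, map_prod, map_prod, (order_leadingCoeff_prod _ _ fun a _ => hne _).2,
    (order_leadingCoeff_prod _ _ fun a _ => hne _).2]
  exact Finset.prod_congr rfl fun a _ => hlc _ _ (h0 _)

/-- Embeddings in the fibre over a point where `ε` acts through the weights. -/
lemma fibre_twist (ε : AddChar ℝ k) (σ : ZMod p × ZMod p) (hε : Adm D.ψ ε σ)
    (y : τ → HahnSeries ℝ K) (hy : D.Tw ε σ y)
    (S : Finset (M →ₐ[k] HahnSeries ℝ K)) (hS : ∀ ι, ι ∈ S ↔ ∀ i, ι (D.η i) = y i)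
    (hcard : S.card < p) (ι : M →ₐ[k] HahnSeries ℝ K) (hι : ι ∈ S) (z : M) :
    twist K ε (ι z) = ι (D.ρ σ z) :=
  twist_comp (Fact.out : p.Prime) ε hε.tors (D.ρ σ) (D.hρ σ) D.η (fun i => D.hη.ne_zero i)
    (fun i => D.ψ ((D.w i).1 * σ.1 + (D.w i).2 * σ.2)) (D.hρη σ) y hy S hS hcard ι hι z

end Emb

section Good

variable {κ : Type*} [Field κ] [Algebra k κ] [IsAlgClosed κ] [CharZero k]

instance isAlgClosed_real : IsAlgClosed (HahnSeries ℝ κ) :=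
  isAlgClosed_hahnSeries fun n hn g => ⟨g / n, by
    rw [nsmul_eq_mul]; field_simp⟩

/-- The fibre over a point. -/
lemma exists_fibre (y : τ → HahnSeries ℝ κ) (hy : AlgebraicIndependent k y) :
    ∃ S : Finset (M →ₐ[k] HahnSeries ℝ κ), (∀ ι, ι ∈ S ↔ ∀ i, ι (D.η i) = y i) ∧
      S.card < p := by
  have := D.fin
  obtain ⟨S, hS, hcard, -⟩ := fibre_exists (H := HahnSeries ℝ κ) D.hη hy
  exact ⟨S, hS, hcard ▸ D.deg⟩

/-- The rational functions counting the embeddings. -/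
lemma exists_counting (ω : k) (z : M) :
    ∃ P Q : MvPolynomial τ k, Q ≠ 0 ∧ ∀ (y : τ → HahnSeries ℝ κ), AlgebraicIndependent k y →
      ∀ S : Finset (M →ₐ[k] HahnSeries ℝ κ), (∀ ι, ι ∈ S ↔ ∀ i, ι (D.η i) = y i) →
      (∑ ι ∈ S, ι (indElt p ω z)) * MvPolynomial.aeval y Q = MvPolynomial.aeval y P := by
  have := D.fin
  exact trace_formula (H := HahnSeries ℝ κ) D.hη (indElt p ω z)

open Classical in
lemma good_of_counting (ω : k) (hω : ω ^ p = 1) (z : M) {P Q : MvPolynomial τ k} (hQ : Q ≠ 0)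
    (y : τ → HahnSeries ℝ κ) (hy : AlgebraicIndependent k y)
    (S : Finset (M →ₐ[k] HahnSeries ℝ κ))
    (hPQ : (∑ ι ∈ S, ι (indElt p ω z)) * MvPolynomial.aeval y Q = MvPolynomial.aeval y P)
    (hS : ∀ ι ∈ S, (ι z).order = 0 ∧ (ι z).leadingCoeff ^ p = 1) :
    Good P Q (S.filter fun ι => (ι z).leadingCoeff = algebraMap k κ ω).card y := by
  rw [good_iff]
  exact residue_ineq (near_count (Fact.out : p.Prime).ne_zero hω z S hS)
    (aeval_ne_zero_of_algInd hy hQ) hPQ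

end Good

section Main

variable {κ₁ κ : Type*} [Field κ₁] [Algebra k κ₁] [Field κ] [Algebra k κ] [Algebra κ₁ κ]
  [IsScalarTower k κ₁ κ]

/-- Embeddings which intertwine the action with all admissible characters. -/
def Tame (ι : M →ₐ[k] HahnSeries ℝ κ₁) : Prop :=
  ∀ ε σ, Adm D.ψ ε σ → ∀ z, twist κ₁ ε (ι z) = ι (D.ρ σ z)

lemma twist_mapH (ε : AddChar ℝ k) (h : HahnSeries ℝ κ₁) :
    twist κ ε (mapH k κ₁ κ h) = mapH k κ₁ κ (twist κ₁ ε h) := by
  ext b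
  rw [coeff_twist, coeff_mapH, coeff_mapH, coeff_twist, map_mul, ← IsScalarTower.algebraMap_apply]

variable {D} in
lemma Tame.tw {ι : M →ₐ[k] HahnSeries ℝ κ₁} (h : D.Tame ι) (ε : AddChar ℝ k)
    (σ : ZMod p × ZMod p) (hε : Adm D.ψ ε σ) : D.Tw ε σ fun i => ι (D.η i) := by
  intro i
  change twist κ₁ ε (ι (D.η i)) = _ • ι (D.η i)
  rw [h ε σ hε, D.hρη, map_smul]

variable {D} in
lemma Tw.mapH {ε : AddChar ℝ k} {σ : ZMod p × ZMod p} {y : τ → HahnSeries ℝ κ₁}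
    (h : D.Tw ε σ y) : D.Tw ε σ fun i => mapH k κ₁ κ (y i) := by
  intro i
  change twist κ ε (Cayley.mapH k κ₁ κ (y i)) = _ • Cayley.mapH k κ₁ κ (y i)
  rw [twist_mapH, h i, map_smul]

variable {D} in
lemma Tw.pathPt {ε : AddChar ℝ k} {σ : ZMod p × ZMod p} {y₀ y₁ : τ → HahnSeries ℝ κ₁}
    (h₀ : D.Tw ε σ y₀) (h₁ : D.Tw ε σ y₁) (lam : HahnSeries ℝ κ) (hlam : twist κ ε lam = lam) :
    D.Tw ε σ (pathPt k y₀ y₁ lam) := by
  intro i
  change twist κ ε (Cayley.mapH k κ₁ κ (y₀ i) + lam * Cayley.mapH k κ₁ κ (y₁ i - y₀ i))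
    = _ • (Cayley.mapH k κ₁ κ (y₀ i) + lam * Cayley.mapH k κ₁ κ (y₁ i - y₀ i))
  rw [map_add, map_mul, hlam, twist_mapH, twist_mapH, map_sub (twist κ₁ ε), h₀ i, h₁ i,
    ← smul_sub, map_smul, map_smul, smul_add, mul_smul_comm]

variable [IsAlgClosed κ] [IsAlgClosed k] [CharZero k]

open Classical in
lemma good_main (hx1 : ∏ g, D.x g = 1) (ω : k) (hω : ω ^ p = 1)
    {P₁ Q₁ : MvPolynomial τ k} (hQ₁ : Q₁ ≠ 0)
    (hPQ₁ : ∀ (y : τ → HahnSeries ℝ κ), AlgebraicIndependent k y →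
      ∀ S : Finset (M →ₐ[k] HahnSeries ℝ κ), (∀ ι, ι ∈ S ↔ ∀ i, ι (D.η i) = y i) →
      (∑ ι ∈ S, ι (indElt p ω D.z₁)) * MvPolynomial.aeval y Q₁ = MvPolynomial.aeval y P₁)
    {ι₀ ι₁ : M →ₐ[k] HahnSeries ℝ κ₁} (h₀ : D.Tame ι₀) (h₁ : D.Tame ι₁)
    (u : κ) (hu : Transcendental κ₁ u) (S₀ : Finset (M →ₐ[k] HahnSeries ℝ κ))
    (hS₀ : ∀ ι, ι ∈ S₀ ↔ ∀ i, ι (D.η i) = mapH k κ₁ κ (ι₀ (D.η i))) (hcard₀ : S₀.card < p)
    (γ : ℝ) (hγ : ∀ a b : ℚ, γ ≠ a + b * √2) :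
    Good P₁ Q₁ (S₀.filter fun ι => (ι D.z₁).leadingCoeff = algebraMap k κ ω).card
      (pathPt k (fun i => ι₀ (D.η i)) (fun i => ι₁ (D.η i)) (single γ u)) := by
  have hfin := D.fin
  have hp : p.Prime := Fact.out
  have hκ : CharZero κ := charZero_of_injective_algebraMap (algebraMap k κ).injective
  have hu0 : u ≠ 0 := by
    rintro rfl
    exact hu isAlgebraic_zero
  set y₀ : τ → HahnSeries ℝ κ₁ := fun i => ι₀ (D.η i) with hy₀
  set y₁ : τ → HahnSeries ℝ κ₁ := fun i => ι₁ (D.η i) with hy₁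
  have hi₀ : AlgebraicIndependent k y₀ := D.hη.map' ι₀.toRingHom.injective
  have hpt : ∀ γ : ℝ, AlgebraicIndependent k (pathPt k y₀ y₁ (single γ u : HahnSeries ℝ κ)) :=
    fun γ => pathPt_algInd hi₀ _ (single_ne_zero hu0) (by rw [leadingCoeff_of_single]; exact hu)
  have htw : ∀ γ ε σ, Adm D.ψ ε σ → ε γ = 1 →
      D.Tw ε σ (pathPt k y₀ y₁ (single γ u : HahnSeries ℝ κ)) := by
    intro γ ε σ hε hγ
    apply Tw.pathPt (h₀.tw ε σ hε) (h₁.tw ε σ hε)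
    rw [twist_single, hγ, map_one, one_mul]
  obtain ⟨P₂, Q₂, hQ₂, hPQ₂⟩ := D.exists_counting (κ := κ) ω D.z₂
  refine path_const hi₀ u hu P₁ Q₁ P₂ Q₂ hQ₁ hQ₂ ?_ ?_ _ ?_ γ hγ
  · intro γ
    obtain ⟨σ, hσ, ε, hε, hεγ⟩ := exists_adm_some hp D.ψ γ
    obtain ⟨S, hS, hcardp⟩ := D.exists_fibre _ (hpt γ)
    have hι := fun ι hι => D.fibre_twist ε σ hε _ (htw γ ε σ hε hεγ) S hS hcardp ι hι
    by_cases h2 : σ.2 = 0
    · have h1 : σ.1 ≠ 0 := fun h1 => hσ (Prod.ext h1 h2)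
      exact ⟨_, Or.inr (good_of_counting ω hω D.z₂ hQ₂ _ (hpt γ) S (hPQ₂ _ (hpt γ) S hS)
        fun ι hm => D.class₂ hx1 ε σ h1 ι (hι ι hm))⟩
    · exact ⟨_, Or.inl (good_of_counting ω hω D.z₁ hQ₁ _ (hpt γ) S (hPQ₁ _ (hpt γ) S hS)
        fun ι hm => D.class₁ hx1 ε σ h2 ι (hι ι hm))⟩
  · intro γ hγ
    obtain ⟨S, hS, hcardp⟩ := D.exists_fibre _ (hpt γ)
    have hι : ∀ ι ∈ S, ∀ σ, ∃ ε : AddChar ℝ k, ∀ z, twist κ ε (ι z) = ι (D.ρ σ z) := by
      intro ι hι σ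
      obtain ⟨ε, hε, hεγ⟩ := exists_adm_generic hp D.ψ hγ σ
      exact ⟨ε, D.fibre_twist ε σ hε _ (htw γ ε σ hε hεγ) S hS hcardp ι hι⟩
    have hc1 : ∀ ι ∈ S, (ι D.z₁).order = 0 ∧ (ι D.z₁).leadingCoeff ^ p = 1 := by
      intro ι hm
      obtain ⟨ε, hε⟩ := hι ι hm (1, 1)
      exact D.class₁ hx1 ε (1, 1) one_ne_zero ι hε
    have hc2 : ∀ ι ∈ S, (ι D.z₂).order = 0 ∧ (ι D.z₂).leadingCoeff ^ p = 1 := by
      intro ι hm
      obtain ⟨ε, hε⟩ := hι ι hm (1, 1)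
      exact D.class₂ hx1 ε (1, 1) one_ne_zero ι hε
    have hfilter : (S.filter fun ι => (ι D.z₁).leadingCoeff = algebraMap k κ ω)
        = S.filter fun ι => (ι D.z₂).leadingCoeff = algebraMap k κ ω := by
      refine Finset.filter_congr fun ι hm => ?_
      rw [D.class_eq hx1 ι (hι ι hm)]
    have hg1 := good_of_counting ω hω D.z₁ hQ₁ _ (hpt γ) S (hPQ₁ _ (hpt γ) S hS) hc1
    have hg2 := good_of_counting ω hω D.z₂ hQ₂ _ (hpt γ) S (hPQ₂ _ (hpt γ) S hS) hc2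
    rw [← hfilter] at hg2
    exact ⟨_, hg1, hg2⟩
  · have hi₀' : AlgebraicIndependent k fun i => mapH k κ₁ κ (y₀ i) :=
      hi₀.map' (mapH k κ₁ κ).toRingHom.injective
    obtain ⟨ε, hε⟩ := exists_adm hp D.ψ (1, 1)
    have hg : Good P₁ Q₁ (S₀.filter fun ι => (ι D.z₁).leadingCoeff = algebraMap k κ ω).card
        fun i => mapH k κ₁ κ (y₀ i) := by
      refine good_of_counting ω hω D.z₁ hQ₁ _ hi₀' S₀ (hPQ₁ _ hi₀' S₀ hS₀) fun ι hm => ?_
      exact D.class₁ hx1 ε (1, 1) one_ne_zero ι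
        (D.fibre_twist ε (1, 1) hε _ (h₀.tw ε _ hε).mapH S₀ hS₀ hcard₀ ι hm)
    have hae : ∀ R : MvPolynomial τ k, MvPolynomial.aeval (fun i => mapH k κ₁ κ (y₀ i)) R
        = mapH k κ₁ κ (MvPolynomial.aeval y₀ R) :=
      fun R => (MvPolynomial.comp_aeval_apply y₀ (mapH k κ₁ κ) R).symm
    rw [Good, hae, hae, orderTop_mapH, orderTop_mapH] at hg
    exact hg

open Classical in
/-- The counting function is the same for all tame embeddings. -/
lemma count_eq (hx1 : ∏ g, D.x g = 1) (ω : k) (hω : ω ^ p = 1)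
    {ι₀ ι₁ : M →ₐ[k] HahnSeries ℝ κ₁} (h₀ : D.Tame ι₀) (h₁ : D.Tame ι₁)
    (u : κ) (hu : Transcendental κ₁ u) (S₀ S₁ : Finset (M →ₐ[k] HahnSeries ℝ κ))
    (hS₀ : ∀ ι, ι ∈ S₀ ↔ ∀ i, ι (D.η i) = mapH k κ₁ κ (ι₀ (D.η i))) (hcard₀ : S₀.card < p)
    (hS₁ : ∀ ι, ι ∈ S₁ ↔ ∀ i, ι (D.η i) = mapH k κ₁ κ (ι₁ (D.η i))) (hcard₁ : S₁.card < p) :
    (S₀.filter fun ι => (ι D.z₁).leadingCoeff = algebraMap k κ ω).card
      = (S₁.filter fun ι => (ι D.z₁).leadingCoeff = algebraMap k κ ω).card := by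
  have hκ : CharZero κ := charZero_of_injective_algebraMap (algebraMap k κ).injective
  have hu0 : u ≠ 0 := by
    rintro rfl
    exact hu isAlgebraic_zero
  obtain ⟨P₁, Q₁, hQ₁, hPQ₁⟩ := D.exists_counting (κ := κ) ω D.z₁
  -- a generic negative exponent
  obtain ⟨γ, hγ0, hγ⟩ := dense_generic.inter_open_nonempty (Set.Iio 0) isOpen_Iio
    ⟨-1, by simp⟩
  have hg₀ := D.good_main hx1 ω hω hQ₁ hPQ₁ h₀ h₁ u hu S₀ hS₀ hcard₀ γ hγ
  have hg₁ := D.good_main hx1 ω hω hQ₁ hPQ₁ h₁ h₀ u hu S₁ hS₁ hcard₁ γ hγ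
  set y₀ : τ → HahnSeries ℝ κ₁ := fun i => ι₀ (D.η i) with hy₀
  set y₁ : τ → HahnSeries ℝ κ₁ := fun i => ι₁ (D.η i) with hy₁
  have hi₁ : AlgebraicIndependent k y₁ := D.hη.map' ι₁.toRingHom.injective
  have hγ1 : (single γ (-u) : HahnSeries ℝ κ).orderTop < (1 : HahnSeries ℝ κ).orderTop := by
    rw [orderTop_single (neg_ne_zero.mpr hu0), orderTop_one]
    exact_mod_cast hγ0
  set lam : HahnSeries ℝ κ := single γ (-u) + 1 with hlam
  have hlamo : lam.orderTop = γ := by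
    rw [hlam, orderTop_add_eq_left hγ1, orderTop_single (neg_ne_zero.mpr hu0)]
  have hlam0 : lam ≠ 0 := by
    rw [← orderTop_ne_top, hlamo]
    exact WithTop.coe_ne_top
  have hlamo' : lam.order = γ := by
    rw [← order_eq_orderTop_of_ne_zero hlam0] at hlamo
    exact_mod_cast hlamo
  have hlaml : lam.leadingCoeff = -u := by
    rw [hlam, leadingCoeff_add_eq_left hγ1, leadingCoeff_of_single]
  have hnu : Transcendental κ₁ (-u) := by
    intro h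
    apply hu
    have := h.neg
    rwa [neg_neg] at this
  rw [good_pathPt_iff hi₁ _ (single_ne_zero hu0) (by rw [leadingCoeff_of_single]; exact hu) P₁ Q₁
    hQ₁, order_single hu0, ← hlamo', ← good_pathPt_iff hi₁ lam hlam0 (by rw [hlaml]; exact hnu)
    P₁ Q₁ hQ₁] at hg₁
  have hpt : pathPt k y₁ y₀ lam = pathPt k y₀ y₁ (single γ u : HahnSeries ℝ κ) := by
    funext i
    rw [pathPt, pathPt, hlam, single_neg, map_sub, map_sub]
    ring
  rw [hpt] at hg₁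
  exact good_unique hg₀ hg₁

/-- The core theorem: tame embeddings cannot realise all classes. -/
theorem core (hψ : Function.Injective D.ψ) (hx1 : ∏ g, D.x g = 1)
    (u : κ) (hu : Transcendental κ₁ u)
    (ι : ZMod p → (M →ₐ[k] HahnSeries ℝ κ₁)) (hι : ∀ j, D.Tame (ι j))
    (hlc : ∀ j, (ι j D.z₁).leadingCoeff = algebraMap k κ₁ (D.ψ j)) : False := by
  classical
  have hfin := D.fin
  have hpow : ∀ j, D.ψ j ^ p = 1 := by
    intro j
    rw [← AddChar.map_nsmul_eq_pow, nsmul_eq_mul, CharP.cast_eq_zero, zero_mul,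
      AddChar.map_zero_eq_one]
  have hind : ∀ j, AlgebraicIndependent k fun i => mapH k κ₁ κ (ι j (D.η i)) := by
    intro j
    have h1 : AlgebraicIndependent k fun i => ι j (D.η i) := D.hη.map' (ι j).toRingHom.injective
    exact h1.map' (mapH k κ₁ κ).toRingHom.injective
  choose S hS hcardp using fun j => D.exists_fibre _ (hind j)
  have hex : ∀ j, ∃ κ' ∈ S 0, (κ' D.z₁).leadingCoeff = algebraMap k κ (D.ψ j) := by
    intro j
    have h1 := D.count_eq hx1 (D.ψ j) (hpow j) (hι j) (hι 0) u hu (S j) (S 0) (hS j) (hcardp j)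
      (hS 0) (hcardp 0)
    have h2 : ((mapH k κ₁ κ).comp (ι j)) ∈ (S j).filter fun ι =>
        (ι D.z₁).leadingCoeff = algebraMap k κ (D.ψ j) := by
      rw [Finset.mem_filter, hS]
      refine ⟨fun i => rfl, ?_⟩
      change (mapH k κ₁ κ (ι j D.z₁)).leadingCoeff = _
      rw [leadingCoeff_mapH, hlc, ← IsScalarTower.algebraMap_apply]
    have h3 : 0 < ((S 0).filter fun ι =>
        (ι D.z₁).leadingCoeff = algebraMap k κ (D.ψ j)).card := by
      rw [← h1]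
      exact Finset.card_pos.mpr ⟨_, h2⟩
    obtain ⟨κ', hκ'⟩ := Finset.card_pos.mp h3
    rw [Finset.mem_filter] at hκ'
    exact ⟨κ', hκ'.1, hκ'.2⟩
  choose g hg hg' using hex
  have hinj : Function.Injective g := by
    intro a b hab
    apply hψ
    apply (algebraMap k κ).injective
    rw [← hg', ← hg', hab]
  have hle : Fintype.card (ZMod p) ≤ (S 0).card := by
    rw [← Finset.card_univ]
    exact Finset.card_le_card_of_injOn g (fun j _ => hg j) fun a _ b _ h => hinj h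
  rw [ZMod.card] at hle
  exact absurd (hcardp 0) (not_lt.mpr hle)

end Main

end Setup

end Pool.Agent.Cayley
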