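import Pool.Agent.Cayley.DetPrime

/-!
# The Cayley degree of the special linear group
-/

set_option autoImplicit false

namespace Pool.Agent.Cayley.Stmt

variable (k : Type*) [Field k] (n : ℕ)

/-- The ideal `(det X - 1)` of `k[x_ij]` defining the algebraic group `SL_n`. -/
noncomputable def slIdeal : Ideal (MvPolynomial (Fin n × Fin n) k) :=
  Ideal.span {(Matrix.mvPolynomialX (Fin n) (Fin n) k).det - 1}

instance slIdeal_isPrime : (slIdeal k n).IsPrime := by
  rcases Nat.eq_zero_or_pos n with rfl | hn
  · have h : slIdeal k 0 = ⊥ := by
      rw [slIdeal, Matrix.det_isEmpty, sub_self, Ideal.span_singleton_zero]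
    rw [h]
    exact Ideal.isPrime_bot
  · have : Nonempty (Fin n) := ⟨⟨0, hn⟩⟩
    exact inferInstanceAs (Ideal.span {slPoly k (Fin n)}).IsPrime

/-- The coordinate ring `k[SL_n] = k[x_ij] / (det X - 1)`. -/
def CoordRing : Type _ := MvPolynomial (Fin n × Fin n) k ⧸ slIdeal k n

/-- The ring structure of `k[SL_n]`. -/
noncomputable def CoordRing.commRing : CommRing (CoordRing k n) :=
  Ideal.Quotient.commRing (slIdeal k n)

noncomputable instance : CommRing (CoordRing k n) := CoordRing.commRing k n

/-- The projection `k[x_ij] → k[SL_n]`. -/
noncomputable def proj : MvPolynomial (Fin n × Fin n) k →+* CoordRing k n :=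
  Ideal.Quotient.mk (slIdeal k n)

/-- The coordinate function `x_ij` on `SL_n`. -/
noncomputable def coord (i j : Fin n) : CoordRing k n :=
  proj k n (MvPolynomial.X (i, j))

/-- The function field `k(SL_n)`, the field of fractions of `k[SL_n]`. -/
def FunField : Type _ := FractionRing (CoordRing k n)

instance CoordRing.instIsDomain : IsDomain (CoordRing k n) :=
  inferInstanceAs (IsDomain (MvPolynomial (Fin n × Fin n) k ⧸ slIdeal k n))

/-- The field structure of `k(SL_n)`. -/
noncomputable def FunField.field : Field (FunField k n) :=
  FractionRing.field (CoordRing k n)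

noncomputable instance : Field (FunField k n) := FunField.field k n

/-- The inclusion `k[SL_n] → k(SL_n)`. -/
noncomputable def incl : CoordRing k n →+* FunField k n :=
  algebraMap (CoordRing k n) (FractionRing (CoordRing k n))

noncomputable instance : Algebra k (FunField k n) :=
  (((incl k n).comp (proj k n)).comp MvPolynomial.C).toAlgebra

/-- Matrices of rational functions on `SL_n`, that is, rational maps from `SL_n` to the space of
`n × n` matrices. -/
abbrev RatMat : Type _ := Matrix (Fin n) (Fin n) (FunField k n)

/-- The tautological matrix, that is, the inclusion of `SL_n` in the space of matrices. -/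
noncomputable def genX : RatMat k n :=
  Matrix.of fun i j => incl k n (coord k n i j)

variable {k n}

/-- An element of `SL_n(k)` as a constant matrix of rational functions. -/
noncomputable def constMat (h : Matrix.SpecialLinearGroup (Fin n) k) : RatMat k n :=
  (h : Matrix (Fin n) (Fin n) k).map (algebraMap k (FunField k n))

/-- The conjugate `h Z h⁻¹` of a matrix of rational functions by `h` in `SL_n(k)`. -/
noncomputable def conj (h : Matrix.SpecialLinearGroup (Fin n) k) (Z : RatMat k n) : RatMat k n :=
  constMat h * Z * constMat h⁻¹

/-- The rational map `Y` is equivariant: for every `h` in `SL_n(k)`, the endomorphism `φ` of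
`k(SL_n)` with `φ(X) = h X h⁻¹`, that is, the pull-back by conjugation with `h`, satisfies
`φ(Y) = h Y h⁻¹`. -/
def IsEquivariant (Y : RatMat k n) : Prop :=
  ∀ h : Matrix.SpecialLinearGroup (Fin n) k, ∃ φ : FunField k n →ₐ[k] FunField k n,
    (genX k n).map φ = conj h (genX k n) ∧ Y.map φ = conj h Y

/-- The value `P(Y)` of a polynomial in `n × n` variables at a matrix of rational functions. -/
noncomputable def evalAt (P : MvPolynomial (Fin n × Fin n) k) (Y : RatMat k n) : FunField k n :=
  MvPolynomial.aeval (fun ij : Fin n × Fin n => Y ij.1 ij.2) P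

/-- The rational map `Y` to the space of matrices has image in the space `𝔰𝔩_n` of matrices of
trace zero, and this image is Zariski dense in `𝔰𝔩_n`: a polynomial which vanishes at `Y`
vanishes at all matrices of trace zero. -/
def IsDominant (Y : RatMat k n) : Prop :=
  Y.trace = 0 ∧ ∀ P : MvPolynomial (Fin n × Fin n) k, evalAt P Y = 0 →
    ∀ A : Matrix (Fin n) (Fin n) k, A.trace = 0 →
      MvPolynomial.eval (fun ij : Fin n × Fin n => A ij.1 ij.2) P = 0

/-- The subfield `k(Y)` generated by the entries of `Y`, that is, the pull-back by `Y` of the
function field of the target. -/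
noncomputable def entryField (Y : RatMat k n) : IntermediateField k (FunField k n) :=
  IntermediateField.adjoin k (Set.range fun ij : Fin n × Fin n => Y ij.1 ij.2)

/-- The degree `[k(SL_n) : k(Y)]` of the rational map `Y`. -/
noncomputable def mapDegree (Y : RatMat k n) : Cardinal :=
  Module.rank (entryField Y) (FunField k n)

variable (k n) in
/-- The Cayley degree of `SL_n`: the smallest degree of a dominant equivariant rational map from
`SL_n` to its Lie algebra `𝔰𝔩_n`. -/
noncomputable def cayleyDegree : Cardinal :=
  sInf {c | ∃ Y : RatMat k n, IsEquivariant Y ∧ IsDominant Y ∧ mapDegree Y = c}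

end Pool.Agent.Cayley.Stmt
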