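import Mathlib

/-!
# The coordinate ring of the special linear group is a domain
-/

set_option autoImplicit false
set_option linter.unusedSectionVars false

namespace Pool.Agent.Cayley

section

variable (k : Type*) [Field k] (I : Type*) [Fintype I] [DecidableEq I]

/-- The equation of the special linear group. -/
noncomputable def slPoly : MvPolynomial (I × I) k := (Matrix.mvPolynomialX I I k).det - 1

variable {k I}

lemma aeval_slPoly {R : Type*} [CommRing R] [Algebra k R] (g : Matrix I I R) :
    MvPolynomial.aeval (fun ij : I × I => g ij.1 ij.2) (slPoly k I) = g.det - 1 := by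
  rw [slPoly, map_sub, map_one, AlgHom.map_det, Matrix.mvPolynomialX_mapMatrix_aeval]

/-- Scaling the row `i₀` by a variable. -/
noncomputable def rowScale (i₀ : I) :
    MvPolynomial (I × I) k →ₐ[k] Polynomial (MvPolynomial (I × I) k) :=
  MvPolynomial.aeval fun ij : I × I =>
    if ij.1 = i₀ then Polynomial.X * Polynomial.C (MvPolynomial.X ij)
    else Polynomial.C (MvPolynomial.X ij)

lemma eval_rowScale (i₀ : I) (P : MvPolynomial (I × I) k) :
    (rowScale i₀ P).eval 1 = P := by
  induction P using MvPolynomial.induction_on with
  | C a =>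
    rw [rowScale, MvPolynomial.aeval_C]
    change (Polynomial.C (algebraMap k (MvPolynomial (I × I) k) a)).eval 1 = _
    rw [Polynomial.eval_C]
    rfl
  | add p q hp hq => rw [map_add, Polynomial.eval_add, hp, hq]
  | mul_X p i hp =>
    rw [map_mul, Polynomial.eval_mul, hp, rowScale, MvPolynomial.aeval_X]
    split_ifs
    · rw [Polynomial.eval_mul, Polynomial.eval_X, Polynomial.eval_C, one_mul]
    · rw [Polynomial.eval_C]

lemma rowScale_slPoly (i₀ : I) : rowScale i₀ (slPoly k I)
    = Polynomial.X * Polynomial.C (Matrix.mvPolynomialX I I k).det - 1 := by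
  rw [rowScale, slPoly, map_sub, map_one, AlgHom.map_det]
  congr 1
  have h1 : (MvPolynomial.aeval (R := k) fun ij : I × I =>
      if ij.1 = i₀ then (Polynomial.X * Polynomial.C (MvPolynomial.X ij) :
        Polynomial (MvPolynomial (I × I) k))
      else Polynomial.C (MvPolynomial.X ij)).mapMatrix (Matrix.mvPolynomialX I I k)
      = Matrix.updateRow ((Matrix.mvPolynomialX I I k).map Polynomial.C) i₀
        ((Polynomial.X : Polynomial (MvPolynomial (I × I) k)) •
          ((Matrix.mvPolynomialX I I k).map Polynomial.C) i₀) := by
    ext1 i j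
    rw [AlgHom.mapMatrix_apply, Matrix.map_apply, Matrix.mvPolynomialX_apply,
      MvPolynomial.aeval_X, Matrix.updateRow_apply]
    split_ifs with h
    · subst h
      rfl
    · rfl
  rw [h1, Matrix.det_updateRow_smul, Matrix.updateRow_eq_self]
  congr 1
  have := RingHom.map_det (Polynomial.C : MvPolynomial (I × I) k →+* _)
    (Matrix.mvPolynomialX I I k)
  rw [this]
  rfl

lemma slPoly_ne_zero_eval : MvPolynomial.aeval (fun ij : I × I => (1 : Matrix I I k) ij.1 ij.2)
    (slPoly k I) = 0 := by
  rw [aeval_slPoly, Matrix.det_one, sub_self]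

theorem slPoly_irreducible [Nonempty I] : Irreducible (slPoly k I) := by
  obtain ⟨i₀⟩ := ‹Nonempty I›
  constructor
  · intro h
    have h1 := h.map (MvPolynomial.aeval (fun ij : I × I => (1 : Matrix I I k) ij.1 ij.2))
    rw [slPoly_ne_zero_eval] at h1
    exact not_isUnit_zero h1
  · intro P Q hPQ
    have hdet := Matrix.det_mvPolynomialX_ne_zero I k
    have h1 : rowScale i₀ P * rowScale i₀ Q
        = Polynomial.X * Polynomial.C (Matrix.mvPolynomialX I I k).det - 1 := by
      rw [← map_mul, ← hPQ, rowScale_slPoly]
    have hdeg : (Polynomial.X * Polynomial.C (Matrix.mvPolynomialX I I k).det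
        - 1 : Polynomial (MvPolynomial (I × I) k)).natDegree = 1 := by
      rw [← Polynomial.C_1, Polynomial.natDegree_sub_C, Polynomial.natDegree_mul_C hdet,
        Polynomial.natDegree_X]
    have hne : (Polynomial.X * Polynomial.C (Matrix.mvPolynomialX I I k).det
        - 1 : Polynomial (MvPolynomial (I × I) k)) ≠ 0 := by
      intro h0
      rw [h0, Polynomial.natDegree_zero] at hdeg
      exact zero_ne_one hdeg
    rw [← h1] at hne hdeg
    have hP := left_ne_zero_of_mul hne
    have hQ := right_ne_zero_of_mul hne
    rw [Polynomial.natDegree_mul hP hQ] at hdeg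
    -- a factor of degree zero is a unit
    have key : ∀ A B : MvPolynomial (I × I) k, rowScale i₀ A * rowScale i₀ B
        = Polynomial.X * Polynomial.C (Matrix.mvPolynomialX I I k).det - 1 →
        (rowScale i₀ B).natDegree = 0 → IsUnit B := by
      intro A B hAB hB
      have h2 : rowScale i₀ B = Polynomial.C B := by
        have h3 := Polynomial.eq_C_of_natDegree_eq_zero hB
        have h4 := eval_rowScale i₀ B
        rw [h3, Polynomial.eval_C] at h4
        rw [h3, h4]
      have h5 := congrArg (fun R => Polynomial.coeff R 0) hAB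
      rw [h2, Polynomial.coeff_mul_C, Polynomial.coeff_sub, Polynomial.coeff_X_mul_zero,
        Polynomial.coeff_one_zero, zero_sub] at h5
      exact IsUnit.of_mul_eq_one (-(rowScale i₀ A).coeff 0) (by linear_combination -h5)
    rcases Nat.eq_zero_or_pos (rowScale i₀ Q).natDegree with h | h
    · exact Or.inr (key P Q h1 h)
    · exact Or.inl (key Q P (by rw [mul_comm]; exact h1) (by omega))

theorem slPoly_prime [Nonempty I] : Prime (slPoly k I) := slPoly_irreducible.prime

instance [Nonempty I] : (Ideal.span {slPoly k I}).IsPrime :=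
  (Ideal.span_singleton_prime slPoly_prime.ne_zero).mpr slPoly_prime

/-- Polynomials vanishing on the rational points of the special linear group. -/
theorem slPoly_dvd_of_vanish [IsAlgClosed k] [Nonempty I] (P : MvPolynomial (I × I) k)
    (h : ∀ g : Matrix I I k, g.det = 1 →
      MvPolynomial.aeval (fun ij : I × I => g ij.1 ij.2) P = 0) : slPoly k I ∣ P := by
  rw [← Ideal.mem_span_singleton]
  have h1 := MvPolynomial.vanishingIdeal_zeroLocus_eq_radical (K := k)
    (Ideal.span {slPoly k I})
  have hp : (Ideal.span {slPoly k I}).IsPrime := inferInstance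
  rw [hp.radical] at h1
  rw [← h1, MvPolynomial.mem_vanishingIdeal_iff]
  intro x hx
  have h2 := hx _ (Ideal.mem_span_singleton_self (slPoly k I))
  have h3 := aeval_slPoly (k := k) (Matrix.of fun i j => x (i, j))
  have h4 := h (Matrix.of fun i j => x (i, j))
  simp only [Matrix.of_apply] at h3 h4
  rw [h2] at h3
  exact h4 (by linear_combination -h3)

end

end Pool.Agent.Cayley
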