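import Pool.Agent.Cayley.DetPrime

/-!
# Density of the diagonalisable matrices in the special linear group
-/

set_option autoImplicit false
set_option linter.unusedSectionVars false

namespace Pool.Agent.Cayley

section

variable {k : Type*} [Field k] [IsAlgClosed k] {I : Type*} [Fintype I] [DecidableEq I]

/-- A matrix with separable characteristic polynomial is diagonalisable. -/
lemma exists_diag (g : Matrix I I k) (hg : g.charpoly.Separable) :
    ∃ (u : Matrix I I k) (a : I → k), IsUnit u.det ∧ g = u * Matrix.diagonal a * u⁻¹ := by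
  classical
  have hroots : g.charpoly.roots.toFinset.card = Fintype.card I := by
    rw [Multiset.toFinset_card_of_nodup (Polynomial.nodup_roots hg),
      IsAlgClosed.card_roots_eq_natDegree, Matrix.charpoly_natDegree_eq_dim]
  have e : I ≃ g.charpoly.roots.toFinset :=
    Fintype.equivOfCardEq (by rw [Fintype.card_coe, hroots])
  set a : I → k := fun i => (e i : k) with ha
  have hainj : Function.Injective a := fun i j h => e.injective (Subtype.ext h)
  have hroot : ∀ i, ∃ v : I → k, v ≠ 0 ∧ g.mulVec v = a i • v := by
    intro i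
    have h1 : a i ∈ g.charpoly.roots := Multiset.mem_toFinset.mp (e i).2
    have h2 : g.charpoly.eval (a i) = 0 := (Polynomial.mem_roots'.mp h1).2
    rw [Matrix.eval_charpoly] at h2
    obtain ⟨v, hv0, hv⟩ := Matrix.exists_mulVec_eq_zero_iff.mpr h2
    refine ⟨v, hv0, ?_⟩
    rw [Matrix.sub_mulVec, sub_eq_zero, Matrix.scalar_apply] at hv
    rw [← hv]
    ext j
    rw [Matrix.mulVec_diagonal]
    rfl
  choose v hv0 hv using hroot
  have hlin : LinearIndependent k v := by
    refine Module.End.eigenvectors_linearIndependent' (Matrix.toLin' g) a hainj v fun i => ?_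
    rw [Module.End.hasEigenvector_iff, Module.End.mem_eigenspace_iff, Matrix.toLin'_apply]
    exact ⟨hv i, hv0 i⟩
  set u : Matrix I I k := Matrix.of fun i j => v j i with hu
  have hcol : u.col = v := rfl
  have hunit : IsUnit u := Matrix.linearIndependent_cols_iff_isUnit.mp (by rw [hcol]; exact hlin)
  have hdet : IsUnit u.det := (Matrix.isUnit_iff_isUnit_det u).mp hunit
  refine ⟨u, a, hdet, ?_⟩
  have h1 : g * u = u * Matrix.diagonal a := by
    ext i j
    rw [Matrix.mul_diagonal]
    have h2 := congrFun (hv j) i
    rw [Pi.smul_apply, smul_eq_mul] at h2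
    rw [hu, Matrix.of_apply, mul_comm, ← h2]
    rfl
  rw [← h1, Matrix.mul_assoc, Matrix.mul_nonsing_inv _ hdet, Matrix.mul_one]

/-- There is a family of distinct numbers with product one. -/
lemma exists_distinct [CharZero k] [Nonempty I] :
    ∃ a : I → k, Function.Injective a ∧ ∏ i, a i = 1 := by
  classical
  set b : I → k := fun i => (((Fintype.equivFin I i : ℕ) + 1 : ℕ) : k) with hb
  have hbinj : Function.Injective b := by
    intro i j h
    have h1 : ((Fintype.equivFin I i : ℕ) + 1 : ℕ) = (Fintype.equivFin I j : ℕ) + 1 :=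
      Nat.cast_injective (R := k) h
    exact (Fintype.equivFin I).injective (Fin.ext (by omega))
  have hb0 : ∀ i, b i ≠ 0 := fun i => Nat.cast_ne_zero.mpr (Nat.succ_ne_zero _)
  obtain ⟨c, hc⟩ := IsAlgClosed.exists_pow_nat_eq (∏ i, b i) (Fintype.card_pos (α := I))
  have hprod : ∏ i, b i ≠ 0 := Finset.prod_ne_zero_iff.mpr fun i _ => hb0 i
  have hc0 : c ≠ 0 := by
    rintro rfl
    rw [zero_pow (Fintype.card_pos (α := I)).ne'] at hc
    exact hprod hc.symm
  refine ⟨fun i => b i / c, ?_, ?_⟩
  · intro i j h
    exact hbinj ((div_left_inj' hc0).mp h)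
  · rw [Finset.prod_div_distrib, Finset.prod_const, Finset.card_univ, hc, div_self hprod]

variable (k I) in
/-- The resultant of the generic characteristic polynomial and its derivative. -/
noncomputable def discPoly : MvPolynomial (I × I) k :=
  Polynomial.resultant (Matrix.mvPolynomialX I I k).charpoly
    (Polynomial.derivative (Matrix.mvPolynomialX I I k).charpoly)
    (Fintype.card I) (Fintype.card I - 1)

lemma aeval_discPoly [CharZero k] [Nonempty I] (g : Matrix I I k) :
    MvPolynomial.aeval (fun ij : I × I => g ij.1 ij.2) (discPoly k I) ≠ 0 ↔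
      g.charpoly.Separable := by
  have h1 : g = (Matrix.mvPolynomialX I I k).map
      (MvPolynomial.aeval (R := k) (fun ij : I × I => g ij.1 ij.2)).toRingHom :=
    (Matrix.mvPolynomialX_mapMatrix_aeval k g).symm
  have h2 : g.charpoly = (Matrix.mvPolynomialX I I k).charpoly.map
      (MvPolynomial.aeval (R := k) (fun ij : I × I => g ij.1 ij.2)).toRingHom := by
    conv_lhs => rw [h1]
    rw [Matrix.charpoly_map]
  have h3 : MvPolynomial.aeval (fun ij : I × I => g ij.1 ij.2) (discPoly k I)
      = Polynomial.resultant g.charpoly (Polynomial.derivative g.charpoly)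
        (Fintype.card I) (Fintype.card I - 1) := by
    rw [h2, Polynomial.derivative_map, Polynomial.resultant_map_map]
    rfl
  have hd : g.charpoly.natDegree = Fintype.card I := Matrix.charpoly_natDegree_eq_dim g
  have hd' : (Polynomial.derivative g.charpoly).natDegree = Fintype.card I - 1 := by
    rw [Polynomial.natDegree_derivative, hd]
  rw [h3, ← hd', ← hd, Ne, Polynomial.resultant_eq_zero_iff]
  rw [Polynomial.Separable, not_and_not_right]
  constructor
  · intro h
    exact h (Or.inl (Matrix.charpoly_monic g).ne_zero)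
  · intro h _
    exact h

/-- Polynomials vanishing on the diagonalisable rational points of the special linear group. -/
theorem slPoly_dvd_of_diag [CharZero k] [Nonempty I] (P : MvPolynomial (I × I) k)
    (h : ∀ (u : Matrix I I k) (a : I → k), IsUnit u.det → ∏ i, a i = 1 →
      MvPolynomial.aeval (fun ij : I × I => (u * Matrix.diagonal a * u⁻¹) ij.1 ij.2) P = 0) :
    slPoly k I ∣ P := by
  have h1 : slPoly k I ∣ P * discPoly k I := by
    apply slPoly_dvd_of_vanish
    intro g hg
    rw [map_mul]
    by_cases hd : MvPolynomial.aeval (fun ij : I × I => g ij.1 ij.2) (discPoly k I) = 0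
    · rw [hd, mul_zero]
    · obtain ⟨u, a, hu, rfl⟩ := exists_diag g ((aeval_discPoly g).mp hd)
      rw [h u a hu, zero_mul]
      have hu' : u.det ≠ 0 := hu.ne_zero
      rw [Matrix.det_mul, Matrix.det_mul, Matrix.det_nonsing_inv, Ring.inverse_eq_inv',
        Matrix.det_diagonal, mul_comm u.det, mul_assoc, mul_inv_cancel₀ hu', mul_one] at hg
      exact hg
  rcases slPoly_prime.dvd_or_dvd h1 with h2 | h2
  · exact h2
  · exfalso
    obtain ⟨a, ha, hprod⟩ := exists_distinct (k := k) (I := I)
    have h3 : MvPolynomial.aeval (fun ij : I × I => (Matrix.diagonal a) ij.1 ij.2)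
        (discPoly k I) ≠ 0 := by
      rw [aeval_discPoly, Matrix.charpoly_diagonal, Polynomial.separable_prod_X_sub_C_iff]
      exact ha
    obtain ⟨R, hR⟩ := h2
    rw [hR, map_mul, aeval_slPoly, Matrix.det_diagonal, hprod, sub_self, zero_mul] at h3
    exact h3 rfl

end

end Pool.Agent.Cayley
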