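import Pool.Agent.Cayley.Model

/-!
# The generic diagonalised matrix
-/

set_option autoImplicit false
set_option linter.unusedSectionVars false

namespace Pool.Agent.Cayley

section

variable {k : Type*} [Field k] {p : ℕ} [Fact p.Prime] (ψ : AddChar (ZMod p) k)

/-- The matrix of eigenvectors. -/
noncomputable def vv : Matrix (Ix p) (Ix p) (MF k p) :=
  VV k p * (fourier p ψ).map (algebraMap k (MF k p))

/-- The generic diagonalised matrix. -/
noncomputable def XX : Matrix (Ix p) (Ix p) (MF k p) :=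
  vv ψ * Matrix.diagonal (xx k) * (vv ψ)⁻¹

lemma VV_det : (VV k p).det ≠ 0 := by
  have h1 : VV k p = ((algebraMap (MvPolynomial (Var p) k) (MF k p)).comp
      (MvPolynomial.rename (R := k) (Sum.inl : Ix p × Ix p → Var p)).toRingHom).mapMatrix
        (Matrix.mvPolynomialX (Ix p) (Ix p) k) := by
    ext1 i j
    rw [RingHom.mapMatrix_apply, Matrix.map_apply, Matrix.mvPolynomialX_apply]
    change gen k (Sum.inl (i, j)) = algebraMap (MvPolynomial (Var p) k) (MF k p)
      (MvPolynomial.rename Sum.inl (MvPolynomial.X (i, j) : MvPolynomial (Ix p × Ix p) k))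
    rw [MvPolynomial.rename_X]
    rfl
  rw [h1, ← RingHom.map_det]
  intro h2
  have h3 : Function.Injective ((algebraMap (MvPolynomial (Var p) k) (MF k p)).comp
      (MvPolynomial.rename (R := k) (Sum.inl : Ix p × Ix p → Var p)).toRingHom) := by
    rw [RingHom.coe_comp]
    exact (IsFractionRing.injective (MvPolynomial (Var p) k) (MF k p)).comp
      (MvPolynomial.rename_injective _ Sum.inl_injective)
  exact Matrix.det_mvPolynomialX_ne_zero (Ix p) k (h3 (by rw [h2, map_zero]))

variable (hψ : Function.Injective ψ) [CharZero k]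
include hψ

lemma vv_det : IsUnit (vv ψ).det := by
  rw [vv, Matrix.det_mul]
  refine IsUnit.mul (isUnit_iff_ne_zero.mpr VV_det) ?_
  have h1 := (fourier_det ψ hψ).map (algebraMap k (MF k p))
  rw [RingHom.map_det] at h1
  exact h1

lemma XX_mul_vv : XX ψ * vv ψ = vv ψ * Matrix.diagonal (xx k) := by
  rw [XX, Matrix.mul_assoc, Matrix.nonsing_inv_mul _ (vv_det ψ hψ), Matrix.mul_one]

lemma XX_det : (XX ψ).det = 1 := by
  rw [XX, Matrix.det_conj_of_mul_eq_one (Matrix.mul_nonsing_inv _ (vv_det ψ hψ))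
    (Matrix.nonsing_inv_mul _ (vv_det ψ hψ)), Matrix.det_diagonal, prod_xx]

/-- The point of the parameter space attached to a diagonalised matrix. -/
lemma exists_point (u : Matrix (Ix p) (Ix p) k) (hu : IsUnit u.det) (a : Ix p → k)
    (ha : ∏ i, a i = 1) :
    ∃ c : Var p → k, (∀ g, Sp k (gen k) c (xx k g) (a g)) ∧ SpM k (gen k) c (vv ψ) u ∧
      SpM k (gen k) c (XX ψ) (u * Matrix.diagonal a * u⁻¹) := by
  set V₀ := u * (fourier p ψ)⁻¹ with hV₀
  set c : Var p → k := Sum.elim (fun ic => V₀ ic.1 ic.2) (fun g => a g.1) with hc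
  have hac : ∀ P : MvPolynomial (Var p) k, MvPolynomial.aeval (gen k) P = 0 →
      MvPolynomial.aeval c P = 0 := by
    intro P hP
    have h1 : P = 0 := by
      have := gen_algInd k (p := p)
      rw [AlgebraicIndependent, injective_iff_map_eq_zero] at this
      exact this P hP
    rw [h1, map_zero]
  have ha0 : ∀ g, a g ≠ 0 := by
    intro g h
    rw [Finset.prod_eq_zero (Finset.mem_univ g) h] at ha
    exact zero_ne_one ha
  have hx : ∀ g, Sp k (gen k) c (xx k g) (a g) := by
    intro g
    have h1 : a g = xOf c g := (xOf_eq c a ha (fun g => rfl) g).symm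
    by_cases hg : g = 0
    · subst hg
      rw [h1, xx, xOf_zero, xOf_zero]
      refine (Sp.prod _ fun g' _ => Sp.gen _).inv hac ?_
      exact Finset.prod_ne_zero_iff.mpr fun g' _ => ha0 g'.1
    · rw [h1, xx, xOf_of_ne _ hg, xOf_of_ne _ hg]
      exact Sp.gen _
  have hV : SpM k (gen k) c (VV k p) V₀ := fun i j => Sp.gen (Sum.inl (i, j))
  have hv : SpM k (gen k) c (vv ψ) u := by
    have h1 := hV.mul (SpM.map (a := gen k) (c := c) (fourier p ψ))
    have h2 : V₀ * (fourier p ψ).map (algebraMap k k) = u := by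
      have h3 : (fourier p ψ).map (algebraMap k k) = fourier p ψ := by
        ext i j; rfl
      rw [h3, hV₀, Matrix.mul_assoc, Matrix.nonsing_inv_mul _ (fourier_det ψ hψ), Matrix.mul_one]
    rw [h2] at h1
    exact h1
  exact ⟨c, hx, hv, (hv.mul (SpM.diagonal hx)).mul (hv.inv hac hu.ne_zero)⟩

lemma unique_point (c : Var p → k) {f : MF k p} {r r' : k} (h : Sp k (gen k) c f r)
    (h' : Sp k (gen k) c f r') : r = r' := by
  refine Sp.unique (fun P hP => ?_) h h'
  have h1 : P = 0 := by
    have := gen_algInd k (p := p)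
    rw [AlgebraicIndependent, injective_iff_map_eq_zero] at this
    exact this P hP
  rw [h1, map_zero]

/-- The generic diagonalised matrix is a generic point of the special linear group. -/
theorem XX_generic [IsAlgClosed k] (P : MvPolynomial (Ix p × Ix p) k) :
    MvPolynomial.aeval (fun ij : Ix p × Ix p => XX ψ ij.1 ij.2) P = 0 ↔
      slPoly k (Ix p) ∣ P := by
  constructor
  · intro h
    apply slPoly_dvd_of_diag
    intro u a hu ha
    obtain ⟨c, -, -, hX⟩ := exists_point ψ hψ u hu a ha
    have h1 := Sp.aeval_comp (fun ij : Ix p × Ix p => hX ij.1 ij.2) P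
    rw [h] at h1
    exact unique_point ψ hψ c h1 Sp.zero
  · rintro ⟨R, rfl⟩
    rw [map_mul, aeval_slPoly, XX_det ψ hψ, sub_self, zero_mul]

lemma xx_injective [IsAlgClosed k] : Function.Injective (xx k : Ix p → MF k p) := by
  intro g h hgh
  obtain ⟨a, ha, hprod⟩ := exists_distinct (k := k) (I := Ix p)
  obtain ⟨c, hx, -, -⟩ := exists_point ψ hψ 1 (by rw [Matrix.det_one]; exact isUnit_one) a hprod
  have h1 := hx g
  rw [hgh] at h1
  exact ha (unique_point ψ hψ c h1 (hx h))

omit hψ [CharZero k] in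
/-- The action translates the columns of the matrix of eigenvectors. -/
lemma act_vv (σ i g : Ix p) : act ψ σ (vv ψ i g) = vv ψ i (g + σ) := by
  rw [vv, Matrix.mul_apply, Matrix.mul_apply, map_sum]
  refine Finset.sum_congr rfl fun c _ => ?_
  rw [map_mul]
  have h1 : act ψ σ (VV k p i c) = pr ψ c σ • VV k p i c := act_V ψ σ i c
  rw [h1, Matrix.map_apply, Matrix.map_apply, AlgHom.commutes, fourier, Matrix.of_apply,
    Matrix.of_apply, pr_add_right, map_mul, Algebra.smul_def]
  ring

/-- If `Z v = v diag(z)` with `Z` fixed by the action, then the action translates `z`. -/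
lemma act_eigen (σ : Ix p) (Z : Matrix (Ix p) (Ix p) (MF k p)) (z : Ix p → MF k p)
    (hZ : Z * vv ψ = vv ψ * Matrix.diagonal z)
    (hZσ : ∀ i j, act ψ σ (Z i j) = Z i j) (g : Ix p) : act ψ σ (z g) = z (g + σ) := by
  -- compare columns
  have hcol : ∀ i g, ∑ j, Z i j * vv ψ j g = vv ψ i g * z g := by
    intro i g
    have := congrFun (congrFun hZ i) g
    rwa [Matrix.mul_apply, Matrix.mul_diagonal] at this
  have h1 : ∀ i, vv ψ i (g + σ) * act ψ σ (z g) = vv ψ i (g + σ) * z (g + σ) := by
    intro i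
    rw [← hcol i (g + σ), ← act_vv, ← map_mul, ← hcol i g, map_sum]
    refine Finset.sum_congr rfl fun j _ => ?_
    rw [map_mul, hZσ, act_vv]
  by_contra hne
  have h2 : ∀ i, vv ψ i (g + σ) = 0 := by
    intro i
    by_contra h0
    exact hne (mul_left_cancel₀ h0 (h1 i))
  exact (vv_det ψ hψ).ne_zero (Matrix.det_eq_zero_of_column_eq_zero (g + σ) h2)

/-- If `Z v = v diag(z)` and the action translates `z`, then `Z` is fixed by the action. -/
lemma act_fixed (σ : Ix p) (Z : Matrix (Ix p) (Ix p) (MF k p)) (z : Ix p → MF k p)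
    (hZ : Z * vv ψ = vv ψ * Matrix.diagonal z)
    (hz : ∀ g, act ψ σ (z g) = z (g + σ)) (i j : Ix p) : act ψ σ (Z i j) = Z i j := by
  set Zσ : Matrix (Ix p) (Ix p) (MF k p) := Matrix.of fun i j => act ψ σ (Z i j) with hZσ
  have h1 : Zσ * vv ψ = Z * vv ψ := by
    ext i g
    have h2 : ∀ g, (Z * vv ψ) i g = vv ψ i g * z g := by
      intro g
      rw [hZ, Matrix.mul_diagonal]
    have h3 := h2 (g - σ)
    rw [Matrix.mul_apply] at h3
    have h4 := congrArg (act ψ σ) h3
    rw [map_sum, map_mul, act_vv, hz, sub_add_cancel] at h4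
    rw [h2, ← h4, Matrix.mul_apply]
    refine Finset.sum_congr rfl fun j _ => ?_
    rw [map_mul, act_vv, sub_add_cancel]
    rfl
  have h5 : Zσ = Z := by
    have h6 := congrArg (fun N => N * (vv ψ)⁻¹) h1
    simp only [Matrix.mul_assoc, Matrix.mul_nonsing_inv _ (vv_det ψ hψ), Matrix.mul_one] at h6
    exact h6
  exact congrFun (congrFun h5 i) j

lemma act_XX (σ i j : Ix p) : act ψ σ (XX ψ i j) = XX ψ i j :=
  act_fixed ψ hψ σ (XX ψ) (xx k) (XX_mul_vv ψ hψ) (act_xx ψ σ) i j

end

end Pool.Agent.Cayley
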