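import Pool.Agent.Cayley.Core
import Pool.Agent.Cayley.Generic

/-!
# The tame embeddings
-/

set_option autoImplicit false
set_option linter.unusedSectionVars false

namespace Pool.Agent.Cayley

open HahnSeries hiding pow_add

attribute [-instance] HahnSeries.powerSeriesAlgebra

section Mon

variable {k K : Type*} [Field k] [Field K] [Algebra k K]

/-- Finite sums of monomials as Hahn series. -/
noncomputable def finH (K : Type*) [Field K] : AddMonoidAlgebra K ℝ →ₐ[K] HahnSeries ℝ K :=
  AddMonoidAlgebra.lift K (HahnSeries ℝ K) ℝ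
    { toFun := fun g => single (Multiplicative.toAdd g) (1 : K)
      map_one' := rfl
      map_mul' := fun a b => by
        rw [single_mul_single, one_mul]; rfl }

lemma finH_single (g : ℝ) (a : K) : finH K (AddMonoidAlgebra.single g a) = single g a := by
  rw [finH, AddMonoidAlgebra.lift_single]
  change a • single g (1 : K) = single g a
  ext b
  rw [coeff_smul, coeff_single, coeff_single, smul_eq_mul]
  split_ifs
  · rw [mul_one]
  · rw [mul_zero]

lemma coeff_finH (f : AddMonoidAlgebra K ℝ) (b : ℝ) : (finH K f).coeff b = f.coeff b := by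
  induction f using AddMonoidAlgebra.induction_linear with
  | zero => rw [map_zero, coeff_zero]; rfl
  | add f g hf hg => rw [map_add, coeff_add, hf, hg]; rfl
  | single g a =>
    rw [finH_single, coeff_single, AddMonoidAlgebra.coeff_single, Finsupp.single_apply]
    by_cases h : g = b
    · rw [if_pos h, if_pos h.symm]
    · rw [if_neg h, if_neg (Ne.symm h)]

lemma finH_injective : Function.Injective (finH K) := by
  rw [injective_iff_map_eq_zero]
  intro f hf
  apply AddMonoidAlgebra.coeff_injective
  ext b
  rw [← coeff_finH, hf]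
  rfl

/-- Monomials with algebraically independent coefficients are algebraically independent. -/
lemma mon_algInd {B : Type*} (e : B → ℝ) (c : B → K) (hc : AlgebraicIndependent k c) :
    AlgebraicIndependent k fun i => (single (e i) (c i) : HahnSeries ℝ K) := by
  rw [AlgebraicIndependent, injective_iff_map_eq_zero] at hc ⊢
  intro P hP
  apply hc
  have _ : IsScalarTower k K (HahnSeries ℝ K) := IsScalarTower.of_algebraMap_eq fun r => rfl
  set y : B → AddMonoidAlgebra K ℝ := fun i => AddMonoidAlgebra.single (e i) (c i) with hy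
  have h1 := MvPolynomial.comp_aeval_apply y ((finH K).restrictScalars k) P
  have h2 : (fun i => ((finH K).restrictScalars k) (y i)) = fun i => single (e i) (c i) := by
    funext i
    exact finH_single (e i) (c i)
  rw [h2, hP] at h1
  have h3 : MvPolynomial.aeval y P = 0 := finH_injective (by rw [map_zero]; exact h1)
  set aug : AddMonoidAlgebra K ℝ →ₐ[K] K := AddMonoidAlgebra.lift K K ℝ 1 with haug
  have h4 := MvPolynomial.comp_aeval_apply y (aug.restrictScalars k) P
  have h5 : (fun i => (aug.restrictScalars k) (y i)) = c := by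
    funext i
    change aug (AddMonoidAlgebra.single (e i) (c i)) = c i
    rw [haug, AddMonoidAlgebra.lift_single]
    change c i • (1 : K) = c i
    rw [smul_eq_mul, mul_one]
  rw [h5, h3, map_zero] at h4
  exact h4.symm

end Mon

section Expo

variable {k : Type*} [Field k] {p : ℕ} [Fact p.Prime]

/-- The exponent attached to a character. -/
noncomputable def expo (c : Ix p) : ℝ := (c.1.val : ℝ) + (c.2.val : ℝ) * √2

lemma expo_zero : expo (0 : Ix p) = 0 := by
  rw [expo, Prod.fst_zero, Prod.snd_zero, ZMod.val_zero, Nat.cast_zero, zero_mul, add_zero]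

lemma expo_pos {c : Ix p} (hc : c ≠ 0) : 0 < expo c := by
  have h2 : (0 : ℝ) < √2 := by positivity
  rw [expo]
  by_cases h1 : c.1 = 0
  · have h3 : c.2 ≠ 0 := fun h3 => hc (Prod.ext h1 h3)
    have h4 : 0 < c.2.val := Nat.pos_of_ne_zero fun h => h3 ((ZMod.val_eq_zero c.2).mp h)
    have h5 : (0 : ℝ) < (c.2.val : ℝ) := by exact_mod_cast h4
    positivity
  · have h4 : 0 < c.1.val := Nat.pos_of_ne_zero fun h => h1 ((ZMod.val_eq_zero c.1).mp h)
    have h5 : (0 : ℝ) < (c.1.val : ℝ) := by exact_mod_cast h4
    positivity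

lemma adm_expo {ψ : AddChar (ZMod p) k} {ε : AddChar ℝ k} {σ : ZMod p × ZMod p}
    (hε : Adm ψ ε σ) (c : Ix p) : ε (expo c) = pr ψ c σ := by
  have h1 : (c.1.val : ℝ) = c.1.val • (1 : ℝ) := by rw [nsmul_eq_mul, mul_one]
  have h2 : (c.2.val : ℝ) * √2 = c.2.val • √2 := by rw [nsmul_eq_mul]
  rw [expo, AddChar.map_add_eq_mul, h1, h2, AddChar.map_nsmul_eq_pow, AddChar.map_nsmul_eq_pow,
    hε.one, hε.sqrt, ← AddChar.map_nsmul_eq_pow, ← AddChar.map_nsmul_eq_pow,
    ← AddChar.map_add_eq_mul, pr, nsmul_eq_mul, nsmul_eq_mul, ZMod.natCast_zmod_val,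
    ZMod.natCast_zmod_val]

end Expo

end Pool.Agent.Cayley
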