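import Pool.Agent.Cayley.Defs
import Pool.Agent.Cayley.Assemble

/-!
# Unboundedness of the Cayley degrees of the special linear groups
-/

set_option autoImplicit false
set_option linter.unusedSectionVars false

namespace Pool.Agent.Cayley.Stmt

open Pool.Agent.Cayley

section GenX

variable {k : Type*} [Field k] {n : ℕ}

lemma proj_surjective : Function.Surjective (proj k n) := Ideal.Quotient.mk_surjective

lemma proj_eq_zero {P : MvPolynomial (Fin n × Fin n) k} :
    proj k n P = 0 ↔ slPoly k (Fin n) ∣ P := by
  have h : proj k n P = 0 ↔ P ∈ slIdeal k n := Ideal.Quotient.eq_zero_iff_mem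
  rw [h]
  exact Ideal.mem_span_singleton

lemma incl_injective : Function.Injective (incl k n) :=
  IsFractionRing.injective (CoordRing k n) (FractionRing (CoordRing k n))

lemma incl_div_surjective (z : FunField k n) :
    ∃ a b : CoordRing k n, incl k n a / incl k n b = z := by
  obtain ⟨a, b, -, hab⟩ :=
    IsFractionRing.div_surjective (A := CoordRing k n) (K := FractionRing (CoordRing k n)) z
  exact ⟨a, b, hab⟩

lemma aeval_genX (P : MvPolynomial (Fin n × Fin n) k) :
    MvPolynomial.aeval (fun ij : Fin n × Fin n => genX k n ij.1 ij.2) P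
      = incl k n (proj k n P) := by
  induction P using MvPolynomial.induction_on with
  | C a =>
    rw [MvPolynomial.aeval_C]
    rfl
  | add p q hp hq => rw [map_add, map_add, map_add, hp, hq]
  | mul_X p i hp =>
    rw [map_mul, map_mul, map_mul, hp, MvPolynomial.aeval_X]
    rfl

lemma dvd_of_aeval_genX {P : MvPolynomial (Fin n × Fin n) k}
    (h : MvPolynomial.aeval (fun ij : Fin n × Fin n => genX k n ij.1 ij.2) P = 0) :
    slPoly k (Fin n) ∣ P := by
  rw [aeval_genX] at h
  have h1 : proj k n P = 0 := incl_injective (by rw [h, map_zero])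
  exact proj_eq_zero.mp h1

lemma genX_det : (genX k n).det = 1 := by
  have h1 := aeval_slPoly (k := k) (genX k n)
  rw [aeval_genX] at h1
  have h2 : proj k n (slPoly k (Fin n)) = 0 := proj_eq_zero.mpr dvd_rfl
  rw [h2, map_zero] at h1
  linear_combination -h1

lemma genX_top : IntermediateField.adjoin k
    (Set.range fun ij : Fin n × Fin n => genX k n ij.1 ij.2) = ⊤ := by
  rw [eq_top_iff]
  intro z _
  rw [IntermediateField.mem_adjoin_range_iff]
  obtain ⟨a, b, hab⟩ := incl_div_surjective z
  obtain ⟨a, rfl⟩ := proj_surjective a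
  obtain ⟨b, rfl⟩ := proj_surjective b
  exact ⟨a, b, by rw [aeval_genX, aeval_genX, hab]⟩

lemma aeval_eq_zero_iff {P : MvPolynomial (Fin n × Fin n) k} :
    MvPolynomial.aeval (fun ij : Fin n × Fin n => genX k n ij.1 ij.2) P = 0 ↔
      slPoly k (Fin n) ∣ P := by
  refine ⟨dvd_of_aeval_genX, ?_⟩
  rintro ⟨R, rfl⟩
  rw [map_mul, aeval_slPoly, genX_det, sub_self, zero_mul]

end GenX

section Transfer

variable {k : Type*} [Field k] [IsAlgClosed k] [CharZero k] {p : ℕ} [Fact p.Prime]

lemma rename_slPoly {I J : Type*} [Fintype I] [DecidableEq I] [Fintype J] [DecidableEq J]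
    (e : I ≃ J) : MvPolynomial.rename (Prod.map e e) (slPoly k I) = slPoly k J := by
  have h1 := aeval_slPoly (k := k) (I := I)
    (Matrix.of fun i j => (MvPolynomial.X (e i, e j) : MvPolynomial (J × J) k))
  have h2 : MvPolynomial.rename (R := k) (Prod.map e e : I × I → J × J)
      = MvPolynomial.aeval fun ij : I × I =>
        (Matrix.of fun i j => (MvPolynomial.X (e i, e j) : MvPolynomial (J × J) k)) ij.1 ij.2 := by
    apply MvPolynomial.algHom_ext
    intro ij
    rw [MvPolynomial.rename_X, MvPolynomial.aeval_X]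
    rfl
  rw [h2, h1, slPoly]
  congr 1
  have h3 : (Matrix.of fun i j => (MvPolynomial.X (e i, e j) : MvPolynomial (J × J) k))
      = (Matrix.mvPolynomialX J J k).submatrix e e := rfl
  rw [h3, Matrix.det_submatrix_equiv_self]

/-- The degree bound for equivariant maps. -/
theorem rank_bound (Y : RatMat k (p ^ 2)) (htr : Y.trace = 0) (hY : IsEquivariant Y) :
    (p : Cardinal) ≤ mapDegree Y := by
  have hcard : Fintype.card (Fin (p ^ 2)) = Fintype.card (Ix p) := by
    rw [Fintype.card_fin, card_Ix]
  let e : Fin (p ^ 2) ≃ Ix p := Fintype.equivOfCardEq hcard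
  set X' : Matrix (Ix p) (Ix p) (FunField k (p ^ 2)) :=
    (genX k (p ^ 2)).submatrix e.symm e.symm with hX'
  set Y' : Matrix (Ix p) (Ix p) (FunField k (p ^ 2)) := Y.submatrix e.symm e.symm with hY'
  have hrange : ∀ Z : RatMat k (p ^ 2), (Set.range fun ij : Ix p × Ix p =>
      (Z.submatrix e.symm e.symm) ij.1 ij.2) = Set.range fun ij : Fin (p ^ 2) × Fin (p ^ 2) =>
        Z ij.1 ij.2 := by
    intro Z
    ext z
    constructor
    · rintro ⟨ij, rfl⟩
      exact ⟨(e.symm ij.1, e.symm ij.2), rfl⟩
    · rintro ⟨ij, rfl⟩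
      refine ⟨(e ij.1, e ij.2), ?_⟩
      simp only [Matrix.submatrix_apply, Equiv.symm_apply_apply]
  have hmain := degree_bound (k := k) (p := p) X'
    (by rw [hX', Matrix.det_submatrix_equiv_self, genX_det])
    (by
      intro P hP
      have h1 : MvPolynomial.aeval (fun ij : Fin (p ^ 2) × Fin (p ^ 2) => genX k (p ^ 2) ij.1 ij.2)
          (MvPolynomial.rename (Prod.map e.symm e.symm) P) = 0 := by
        rw [MvPolynomial.aeval_rename]
        exact hP
      have h2 := dvd_of_aeval_genX h1
      have h3 := map_dvd (MvPolynomial.rename (R := k) (Prod.map e e)) h2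
      rw [rename_slPoly e, MvPolynomial.rename_rename] at h3
      have h4 : (Prod.map e e ∘ Prod.map e.symm e.symm : Ix p × Ix p → Ix p × Ix p) = id := by
        funext ij
        exact Prod.ext (e.apply_symm_apply _) (e.apply_symm_apply _)
      rw [h4, MvPolynomial.rename_id] at h3
      exact h3)
    (by rw [hX', hrange]; exact genX_top)
    Y'
    (by
      rw [hY', Matrix.trace]
      have h1 : ∑ i, (Y.submatrix e.symm e.symm).diag i = ∑ i, Y.diag i :=
        Equiv.sum_comp e.symm Y.diag
      rw [h1]
      exact htr)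
    (by
      intro g hg
      set h : Matrix.SpecialLinearGroup (Fin (p ^ 2)) k :=
        ⟨g.submatrix e e, by rw [Matrix.det_submatrix_equiv_self, hg]⟩ with hh
      obtain ⟨φ, hφX, hφY⟩ := hY h
      refine ⟨φ, ?_⟩
      have hgu : IsUnit (g.map (algebraMap k (FunField k (p ^ 2)))).det := by
        have h1 := RingHom.map_det (algebraMap k (FunField k (p ^ 2))) g
        rw [RingHom.mapMatrix_apply] at h1
        rw [← h1, hg, map_one]
        exact isUnit_one
      have hinv : (constMat h⁻¹).submatrix e.symm e.symm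
          = (g.map (algebraMap k (FunField k (p ^ 2))))⁻¹ := by
        change (((h⁻¹ : Matrix.SpecialLinearGroup (Fin (p ^ 2)) k) :
          Matrix (Fin (p ^ 2)) (Fin (p ^ 2)) k).map
          (algebraMap k (FunField k (p ^ 2)))).submatrix e.symm e.symm = _
        symm
        apply Matrix.inv_eq_right_inv
        have h1 : (h : Matrix (Fin (p ^ 2)) (Fin (p ^ 2)) k)
            * ((h⁻¹ : Matrix.SpecialLinearGroup (Fin (p ^ 2)) k) :
              Matrix (Fin (p ^ 2)) (Fin (p ^ 2)) k) = 1 := by
          rw [← Matrix.SpecialLinearGroup.coe_mul, mul_inv_cancel,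
            Matrix.SpecialLinearGroup.coe_one]
        have h2 := congrArg (fun A => (A.map (algebraMap k (FunField k (p ^ 2)))).submatrix
          e.symm e.symm) h1
        simp only [Matrix.map_mul] at h2
        rw [← Matrix.submatrix_mul_equiv _ _ _ e.symm _, Matrix.map_one _ (map_zero _) (map_one _),
          Matrix.submatrix_one_equiv] at h2
        have h3 : (((h : Matrix (Fin (p ^ 2)) (Fin (p ^ 2)) k).map
            (algebraMap k (FunField k (p ^ 2)))).submatrix e.symm e.symm)
            = g.map (algebraMap k (FunField k (p ^ 2))) := by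
          ext i j
          simp only [hh, Matrix.submatrix_apply, Matrix.map_apply, Equiv.apply_symm_apply]
        rw [h3] at h2
        exact h2
      have hconj : ∀ Z : RatMat k (p ^ 2), (conj h Z).submatrix e.symm e.symm
          = g.map (algebraMap k (FunField k (p ^ 2))) * Z.submatrix e.symm e.symm *
            (g.map (algebraMap k (FunField k (p ^ 2))))⁻¹ := by
        intro Z
        rw [conj, ← Matrix.submatrix_mul_equiv _ _ _ e.symm _,
          ← Matrix.submatrix_mul_equiv _ _ _ e.symm _, hinv]
        congr 2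
        ext i j
        simp only [hh, constMat, Matrix.submatrix_apply, Matrix.map_apply,
          Equiv.apply_symm_apply]
      constructor
      · rw [← hconj, ← hφX]
        rfl
      · rw [← hconj, ← hφY]
        rfl)
  rw [hY', hrange] at hmain
  exact hmain

end Transfer

section Exists

variable {k : Type*} [Field k] [IsAlgClosed k] [CharZero k] {n : ℕ}

/-- The pull-back by conjugation. -/
lemma exists_pullback (h : Matrix.SpecialLinearGroup (Fin n) k) [Nonempty (Fin n)] :
    ∃ φ : FunField k n →ₐ[k] FunField k n, (genX k n).map φ = conj h (genX k n) := by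
  have hvan : ∀ (h : Matrix.SpecialLinearGroup (Fin n) k) (P : MvPolynomial (Fin n × Fin n) k),
      slPoly k (Fin n) ∣ P →
      MvPolynomial.aeval (fun ij : Fin n × Fin n => conj h (genX k n) ij.1 ij.2) P = 0 := by
    rintro h P ⟨R, rfl⟩
    rw [map_mul, aeval_slPoly]
    have h1 : (conj h (genX k n)).det = 1 := by
      have h2 : ∀ g : Matrix.SpecialLinearGroup (Fin n) k, (constMat g).det = 1 := by
        intro g
        have h3 := RingHom.map_det (algebraMap k (FunField k n)) (g : Matrix (Fin n) (Fin n) k)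
        rw [RingHom.mapMatrix_apply] at h3
        rw [constMat, ← h3, Matrix.SpecialLinearGroup.det_coe, map_one]
      rw [conj, Matrix.det_mul, Matrix.det_mul, h2, h2, genX_det, mul_one, mul_one]
    rw [h1, sub_self, zero_mul]
  -- polynomial version of the conjugation
  set cP : Matrix (Fin n) (Fin n) (MvPolynomial (Fin n × Fin n) k) :=
    (h : Matrix (Fin n) (Fin n) k).map MvPolynomial.C * Matrix.mvPolynomialX (Fin n) (Fin n) k *
      ((h⁻¹ : Matrix.SpecialLinearGroup (Fin n) k) : Matrix (Fin n) (Fin n) k).map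
        MvPolynomial.C with hcP
  have hcP1 : ∀ {R : Type _} [CommRing R] [Algebra k R] (Z : Matrix (Fin n) (Fin n) R),
      cP.map (MvPolynomial.aeval (R := k) fun ij : Fin n × Fin n => Z ij.1 ij.2)
      = (h : Matrix (Fin n) (Fin n) k).map (algebraMap k R) * Z *
        ((h⁻¹ : Matrix.SpecialLinearGroup (Fin n) k) : Matrix (Fin n) (Fin n) k).map
          (algebraMap k R) := by
    intro R _ _ Z
    rw [hcP, Matrix.map_mul, Matrix.map_mul]
    have h1 : (Matrix.mvPolynomialX (Fin n) (Fin n) k).map
        (MvPolynomial.aeval (R := k) fun ij : Fin n × Fin n => Z ij.1 ij.2) = Z :=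
      Matrix.mvPolynomialX_mapMatrix_aeval k Z
    rw [h1]
    congr 1
    · congr 1
      ext i j
      simp only [Matrix.map_apply, MvPolynomial.aeval_C]
    · ext i j
      simp only [Matrix.map_apply, MvPolynomial.aeval_C]
  obtain ⟨φ, hφ⟩ := exists_hom (M := FunField k n) (genX_top (k := k) (n := n))
    (b := fun ij : Fin n × Fin n => conj h (genX k n) ij.1 ij.2) (by
      intro P
      rw [aeval_eq_zero_iff]
      refine ⟨hvan h P, fun hP => ?_⟩
      apply slPoly_dvd_of_vanish
      intro g hg
      -- transport to the polynomial ring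
      have h1 : ∀ {R : Type _} [CommRing R] [Algebra k R] (Z : Matrix (Fin n) (Fin n) R),
          MvPolynomial.aeval (fun ij : Fin n × Fin n => Z ij.1 ij.2)
            (MvPolynomial.aeval (fun ij : Fin n × Fin n => cP ij.1 ij.2) P)
          = MvPolynomial.aeval (fun ij : Fin n × Fin n =>
            ((h : Matrix (Fin n) (Fin n) k).map (algebraMap k R) * Z *
            ((h⁻¹ : Matrix.SpecialLinearGroup (Fin n) k) : Matrix (Fin n) (Fin n) k).map
              (algebraMap k R)) ij.1 ij.2) P := by
        intro R _ _ Z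
        rw [MvPolynomial.comp_aeval_apply, ← hcP1 Z]
        rfl
      have h2 : slPoly k (Fin n) ∣
          MvPolynomial.aeval (fun ij : Fin n × Fin n => cP ij.1 ij.2) P := by
        rw [← aeval_eq_zero_iff, h1]
        exact hP
      obtain ⟨R, hR⟩ := h2
      set g' : Matrix (Fin n) (Fin n) k :=
        ((h⁻¹ : Matrix.SpecialLinearGroup (Fin n) k) : Matrix (Fin n) (Fin n) k) * g *
          (h : Matrix (Fin n) (Fin n) k) with hg'
      have hg'det : g'.det = 1 := by
        rw [hg', Matrix.det_mul, Matrix.det_mul, Matrix.SpecialLinearGroup.det_coe,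
          Matrix.SpecialLinearGroup.det_coe, hg, mul_one, mul_one]
      have h3 := h1 g'
      rw [hR, map_mul, aeval_slPoly, hg'det, sub_self, zero_mul] at h3
      have hh1 : (h : Matrix (Fin n) (Fin n) k)
          * ((h⁻¹ : Matrix.SpecialLinearGroup (Fin n) k) : Matrix (Fin n) (Fin n) k) = 1 := by
        rw [← Matrix.SpecialLinearGroup.coe_mul, mul_inv_cancel,
          Matrix.SpecialLinearGroup.coe_one]
      have h4 : (h : Matrix (Fin n) (Fin n) k).map (algebraMap k k) * g' *
          ((h⁻¹ : Matrix.SpecialLinearGroup (Fin n) k) : Matrix (Fin n) (Fin n) k).map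
            (algebraMap k k) = g := by
        have h5 : ∀ A : Matrix (Fin n) (Fin n) k, A.map (algebraMap k k) = A := by
          intro A; ext i j; rfl
        rw [h5, h5, hg', Matrix.mul_assoc, Matrix.mul_assoc, Matrix.mul_assoc, hh1, Matrix.mul_one,
          ← Matrix.mul_assoc, hh1, Matrix.one_mul]
      rw [h4] at h3
      exact h3.symm)
  refine ⟨φ, ?_⟩
  ext i j
  exact hφ (i, j)

/-- The scalar part of a matrix. -/
noncomputable def scalarPart {R : Type*} [CommRing R] [Algebra k R] (Z : Matrix (Fin n) (Fin n) R) :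
    Matrix (Fin n) (Fin n) R := (algebraMap k R (n : k)⁻¹ * Z.trace) • (1 : Matrix _ _ R)

omit [IsAlgClosed k] [CharZero k] in
lemma map_scalarPart {R S : Type*} [CommRing R] [Algebra k R] [CommRing S] [Algebra k S]
    (φ : R →ₐ[k] S) (Z : Matrix (Fin n) (Fin n) R) :
    (scalarPart (k := k) Z).map φ = scalarPart (k := k) (Z.map φ) := by
  have h1 : φ Z.trace = (Z.map φ).trace := by
    rw [Matrix.trace, Matrix.trace, map_sum]
    rfl
  ext i j
  rw [scalarPart, scalarPart, Matrix.map_apply, Matrix.smul_apply, Matrix.smul_apply, smul_eq_mul,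
    smul_eq_mul, map_mul, map_mul, AlgHom.commutes, h1]
  congr 1
  by_cases hij : i = j
  · subst hij
    rw [Matrix.one_apply_eq, Matrix.one_apply_eq, map_one]
  · rw [Matrix.one_apply_ne hij, Matrix.one_apply_ne hij, map_zero]

omit [IsAlgClosed k] in
lemma trace_sub_scalarPart {R : Type*} [CommRing R] [Algebra k R] (hn : 0 < n)
    (Z : Matrix (Fin n) (Fin n) R) : (Z - scalarPart (k := k) Z).trace = 0 := by
  rw [Matrix.trace_sub, scalarPart, Matrix.trace_smul, Matrix.trace_one, Fintype.card_fin,
    smul_eq_mul]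
  have hn' : (n : k) ≠ 0 := Nat.cast_ne_zero.mpr hn.ne'
  have h1 : algebraMap k R (n : k)⁻¹ * (n : R) = 1 := by
    rw [← map_natCast (algebraMap k R), ← map_mul, inv_mul_cancel₀ hn', map_one]
  have h2 : algebraMap k R (n : k)⁻¹ * Z.trace * (n : R)
      = (algebraMap k R (n : k)⁻¹ * (n : R)) * Z.trace := by ring
  rw [h2, h1, one_mul, sub_self]

/-- The standard dominant equivariant map. -/
theorem exists_cayleyMap (hn : 0 < n) :
    ∃ Y : RatMat k n, IsEquivariant Y ∧ IsDominant Y := by
  have _ : Nonempty (Fin n) := ⟨⟨0, hn⟩⟩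
  have hn' : (n : k) ≠ 0 := Nat.cast_ne_zero.mpr hn.ne'
  refine ⟨genX k n - scalarPart (k := k) (genX k n), ?_, trace_sub_scalarPart hn _, ?_⟩
  · intro h
    obtain ⟨φ, hφ⟩ := exists_pullback h
    refine ⟨φ, hφ, ?_⟩
    have hh1 : constMat h * constMat h⁻¹ = 1 := by
      rw [constMat, constMat, ← Matrix.map_mul, ← Matrix.SpecialLinearGroup.coe_mul, mul_inv_cancel,
        Matrix.SpecialLinearGroup.coe_one, Matrix.map_one _ (map_zero _) (map_one _)]
    have htr : (conj h (genX k n)).trace = (genX k n).trace := by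
      have hh2 := mul_eq_one_comm.mp hh1
      rw [conj, Matrix.trace_mul_comm, ← Matrix.mul_assoc, hh2, Matrix.one_mul]
    have h1 : (genX k n - scalarPart (k := k) (genX k n)).map φ
        = (genX k n).map φ - (scalarPart (k := k) (genX k n)).map φ := by
      ext i j
      exact map_sub φ _ _
    rw [h1, map_scalarPart, hφ]
    have h2 : scalarPart (k := k) (conj h (genX k n)) = scalarPart (k := k) (genX k n) := by
      rw [scalarPart, scalarPart, htr]
    rw [h2]
    have h3 : conj h (scalarPart (k := k) (genX k n)) = scalarPart (k := k) (genX k n) := by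
      rw [conj, scalarPart, Matrix.mul_smul, Matrix.smul_mul, Matrix.mul_one, hh1]
    have h4 : conj h (genX k n - scalarPart (k := k) (genX k n))
        = conj h (genX k n) - conj h (scalarPart (k := k) (genX k n)) := by
      rw [conj, conj, conj, Matrix.mul_sub, Matrix.sub_mul]
    rw [h4, h3]
  · intro P hP A hA
    set PM : Matrix (Fin n) (Fin n) (MvPolynomial (Fin n × Fin n) k) :=
      Matrix.mvPolynomialX (Fin n) (Fin n) k
        - scalarPart (k := k) (Matrix.mvPolynomialX (Fin n) (Fin n) k) with hPM
    have hPM1 : ∀ {R : Type _} [CommRing R] [Algebra k R] (Z : Matrix (Fin n) (Fin n) R),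
        PM.map (MvPolynomial.aeval (R := k) fun ij : Fin n × Fin n => Z ij.1 ij.2)
        = Z - scalarPart (k := k) Z := by
      intro R _ _ Z
      have h1 : (Matrix.mvPolynomialX (Fin n) (Fin n) k).map
          (MvPolynomial.aeval (R := k) fun ij : Fin n × Fin n => Z ij.1 ij.2) = Z :=
        Matrix.mvPolynomialX_mapMatrix_aeval k Z
      have h2 : PM.map (MvPolynomial.aeval (R := k) fun ij : Fin n × Fin n => Z ij.1 ij.2)
          = (Matrix.mvPolynomialX (Fin n) (Fin n) k).map
            (MvPolynomial.aeval (R := k) fun ij : Fin n × Fin n => Z ij.1 ij.2)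
          - (scalarPart (k := k) (Matrix.mvPolynomialX (Fin n) (Fin n) k)).map
            (MvPolynomial.aeval (R := k) fun ij : Fin n × Fin n => Z ij.1 ij.2) := by
        ext i j
        exact map_sub (MvPolynomial.aeval (R := k) fun ij : Fin n × Fin n => Z ij.1 ij.2) _ _
      rw [h2, map_scalarPart, h1]
    have h1 : ∀ {R : Type _} [CommRing R] [Algebra k R] (Z : Matrix (Fin n) (Fin n) R),
        MvPolynomial.aeval (fun ij : Fin n × Fin n => Z ij.1 ij.2)
          (MvPolynomial.aeval (fun ij : Fin n × Fin n => PM ij.1 ij.2) P)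
        = MvPolynomial.aeval (fun ij : Fin n × Fin n => (Z - scalarPart (k := k) Z) ij.1 ij.2)
          P := by
      intro R _ _ Z
      rw [MvPolynomial.comp_aeval_apply, ← hPM1 Z]
      rfl
    have h2 : slPoly k (Fin n) ∣ MvPolynomial.aeval (fun ij : Fin n × Fin n => PM ij.1 ij.2) P := by
      rw [← aeval_eq_zero_iff, h1]
      exact hP
    obtain ⟨R, hR⟩ := h2
    -- a translate of `A` with determinant one
    obtain ⟨c, hc⟩ : ∃ c : k, (c • (1 : Matrix (Fin n) (Fin n) k) + A).det = 1 := by
      have hdeg : ((-A).charpoly - Polynomial.C 1).degree ≠ 0 := by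
        have h3 : 0 < (-A).charpoly.degree := by
          rw [Matrix.charpoly_degree_eq_dim, Fintype.card_fin]
          exact_mod_cast hn
        rw [Polynomial.degree_sub_C h3]
        exact h3.ne'
      obtain ⟨c, hc⟩ := IsAlgClosed.exists_root _ hdeg
      refine ⟨c, ?_⟩
      rw [Polynomial.IsRoot.def, Polynomial.eval_sub, Polynomial.eval_C, Matrix.eval_charpoly,
        sub_eq_zero] at hc
      rw [← hc]
      congr 1
      rw [sub_neg_eq_add]
      congr 1
      ext i j
      rw [Matrix.scalar_apply, Matrix.smul_apply, smul_eq_mul]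
      by_cases hij : i = j
      · subst hij
        rw [Matrix.one_apply_eq, Matrix.diagonal_apply_eq, mul_one]
      · rw [Matrix.one_apply_ne hij, Matrix.diagonal_apply_ne _ hij, mul_zero]
    have h3 := h1 (c • (1 : Matrix (Fin n) (Fin n) k) + A)
    rw [hR, map_mul, aeval_slPoly, hc, sub_self, zero_mul] at h3
    have h4 : (c • (1 : Matrix (Fin n) (Fin n) k) + A)
        - scalarPart (k := k) (c • (1 : Matrix (Fin n) (Fin n) k) + A) = A := by
      rw [scalarPart, Matrix.trace_add, hA, add_zero, Matrix.trace_smul, Matrix.trace_one,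
        Fintype.card_fin, smul_eq_mul]
      have h5 : algebraMap k k (n : k)⁻¹ * (c * (n : k)) = c := by
        change (n : k)⁻¹ * (c * (n : k)) = c
        field_simp
      rw [h5]
      abel
    rw [h4] at h3
    exact h3.symm

end Exists

section Main

variable {k : Type*} [Field k] [IsAlgClosed k] [CharZero k]

/-- The Cayley degree of `SL_{p ^ 2}` is at least `p`. -/
theorem le_cayleyDegree {p : ℕ} (hp : p.Prime) : (p : Cardinal) ≤ cayleyDegree k (p ^ 2) := by
  have _ : Fact p.Prime := ⟨hp⟩
  obtain ⟨Y, hY, hY'⟩ := exists_cayleyMap (k := k) (n := p ^ 2) (pow_pos hp.pos 2)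
  refine le_csInf ⟨mapDegree Y, Y, hY, hY', rfl⟩ ?_
  rintro _ ⟨Y, hY, hY', rfl⟩
  exact rank_bound Y hY'.1 hY

/-- The Cayley degrees of the groups `SL_n` are unbounded. -/
theorem cayleyDegree_unbounded (d : ℕ) : ∃ n : ℕ, 2 ≤ n ∧ (d : Cardinal) < cayleyDegree k n := by
  obtain ⟨p, hdp, hp⟩ := Nat.exists_infinite_primes (d + 1)
  refine ⟨p ^ 2, ?_, lt_of_lt_of_le ?_ (le_cayleyDegree hp)⟩
  · calc 2 ≤ p := hp.two_le
      _ ≤ p ^ 2 := Nat.le_self_pow two_ne_zero p
  · exact_mod_cast hdp

end Main

end Pool.Agent.Cayley.Stmt
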