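import Mathlib

/-!
# Homomorphisms out of finitely generated function fields, and transcendence counts
-/

set_option autoImplicit false
set_option linter.unusedSectionVars false

namespace Pool.Agent.Cayley

open Cardinal

universe u v w x

section Hom

variable {k F M σ : Type*} [Field k] [Field F] [Algebra k F] [Field M] [Algebra k M]

/-- Two homomorphisms agreeing on generators are equal. -/
lemma algHom_ext_of_adjoin {a : σ → F} (htop : IntermediateField.adjoin k (Set.range a) = ⊤)
    {f g : F →ₐ[k] M} (h : ∀ i, f (a i) = g (a i)) : f = g := by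
  ext z
  have hz : z ∈ IntermediateField.adjoin k (Set.range a) := by rw [htop]; trivial
  obtain ⟨r, s, rfl⟩ := (IntermediateField.mem_adjoin_range_iff k a z).mp hz
  have hc : ∀ R : MvPolynomial σ k, f (MvPolynomial.aeval a R) = g (MvPolynomial.aeval a R) := by
    intro R
    rw [MvPolynomial.comp_aeval_apply, MvPolynomial.comp_aeval_apply,
      show (fun i => f (a i)) = fun i => g (a i) from funext h]
  rw [map_div₀, map_div₀, hc, hc]

/-- A homomorphism between function fields determined by coordinates with the same relations. -/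
lemma exists_hom {a : σ → F} (htop : IntermediateField.adjoin k (Set.range a) = ⊤) {b : σ → M}
    (hab : ∀ P : MvPolynomial σ k, MvPolynomial.aeval a P = 0 ↔ MvPolynomial.aeval b P = 0) :
    ∃ θ : F →ₐ[k] M, ∀ i, θ (a i) = b i := by
  set R := (MvPolynomial.aeval (R := k) a).range with hR
  have hfrac : IsFractionRing R F := by
    apply IsFractionRing.of_field
    intro z
    have hz : z ∈ IntermediateField.adjoin k (Set.range a) := by rw [htop]; trivial
    obtain ⟨r, s, rfl⟩ := (IntermediateField.mem_adjoin_range_iff k a z).mp hz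
    exact ⟨⟨_, r, rfl⟩, ⟨_, s, rfl⟩, rfl⟩
  set f : MvPolynomial σ k →ₐ[k] R := (MvPolynomial.aeval (R := k) a).rangeRestrict with hf
  have hfs : Function.Surjective f := (MvPolynomial.aeval (R := k) a).rangeRestrict_surjective
  have hker : ∀ P, f P = 0 ↔ MvPolynomial.aeval b P = 0 := by
    intro P
    rw [← hab]
    constructor
    · intro h; exact congrArg Subtype.val h
    · intro h; exact Subtype.ext h
  set g : R →ₐ[k] M := AlgHom.liftOfSurjective f hfs (MvPolynomial.aeval (R := k) b) (by
    intro P hP
    exact (hker P).mp hP) with hg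
  have hgf : ∀ P, g (f P) = MvPolynomial.aeval b P := by
    intro P
    rw [hg, AlgHom.liftOfSurjective_apply]
  have hginj : Function.Injective g := by
    rw [injective_iff_map_eq_zero]
    intro z hz
    obtain ⟨P, rfl⟩ := hfs z
    rw [hgf] at hz
    exact (hker P).mpr hz
  refine ⟨IsFractionRing.liftAlgHom (K := F) hginj, fun i => ?_⟩
  have h1 : a i = algebraMap R F (f (MvPolynomial.X i)) := by
    change a i = MvPolynomial.aeval a (MvPolynomial.X i : MvPolynomial σ k)
    rw [MvPolynomial.aeval_X]
  rw [h1, IsFractionRing.liftAlgHom_apply]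
  rw [IsFractionRing.lift_algebraMap]
  change g (f (MvPolynomial.X i)) = b i
  rw [hgf, MvPolynomial.aeval_X]

end Hom

section Count

variable {k : Type u} {E : Type v} [Field k] [Field E] [Algebra k E] {τ : Type w} {B : Type x}

open scoped IntermediateField.algebraAdjoinAdjoin in
/-- If the algebraically independent finite family `b` is algebraic over the field generated by a
family `z` with the same number of elements, then `z` is algebraically independent. -/
lemma count' [Finite τ] [Finite B] (hcard : Nat.card τ = Nat.card B) (z : τ → E) (b : B → E)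
    (hb : AlgebraicIndependent k b)
    (halg : ∀ i, IsAlgebraic (IntermediateField.adjoin k (Set.range z)) (b i)) :
    AlgebraicIndependent k z := by
  set Kz := IntermediateField.adjoin k (Set.range z) with hKz
  let E' : IntermediateField Kz E := algebraicClosure Kz E
  have hzK : ∀ s, z s ∈ Kz := fun s => IntermediateField.subset_adjoin k _ ⟨s, rfl⟩
  let zE : τ → E' := fun s => ⟨z s, mem_algebraicClosure_iff.mpr
    (isAlgebraic_algebraMap (⟨z s, hzK s⟩ : Kz))⟩
  let bE : B → E' := fun s => ⟨b s, mem_algebraicClosure_iff.mpr (halg s)⟩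
  let v : E' →ₐ[k] E := E'.val.restrictScalars k
  have hbE : AlgebraicIndependent k bE := by
    have h1 : b = v ∘ bE := rfl
    rw [h1] at hb
    exact hb.of_comp v
  have htr : ((Nat.card B : ℕ) : Cardinal.{v}) ≤ Algebra.trdeg k E' := by
    have h1 : lift.{v} #B ≤ lift.{x} (Algebra.trdeg k E') := hbE.lift_cardinalMk_le_trdeg
    have h2 : #B = ((Nat.card B : ℕ) : Cardinal.{x}) := (Nat.cast_card).symm
    rw [h2, lift_natCast] at h1
    have h3 : ((Nat.card B : ℕ) : Cardinal.{max v x})
        = lift.{x} ((Nat.card B : ℕ) : Cardinal.{v}) := by simp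
    rw [h3] at h1
    exact lift_le.mp h1
  have hmem : ∀ a : Algebra.adjoin k (Set.range zE),
      v (a : E') ∈ Algebra.adjoin k (Set.range z) := by
    rintro ⟨a, ha⟩
    rw [Algebra.adjoin_range_eq_range_aeval] at ha ⊢
    obtain ⟨p, hp⟩ := ha
    refine ⟨p, ?_⟩
    have h4 : MvPolynomial.aeval zE p = a := hp
    change MvPolynomial.aeval z p = v a
    rw [← h4]
    exact (MvPolynomial.comp_aeval_apply zE v p).symm
  let f : Algebra.adjoin k (Set.range zE) →ₐ[k] Algebra.adjoin k (Set.range z) :=
    AlgHom.codRestrict (v.comp (Algebra.adjoin k (Set.range zE)).val) _ hmem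
  have hfs : Function.Surjective f := by
    rintro ⟨a, ha⟩
    have ha' := ha
    rw [Algebra.adjoin_range_eq_range_aeval] at ha'
    obtain ⟨p, hp⟩ := ha'
    refine ⟨⟨MvPolynomial.aeval zE p, ?_⟩, ?_⟩
    · rw [Algebra.adjoin_range_eq_range_aeval]
      exact ⟨p, rfl⟩
    · apply Subtype.ext
      change v (MvPolynomial.aeval zE p) = a
      have h4 : MvPolynomial.aeval z p = a := hp
      rw [← h4]
      exact MvPolynomial.comp_aeval_apply zE v p
  have hzE : Algebra.IsAlgebraic (Algebra.adjoin k (Set.range zE)) E' := by
    refine ⟨fun e => ?_⟩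
    have h1 : IsAlgebraic Kz (v e) := mem_algebraicClosure_iff.mp e.2
    have h2 : IsAlgebraic (Algebra.adjoin k (Set.range z)) (v e) :=
      (IsFractionRing.isAlgebraic_iff (Algebra.adjoin k (Set.range z)) Kz E).mpr h1
    exact h2.of_ringHom_of_comp_eq f v hfs v.toRingHom.injective (by ext a; rfl)
  have htb : IsTranscendenceBasis k zE := by
    apply Algebra.IsAlgebraic.isTranscendenceBasis_of_lift_le_trdeg_of_finite
    have h2 : #τ = ((Nat.card τ : ℕ) : Cardinal.{w}) := (Nat.cast_card).symm
    rw [h2, lift_natCast, hcard]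
    have h3 : ((Nat.card B : ℕ) : Cardinal.{max v w})
        = lift.{w} ((Nat.card B : ℕ) : Cardinal.{v}) := by simp
    rw [h3]
    exact lift_le.mpr htr
  have h5 : z = v ∘ zE := rfl
  rw [h5]
  exact htb.1.map' v.toRingHom.injective

end Count

end Pool.Agent.Cayley
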