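import Mathlib

/-!
# Hahn series fields with divisible value group over algebraically closed fields

If `Γ` is a divisible linearly ordered abelian group and `K` is an algebraically closed field, then
`HahnSeries Γ K` is algebraically closed.
-/

set_option autoImplicit false
set_option linter.unusedSectionVars false

namespace Pool.Agent.Cayley

open HahnSeries hiding pow_add

variable {Γ K : Type*} [AddCommGroup Γ] [LinearOrder Γ] [IsOrderedAddMonoid Γ] [Field K]

/-- The valuation ring of the field of Hahn series. -/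
noncomputable def ringO (Γ K : Type*) [AddCommGroup Γ] [LinearOrder Γ] [IsOrderedAddMonoid Γ]
    [Field K] : ValuationSubring (HahnSeries Γ K) :=
  (AddValuation.toValuation (addVal Γ K)).valuationSubring

lemma mem_ringO (h : HahnSeries Γ K) : h ∈ ringO Γ K ↔ 0 ≤ h.orderTop := by
  rw [ringO, Valuation.mem_valuationSubring_iff, AddValuation.toValuation_apply, addVal_apply]
  rfl

/-- A valuation subring of a field extension lying over the valuation ring of Hahn series. -/
lemma exists_over (L : Type*) [Field L] [Algebra (HahnSeries Γ K) L] :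
    ∃ V : ValuationSubring L, ∀ h : HahnSeries Γ K,
      algebraMap (HahnSeries Γ K) L h ∈ V ↔ h ∈ ringO Γ K := by
  obtain ⟨V, hV, hloc⟩ := IsLocalRing.exists_factor_valuationRing
    ((algebraMap (HahnSeries Γ K) L).comp (ringO Γ K).subtype)
  refine ⟨V, fun h => ⟨fun hh => ?_, fun hh => hV ⟨h, hh⟩⟩⟩
  by_contra hcon
  have hinv : h⁻¹ ∈ ringO Γ K := ((ringO Γ K).mem_or_inv_mem h).resolve_left hcon
  have hne : h ≠ 0 := by
    rintro rfl
    exact hcon (zero_mem _)
  -- `h⁻¹` is mapped to a unit
  have hu : IsUnit ((((algebraMap (HahnSeries Γ K) L).comp (ringO Γ K).subtype).codRestrict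
      V.toSubring hV) ⟨h⁻¹, hinv⟩) := by
    refine IsUnit.of_mul_eq_one ⟨algebraMap _ L h, hh⟩ ?_
    apply Subtype.ext
    change algebraMap _ L h⁻¹ * algebraMap _ L h = 1
    rw [← map_mul, inv_mul_cancel₀ hne, map_one]
  have hu' : IsUnit (⟨h⁻¹, hinv⟩ : ringO Γ K) := hloc.map_nonunit _ hu
  obtain ⟨u, hu'⟩ := hu'
  apply hcon
  have h1 : ((u⁻¹ : (ringO Γ K)ˣ) : HahnSeries Γ K) = h := by
    have h2 : ((u : ringO Γ K) : HahnSeries Γ K) * ((u⁻¹ : (ringO Γ K)ˣ) : ringO Γ K) = 1 :=
      congrArg Subtype.val (Units.mul_inv u)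
    rw [hu'] at h2
    change h⁻¹ * _ = 1 at h2
    rw [inv_mul_eq_one₀ hne] at h2
    exact h2.symm
  rw [← h1]
  exact (u⁻¹ : (ringO Γ K)ˣ).1.2

section Over

variable {L : Type*} [Field L] [Algebra (HahnSeries Γ K) L] (V : ValuationSubring L)
  (hV : ∀ h : HahnSeries Γ K, algebraMap (HahnSeries Γ K) L h ∈ V ↔ h ∈ ringO Γ K)

include hV

lemma w_le_one_iff (h : HahnSeries Γ K) :
    V.valuation (algebraMap (HahnSeries Γ K) L h) ≤ 1 ↔ 0 ≤ h.orderTop := by
  rw [V.valuation_le_one_iff, hV, mem_ringO]

lemma w_le_iff (h h' : HahnSeries Γ K) :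
    V.valuation (algebraMap (HahnSeries Γ K) L h) ≤ V.valuation (algebraMap (HahnSeries Γ K) L h')
      ↔ h'.orderTop ≤ h.orderTop := by
  by_cases h0 : h' = 0
  · subst h0
    rw [map_zero, map_zero, orderTop_zero, le_zero_iff, map_eq_zero, map_eq_zero, top_le_iff,
      orderTop_eq_top]
  · have h1 : h = (h / h') * h' := (div_mul_cancel₀ h h0).symm
    have h2 : h.orderTop = (h / h').orderTop + h'.orderTop := by
      conv_lhs => rw [h1]
      rw [orderTop_mul]
    have h3 : V.valuation (algebraMap (HahnSeries Γ K) L h)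
        = V.valuation (algebraMap (HahnSeries Γ K) L (h / h'))
          * V.valuation (algebraMap (HahnSeries Γ K) L h') := by
      rw [← map_mul, ← map_mul, ← h1]
    have h4 : 0 < V.valuation (algebraMap (HahnSeries Γ K) L h') := by
      rw [zero_lt_iff]
      exact (map_ne_zero _).mpr ((map_ne_zero _).mpr h0)
    rw [h3, mul_le_iff_le_one_left h4, w_le_one_iff V hV, h2]
    obtain ⟨g, hg⟩ := WithTop.ne_top_iff_exists.mp (orderTop_ne_top.mpr h0)
    rw [← hg]
    by_cases h5 : h / h' = 0
    · simp [h5]
    · obtain ⟨g', hg'⟩ := WithTop.ne_top_iff_exists.mp (orderTop_ne_top.mpr h5)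
      rw [← hg', ← WithTop.coe_add, WithTop.coe_le_coe, ← WithTop.coe_zero, WithTop.coe_le_coe]
      exact (le_add_iff_nonneg_left g).symm

lemma w_lt_iff (h h' : HahnSeries Γ K) :
    V.valuation (algebraMap (HahnSeries Γ K) L h) < V.valuation (algebraMap (HahnSeries Γ K) L h')
      ↔ h'.orderTop < h.orderTop := by
  rw [← not_le, ← not_le, w_le_iff V hV]

lemma w_eq_iff (h h' : HahnSeries Γ K) :
    V.valuation (algebraMap (HahnSeries Γ K) L h) = V.valuation (algebraMap (HahnSeries Γ K) L h')
      ↔ h.orderTop = h'.orderTop := by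
  rw [le_antisymm_iff, le_antisymm_iff, w_le_iff V hV, w_le_iff V hV, and_comm]

lemma w_C {c : K} (hc : c ≠ 0) :
    V.valuation (algebraMap (HahnSeries Γ K) L (HahnSeries.C c)) = 1 := by
  have h1 : (HahnSeries.C c : HahnSeries Γ K).orderTop = (1 : HahnSeries Γ K).orderTop := by
    rw [orderTop_one]
    change (single 0 c).orderTop = _
    rw [orderTop_single hc]
    rfl
  rw [← map_one V.valuation, ← map_one (algebraMap (HahnSeries Γ K) L), w_eq_iff V hV, h1]

/-- The value group modulo torsion does not change. -/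
lemma exists_pow_eq [Algebra.IsAlgebraic (HahnSeries Γ K) L] (z : L) (hz : z ≠ 0) :
    ∃ (n : ℕ) (h : HahnSeries Γ K), n ≠ 0 ∧ h ≠ 0 ∧
      V.valuation z ^ n = V.valuation (algebraMap (HahnSeries Γ K) L h) := by
  classical
  obtain ⟨p, hp, hpz⟩ := Algebra.IsAlgebraic.isAlgebraic (R := HahnSeries Γ K) z
  have hne : p.support.Nonempty := Polynomial.support_nonempty.mpr hp
  set f : ℕ → L := fun i => algebraMap _ L (p.coeff i) * z ^ i with hf
  have hsum : ∑ i ∈ p.support, f i = 0 := by
    rw [← hpz, Polynomial.aeval_def, Polynomial.eval₂_eq_sum, Polynomial.sum]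
  obtain ⟨i, hi, hmax⟩ := Finset.exists_max_image p.support (fun i => V.valuation (f i)) hne
  have hfi : V.valuation (f i) ≠ 0 := by
    rw [hf, map_mul, map_pow]
    refine mul_ne_zero ?_ (pow_ne_zero _ ((map_ne_zero _).mpr hz))
    exact (map_ne_zero _).mpr ((map_ne_zero _).mpr (Polynomial.mem_support_iff.mp hi))
  obtain ⟨j, hj, hji, hjeq⟩ : ∃ j ∈ p.support, j ≠ i ∧ V.valuation (f j) = V.valuation (f i) := by
    by_contra hcon
    push Not at hcon
    have h1 := Valuation.map_sum_eq_of_lt (v := V.valuation) (f := f) hi (fun j hj => by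
      rw [Finset.mem_sdiff, Finset.mem_singleton] at hj
      exact lt_of_le_of_ne (hmax j hj.1) (hcon j hj.1 hj.2))
    rw [hsum, map_zero] at h1
    exact hfi h1.symm
  have hci : algebraMap (HahnSeries Γ K) L (p.coeff i) ≠ 0 :=
    (map_ne_zero _).mpr (Polynomial.mem_support_iff.mp hi)
  have hcj : algebraMap (HahnSeries Γ K) L (p.coeff j) ≠ 0 :=
    (map_ne_zero _).mpr (Polynomial.mem_support_iff.mp hj)
  have hw : V.valuation z ≠ 0 := (map_ne_zero _).mpr hz
  have key : ∀ a b : ℕ, a < b → a ∈ p.support → b ∈ p.support →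
      V.valuation (f a) = V.valuation (f b) → ∃ (n : ℕ) (h : HahnSeries Γ K), n ≠ 0 ∧ h ≠ 0 ∧
      V.valuation z ^ n = V.valuation (algebraMap (HahnSeries Γ K) L h) := by
    intro a b hab ha hb heq
    have hca : p.coeff a ≠ 0 := Polynomial.mem_support_iff.mp ha
    have hcb : p.coeff b ≠ 0 := Polynomial.mem_support_iff.mp hb
    refine ⟨b - a, p.coeff a / p.coeff b, by omega, div_ne_zero hca hcb, ?_⟩
    rw [hf] at heq
    simp only [map_mul, map_pow] at heq
    rw [map_div₀, map_div₀, eq_div_iff ((map_ne_zero _).mpr ((map_ne_zero _).mpr hcb))]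
    have h2 : V.valuation z ^ b = V.valuation z ^ (b - a) * V.valuation z ^ a := by
      rw [← pow_add]; congr 1; omega
    rw [h2, ← mul_assoc] at heq
    have h3 := mul_right_cancel₀ (pow_ne_zero a hw) heq
    rw [h3, mul_comm]
  rcases lt_or_gt_of_ne hji with h | h
  · exact key j i h hj hi hjeq
  · exact key i j h hi hj hjeq.symm

/-- Coefficients of the reduction. -/
lemma w_sub_coeff_lt (q : HahnSeries Γ K) (hq : 0 ≤ q.orderTop) :
    V.valuation (algebraMap (HahnSeries Γ K) L (q - HahnSeries.C (q.coeff 0))) < 1 := by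
  rw [← map_one V.valuation, ← map_one (algebraMap (HahnSeries Γ K) L), w_lt_iff V hV, orderTop_one]
  have h1 : (0 : WithTop Γ) ≤ (q - HahnSeries.C (q.coeff 0)).orderTop := by
    rw [← WithTop.coe_zero, le_orderTop_iff_forall]
    intro j hj
    rw [WithTop.coe_lt_coe] at hj
    have h2 : q.coeff j = 0 := coeff_eq_zero_of_lt_orderTop
      (lt_of_lt_of_le (WithTop.coe_lt_coe.mpr hj) hq)
    change (q - single 0 (q.coeff 0)).coeff j = 0
    rw [coeff_sub, h2, coeff_single_of_ne hj.ne, sub_zero]
  refine lt_of_le_of_ne h1 (Ne.symm ?_)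
  have h3 : (q - HahnSeries.C (q.coeff 0)).coeff 0 = 0 := by
    change (q - single 0 (q.coeff 0)).coeff 0 = 0
    rw [coeff_sub, coeff_single_same, sub_self]
  exact orderTop_ne_of_coeff_eq_zero h3

lemma exists_residue [IsAlgClosed K] [Algebra.IsAlgebraic (HahnSeries Γ K) L] (u : L)
    (hu : V.valuation u = 1) :
    ∃ c : K, V.valuation (u - algebraMap (HahnSeries Γ K) L (HahnSeries.C c)) < 1 := by
  classical
  obtain ⟨p, hp, hpz⟩ := Algebra.IsAlgebraic.isAlgebraic (R := HahnSeries Γ K) u
  have hne : p.support.Nonempty := Polynomial.support_nonempty.mpr hp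
  obtain ⟨i, hi, hmin⟩ := Finset.exists_min_image p.support (fun i => (p.coeff i).orderTop) hne
  have hci : p.coeff i ≠ 0 := Polynomial.mem_support_iff.mp hi
  -- normalised polynomial
  set q : Polynomial (HahnSeries Γ K) := Polynomial.C (p.coeff i)⁻¹ * p with hq
  have hqz : Polynomial.aeval u q = 0 := by rw [hq, map_mul, hpz, mul_zero]
  have hqi : q.coeff i = 1 := by
    rw [hq, Polynomial.coeff_C_mul, inv_mul_cancel₀ hci]
  have hqj : ∀ j, 0 ≤ (q.coeff j).orderTop := by
    intro j
    by_cases hj : p.coeff j = 0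
    · rw [hq, Polynomial.coeff_C_mul, hj, mul_zero, orderTop_zero]; exact le_top
    · have h1 := hmin j (Polynomial.mem_support_iff.mpr hj)
      have h2 : p.coeff j = p.coeff i * q.coeff j := by
        rw [hq, Polynomial.coeff_C_mul, ← mul_assoc, mul_inv_cancel₀ hci, one_mul]
      rw [h2, orderTop_mul] at h1
      obtain ⟨g, hg⟩ := WithTop.ne_top_iff_exists.mp (orderTop_ne_top.mpr hci)
      rw [← hg] at h1
      by_cases h5 : q.coeff j = 0
      · rw [h5, orderTop_zero]; exact le_top
      · obtain ⟨g', hg'⟩ := WithTop.ne_top_iff_exists.mp (orderTop_ne_top.mpr h5)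
        rw [← hg', ← WithTop.coe_add, WithTop.coe_le_coe] at h1
        rw [← hg', ← WithTop.coe_zero, WithTop.coe_le_coe]
        exact (le_add_iff_nonneg_right g).mp h1
  -- reduction
  set r : Polynomial K := ∑ j ∈ Finset.range (q.natDegree + 1),
    Polynomial.monomial j ((q.coeff j).coeff 0) with hr
  have hr0 : r ≠ 0 := by
    intro h0
    have h1 : r.coeff i = 1 := by
      rw [hr, Polynomial.finsetSum_coeff]
      simp only [Polynomial.coeff_monomial]
      rw [Finset.sum_eq_single i]
      · rw [if_pos rfl, hqi, coeff_one, if_pos rfl]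
      · intro b _ hb
        rw [if_neg hb]
      · intro hni
        exfalso
        apply hni
        rw [Finset.mem_range, Nat.lt_succ_iff]
        apply Polynomial.le_natDegree_of_ne_zero
        rw [hqi]; exact one_ne_zero
    rw [h0, Polynomial.coeff_zero] at h1
    exact zero_ne_one h1
  let j' : K →+* L := (algebraMap (HahnSeries Γ K) L).comp HahnSeries.C
  have hlt : V.valuation (Polynomial.eval₂ j' u r) < 1 := by
    have h1 : Polynomial.eval₂ j' u r = - ∑ j ∈ Finset.range (q.natDegree + 1),
        algebraMap (HahnSeries Γ K) L (q.coeff j - HahnSeries.C ((q.coeff j).coeff 0)) * u ^ j := by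
      have h2 : Polynomial.eval₂ j' u r = ∑ j ∈ Finset.range (q.natDegree + 1),
          algebraMap (HahnSeries Γ K) L (HahnSeries.C ((q.coeff j).coeff 0)) * u ^ j := by
        rw [hr, Polynomial.eval₂_finsetSum]
        refine Finset.sum_congr rfl fun j _ => ?_
        rw [Polynomial.eval₂_monomial]; rfl
      have h3 : ∑ j ∈ Finset.range (q.natDegree + 1),
          algebraMap (HahnSeries Γ K) L (q.coeff j) * u ^ j = 0 := by
        rw [← hqz, Polynomial.aeval_eq_sum_range]
        refine Finset.sum_congr rfl fun j _ => ?_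
        rw [Algebra.smul_def]
      rw [h2]
      simp only [map_sub, sub_mul]
      rw [Finset.sum_sub_distrib, h3, zero_sub, neg_neg]
    rw [h1, Valuation.map_neg]
    refine Valuation.map_sum_lt' _ zero_lt_one fun j _ => ?_
    rw [map_mul, map_pow, hu, one_pow, mul_one]
    exact w_sub_coeff_lt V hV _ (hqj j)
  by_contra hcon
  push Not at hcon
  have hsplit := (IsAlgClosed.splits r).eq_prod_roots
  have h1 : (1 : V.ValueGroup) ≤ V.valuation (Polynomial.eval₂ j' u r) := by
    rw [hsplit, Polynomial.eval₂_mul, Polynomial.eval₂_C, map_mul]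
    have h2 : V.valuation (j' r.leadingCoeff) = 1 :=
      w_C V hV (Polynomial.leadingCoeff_ne_zero.mpr hr0)
    rw [h2, one_mul]
    generalize r.roots = m
    induction m using Multiset.induction_on with
    | empty => simp
    | cons a m ih =>
      rw [Multiset.map_cons, Multiset.prod_cons, Polynomial.eval₂_mul, map_mul,
        Polynomial.eval₂_sub, Polynomial.eval₂_X, Polynomial.eval₂_C]
      exact one_le_mul (hcon a) ih
  exact absurd hlt (not_lt.mpr h1)

/-- Immediate extensions: every element can be approximated by a monomial. -/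
lemma exists_approx [IsAlgClosed K] [Algebra.IsAlgebraic (HahnSeries Γ K) L]
    (hdiv : ∀ n : ℕ, n ≠ 0 → ∀ g : Γ, ∃ g' : Γ, n • g' = g) (z : L) (hz : z ≠ 0) :
    ∃ (g : Γ) (c : K), V.valuation z = V.valuation (algebraMap (HahnSeries Γ K) L (single g 1)) ∧
      V.valuation (z - algebraMap (HahnSeries Γ K) L (single g c)) < V.valuation z := by
  obtain ⟨n, h, hn, hh, hpow⟩ := exists_pow_eq V hV z hz
  obtain ⟨g, hg⟩ := hdiv n hn h.order
  have hg0 : (single g (1 : K)) ≠ 0 := single_ne_zero one_ne_zero
  have ht : algebraMap (HahnSeries Γ K) L (single g 1) ≠ 0 := (map_ne_zero _).mpr hg0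
  have h1 : V.valuation (algebraMap (HahnSeries Γ K) L h)
      = V.valuation (algebraMap (HahnSeries Γ K) L (single g 1)) ^ n := by
    rw [← map_pow, ← map_pow, w_eq_iff V hV, single_pow, one_pow, hg, orderTop_single one_ne_zero,
      order_eq_orderTop_of_ne_zero hh]
  have h2 : V.valuation (z / algebraMap (HahnSeries Γ K) L (single g 1)) = 1 := by
    rw [← pow_eq_one_iff_of_nonneg zero_le hn, map_div₀, div_pow, hpow, h1]
    exact div_self (pow_ne_zero _ ((map_ne_zero _).mpr ht))
  have h3 : V.valuation z = V.valuation (algebraMap (HahnSeries Γ K) L (single g 1)) := by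
    rw [map_div₀, div_eq_one_iff_eq ((map_ne_zero _).mpr ht)] at h2
    exact h2
  obtain ⟨c, hc⟩ := exists_residue V hV _ h2
  refine ⟨g, c, h3, ?_⟩
  have h4 : z - algebraMap (HahnSeries Γ K) L (single g c)
      = (z / algebraMap (HahnSeries Γ K) L (single g 1)
        - algebraMap (HahnSeries Γ K) L (HahnSeries.C c))
        * algebraMap (HahnSeries Γ K) L (single g 1) := by
    rw [sub_mul, div_mul_cancel₀ _ ht, ← map_mul]
    congr 2
    change _ = single 0 c * single g 1
    rw [single_mul_single, zero_add, mul_one]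
  rw [h4, map_mul]
  have h5 : 0 < V.valuation (algebraMap (HahnSeries Γ K) L (single g 1)) :=
    zero_lt_iff.mpr ((map_ne_zero _).mpr ht)
  calc _ < 1 * V.valuation (algebraMap (HahnSeries Γ K) L (single g 1)) :=
        mul_lt_mul_of_pos_right hc h5
    _ = V.valuation z := by rw [one_mul, h3]

/-- Maximal completeness of Hahn series fields. -/
lemma surjective_of_algebraic [IsAlgClosed K] [Algebra.IsAlgebraic (HahnSeries Γ K) L]
    (hdiv : ∀ n : ℕ, n ≠ 0 → ∀ g : Γ, ∃ g' : Γ, n • g' = g) :
    Function.Surjective (algebraMap (HahnSeries Γ K) L) := by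
  classical
  intro z
  by_contra hcon
  push Not at hcon
  have hne : ∀ h, z - algebraMap _ L h ≠ 0 := fun h h0 => hcon h (sub_eq_zero.mp h0).symm
  choose b c hb hc using fun h => exists_approx V hV hdiv (z - algebraMap _ L h) (hne h)
  -- `b h` is the distance of `h` to `z`
  have hstep : ∀ h, b h < b (h + single (b h) (c h)) := by
    intro h
    have h1 := hc h
    rw [hb h] at h1
    have h2 : z - algebraMap _ L h - algebraMap _ L (single (b h) (c h))
        = z - algebraMap _ L (h + single (b h) (c h)) := by rw [map_add]; ring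
    rw [h2, hb, w_lt_iff V hV, orderTop_single one_ne_zero, orderTop_single one_ne_zero,
      WithTop.coe_lt_coe] at h1
    exact h1
  have hagree : ∀ h h' g, g < b h → g < b h' → h.coeff g = h'.coeff g := by
    intro h h' g hg hg'
    have h1 : V.valuation (algebraMap _ L (h - h'))
        < V.valuation (algebraMap (HahnSeries Γ K) L (single g 1)) := by
      have h2 : algebraMap (HahnSeries Γ K) L (h - h')
          = (z - algebraMap _ L h') - (z - algebraMap _ L h) := by rw [map_sub]; ring
      rw [h2]
      refine Valuation.map_sub_lt _ ?_ ?_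
      · rw [hb, w_lt_iff V hV, orderTop_single one_ne_zero, orderTop_single one_ne_zero,
          WithTop.coe_lt_coe]; exact hg'
      · rw [hb, w_lt_iff V hV, orderTop_single one_ne_zero, orderTop_single one_ne_zero,
          WithTop.coe_lt_coe]; exact hg
    rw [w_lt_iff V hV, orderTop_single one_ne_zero] at h1
    have h3 := coeff_eq_zero_of_lt_orderTop h1
    rw [coeff_sub, sub_eq_zero] at h3
    exact h3
  -- the limit series
  let f : Γ → K := fun g => if hg : ∃ h, g < b h then hg.choose.coeff g else 0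
  have hf : ∀ h g, g < b h → f g = h.coeff g := by
    intro h g hg
    have hex : ∃ h, g < b h := ⟨h, hg⟩
    simp only [f, dif_pos hex]
    exact hagree _ _ _ hex.choose_spec hg
  have hf' : ∀ g, f g ≠ 0 → ∃ h, g < b h := by
    intro g hg
    by_contra hno
    exact hg (dif_neg hno)
  have hWF : (Function.support f).IsWF := by
    rw [Set.isWF_iff_no_descending_seq]
    intro s hs hsub
    have h0 : s 0 ∈ Function.support f := hsub 0
    obtain ⟨h, hh⟩ := hf' _ h0
    have h1 := h.isWF_support
    rw [Set.isWF_iff_no_descending_seq] at h1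
    apply h1 s hs
    intro n
    have h2 : s n < b h := lt_of_le_of_lt (hs.antitone (Nat.zero_le n)) hh
    have h3 : s n ∈ Function.support f := hsub n
    rw [mem_support, ← hf h _ h2]
    exact h3
  let y : HahnSeries Γ K := ⟨f, hWF.isPWO⟩
  have hy : ∀ h, b h ≤ b y := by
    intro h
    have h1 : V.valuation (algebraMap (HahnSeries Γ K) L (y - h))
        ≤ V.valuation (algebraMap (HahnSeries Γ K) L (single (b h) 1)) := by
      rw [w_le_iff V hV, orderTop_single one_ne_zero, le_orderTop_iff_forall]
      intro g hg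
      rw [WithTop.coe_lt_coe] at hg
      rw [coeff_sub]
      change f g - h.coeff g = 0
      rw [hf h g hg, sub_self]
    have h2 : V.valuation (z - algebraMap _ L y)
        ≤ V.valuation (algebraMap (HahnSeries Γ K) L (single (b h) 1)) := by
      have h3 : z - algebraMap (HahnSeries Γ K) L y
          = (z - algebraMap _ L h) - algebraMap _ L (y - h) := by rw [map_sub]; ring
      rw [h3]
      exact Valuation.map_sub_le _ (hb h).le h1
    rw [hb, w_le_iff V hV, orderTop_single one_ne_zero, orderTop_single one_ne_zero,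
      WithTop.coe_le_coe] at h2
    exact h2
  exact absurd (hstep y) (not_lt.mpr (hy _))

end Over

/-- The field of Hahn series is algebraically closed if the value group is divisible and the
residue field is algebraically closed. -/
theorem isAlgClosed_hahnSeries [IsAlgClosed K]
    (hdiv : ∀ n : ℕ, n ≠ 0 → ∀ g : Γ, ∃ g' : Γ, n • g' = g) : IsAlgClosed (HahnSeries Γ K) := by
  refine IsAlgClosed.of_exists_root _ fun p _ hirr => ?_
  have := Fact.mk hirr
  have hfin : FiniteDimensional (HahnSeries Γ K) (AdjoinRoot p) :=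
    (AdjoinRoot.powerBasis hirr.ne_zero).finite
  obtain ⟨V, hV⟩ := exists_over (Γ := Γ) (K := K) (AdjoinRoot p)
  obtain ⟨x, hx⟩ := surjective_of_algebraic V hV hdiv (AdjoinRoot.root p)
  refine ⟨x, ?_⟩
  have h1 : Polynomial.aeval (AdjoinRoot.root p) p = 0 := by
    rw [Polynomial.aeval_def]; exact AdjoinRoot.eval₂_root p
  rw [← hx, Polynomial.aeval_algebraMap_apply, Polynomial.coe_aeval_eq_eval] at h1
  exact (map_eq_zero_iff _ (algebraMap (HahnSeries Γ K) (AdjoinRoot p)).injective).mp h1

end Pool.Agent.Cayley
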