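import Mathlib

/-!
# The pairing on `ZMod p × ZMod p` and the discrete Fourier transform
-/

set_option autoImplicit false
set_option linter.unusedSectionVars false

namespace Pool.Agent.Cayley

section

variable {k : Type*} [Field k] {p : ℕ} [Fact p.Prime] (ψ : AddChar (ZMod p) k)

/-- The pairing. -/
noncomputable def pr (c g : ZMod p × ZMod p) : k := ψ (c.1 * g.1 + c.2 * g.2)

lemma pr_comm (c g : ZMod p × ZMod p) : pr ψ c g = pr ψ g c := by
  rw [pr, pr, mul_comm c.1, mul_comm c.2]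

lemma pr_add_right (c g h : ZMod p × ZMod p) : pr ψ c (g + h) = pr ψ c g * pr ψ c h := by
  rw [pr, pr, pr, ← AddChar.map_add_eq_mul, Prod.fst_add, Prod.snd_add]
  congr 1
  ring

lemma pr_add_left (c d g : ZMod p × ZMod p) : pr ψ (c + d) g = pr ψ c g * pr ψ d g := by
  rw [pr_comm, pr_add_right, pr_comm, pr_comm ψ g d]

lemma pr_zero_right (c : ZMod p × ZMod p) : pr ψ c 0 = 1 := by
  rw [pr, Prod.fst_zero, Prod.snd_zero, mul_zero, mul_zero, add_zero, AddChar.map_zero_eq_one]

lemma pr_zero_left (g : ZMod p × ZMod p) : pr ψ 0 g = 1 := by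
  rw [pr_comm, pr_zero_right]

lemma pr_neg_right_mul (c g : ZMod p × ZMod p) : pr ψ c (-g) * pr ψ c g = 1 := by
  rw [← pr_add_right, neg_add_cancel, pr_zero_right]

lemma pr_ne_zero (c g : ZMod p × ZMod p) : pr ψ c g ≠ 0 :=
  right_ne_zero_of_mul_eq_one (pr_neg_right_mul ψ c g)

lemma pr_pow (c g : ZMod p × ZMod p) : pr ψ c g ^ p = 1 := by
  rw [pr, ← AddChar.map_nsmul_eq_pow, nsmul_eq_mul, CharP.cast_eq_zero, zero_mul,
    AddChar.map_zero_eq_one]

lemma pr_neg_neg (c g : ZMod p × ZMod p) : pr ψ (-c) g = pr ψ c (-g) := by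
  rw [pr, pr]
  congr 1
  rw [Prod.fst_neg, Prod.snd_neg, Prod.fst_neg, Prod.snd_neg]
  ring

lemma sum_pr (hψ : Function.Injective ψ) (g : ZMod p × ZMod p) :
    ∑ c, pr ψ c g = if g = 0 then ((p : k) ^ 2) else 0 := by
  split_ifs with hg
  · subst hg
    simp only [pr_zero_right]
    rw [Finset.sum_const, Finset.card_univ, Fintype.card_prod, ZMod.card, nsmul_eq_mul, mul_one]
    push_cast
    ring
  · obtain ⟨c₀, hc₀⟩ : ∃ c₀, pr ψ c₀ g ≠ 1 := by
      by_cases h1 : g.1 = 0
      · have h2 : g.2 ≠ 0 := fun h2 => hg (Prod.ext h1 h2)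
        refine ⟨(0, 1), fun h => h2 ?_⟩
        rw [pr] at h
        simp only [zero_mul, one_mul, zero_add] at h
        exact hψ (by rw [h, AddChar.map_zero_eq_one])
      · refine ⟨(1, 0), fun h => h1 ?_⟩
        rw [pr] at h
        simp only [zero_mul, one_mul, add_zero] at h
        exact hψ (by rw [h, AddChar.map_zero_eq_one])
    have h3 : ∑ c, pr ψ c g = pr ψ c₀ g * ∑ c, pr ψ c g := by
      conv_lhs => rw [← Equiv.sum_comp (Equiv.addRight c₀) (fun c => pr ψ c g)]
      rw [Finset.mul_sum]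
      refine Finset.sum_congr rfl fun c _ => ?_
      rw [Equiv.coe_addRight, pr_add_left, mul_comm]
    have h4 : (pr ψ c₀ g - 1) * ∑ c, pr ψ c g = 0 := by
      rw [sub_mul, one_mul, ← h3, sub_self]
    rcases mul_eq_zero.mp h4 with h5 | h5
    · exact absurd (sub_eq_zero.mp h5) hc₀
    · exact h5

variable {M : Type*} [AddCommGroup M] [Module k M]

/-- The Fourier transform. -/
noncomputable def hat (f : ZMod p × ZMod p → M) (c : ZMod p × ZMod p) : M :=
  ∑ g, pr ψ c (-g) • f g

/-- Fourier inversion. -/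
lemma sum_hat (hψ : Function.Injective ψ) (f : ZMod p × ZMod p → M) (h : ZMod p × ZMod p) :
    ∑ c, pr ψ c h • hat ψ f c = ((p : k) ^ 2) • f h := by
  unfold hat
  simp only [Finset.smul_sum, smul_smul, ← pr_add_right]
  rw [Finset.sum_comm]
  simp only [← Finset.sum_smul, sum_pr ψ hψ]
  rw [Finset.sum_eq_single h]
  · rw [add_neg_cancel, if_pos rfl]
  · intro g _ hg
    rw [if_neg, zero_smul]
    intro h0
    exact hg (add_neg_eq_zero.mp h0).symm
  · intro h0
    exact absurd (Finset.mem_univ h) h0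

/-- Fourier inversion, second form. -/
lemma hat_sum (hψ : Function.Injective ψ) (f : ZMod p × ZMod p → M) (h : ZMod p × ZMod p) :
    hat ψ (fun g => ∑ c, pr ψ c g • f c) h = ((p : k) ^ 2) • f h := by
  unfold hat
  simp only [Finset.smul_sum, smul_smul]
  rw [Finset.sum_comm]
  have h1 : ∀ c g : ZMod p × ZMod p, pr ψ h (-g) * pr ψ c g = pr ψ g (c - h) := by
    intro c g
    rw [← pr_neg_neg, ← pr_add_left, pr_comm]
    congr 1
    abel
  simp only [h1, ← Finset.sum_smul, sum_pr ψ hψ]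
  rw [Finset.sum_eq_single h]
  · rw [sub_self, if_pos rfl]
  · intro g _ hg
    rw [if_neg (sub_ne_zero.mpr hg), zero_smul]
  · intro h0
    exact absurd (Finset.mem_univ h) h0

lemma hat_zero (f : ZMod p × ZMod p → M) : hat ψ f 0 = ∑ g, f g := by
  unfold hat
  simp only [pr_zero_left, one_smul]

/-- Translation becomes multiplication by a character. -/
lemma hat_translate (f : ZMod p × ZMod p → M) (c s : ZMod p × ZMod p) :
    hat ψ (fun g => f (g + s)) c = pr ψ c s • hat ψ f c := by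
  unfold hat
  rw [Finset.smul_sum, ← Equiv.sum_comp (Equiv.subRight s) (fun g => pr ψ c (-g) • f (g + s))]
  refine Finset.sum_congr rfl fun g _ => ?_
  rw [Equiv.subRight_apply, sub_add_cancel, smul_smul, ← pr_add_right]
  congr 2
  abel

variable (p) in
/-- The Fourier matrix. -/
noncomputable def fourier : Matrix (ZMod p × ZMod p) (ZMod p × ZMod p) k :=
  Matrix.of fun c g => pr ψ c g

lemma fourier_det (hψ : Function.Injective ψ) [CharZero k] : IsUnit (fourier p ψ).det := by
  rw [← Matrix.isUnit_iff_isUnit_det]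
  have hp : (p : k) ≠ 0 := Nat.cast_ne_zero.mpr (Fact.out : p.Prime).ne_zero
  refine IsUnit.of_mul_eq_one (((p : k) ^ 2)⁻¹ • Matrix.of fun g c => pr ψ c (-g)) ?_
  ext c d
  rw [Matrix.mul_smul, Matrix.smul_apply, Matrix.mul_apply, smul_eq_mul]
  have h1 : ∀ g, fourier p ψ c g * (Matrix.of fun g c => pr ψ c (-g)) g d = pr ψ g (c - d) := by
    intro g
    rw [fourier, Matrix.of_apply, Matrix.of_apply, ← pr_neg_neg, ← pr_add_left, pr_comm,
      sub_eq_add_neg]
  simp only [h1]
  rw [sum_pr ψ hψ]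
  by_cases hcd : c = d
  · subst hcd
    rw [sub_self, if_pos rfl, Matrix.one_apply_eq]
    field_simp
  · rw [if_neg (sub_ne_zero.mpr hcd), mul_zero, Matrix.one_apply_ne hcd]

end

end Pool.Agent.Cayley
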