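import Pool.Agent.Cayley.DiagDense
import Pool.Agent.Cayley.Spec
import Pool.Agent.Cayley.FracHom
import Pool.Agent.Cayley.Pairing

/-!
# The field generated by eigenvectors and eigenvalues of the generic matrix
-/

set_option autoImplicit false
set_option linter.unusedSectionVars false

namespace Pool.Agent.Cayley

/-- The index set of eigenvalues. -/
abbrev Ix (p : ℕ) : Type := ZMod p × ZMod p

/-- The index set of variables. -/
abbrev Var (p : ℕ) : Type := (Ix p × Ix p) ⊕ {g : Ix p // g ≠ 0}

section Basic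

variable (k : Type*) [Field k] (p : ℕ)

/-- The field of rational functions in the variables. -/
abbrev MF : Type _ := FractionRing (MvPolynomial (Var p) k)

variable {p}

/-- The generators. -/
noncomputable def gen (i : Var p) : MF k p := algebraMap _ _ (MvPolynomial.X i : MvPolynomial (Var p) k)

variable {k}

lemma aeval_gen (P : MvPolynomial (Var p) k) :
    MvPolynomial.aeval (gen k) P = algebraMap (MvPolynomial (Var p) k) (MF k p) P := by
  induction P using MvPolynomial.induction_on with
  | C a =>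
    rw [MvPolynomial.aeval_C]
    exact IsScalarTower.algebraMap_apply k (MvPolynomial (Var p) k) (MF k p) a
  | add p q hp hq => rw [map_add, map_add, hp, hq]
  | mul_X p i hp => rw [map_mul, map_mul, hp, MvPolynomial.aeval_X]; rfl

variable (k) in
lemma gen_algInd : AlgebraicIndependent k (gen k : Var p → MF k p) := by
  rw [AlgebraicIndependent, injective_iff_map_eq_zero]
  intro P hP
  rw [aeval_gen] at hP
  exact (IsFractionRing.injective (MvPolynomial (Var p) k) (MF k p)) (by rw [hP, map_zero])

variable (k) in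
lemma gen_top : IntermediateField.adjoin k (Set.range (gen k : Var p → MF k p)) = ⊤ := by
  rw [eq_top_iff]
  intro z _
  rw [IntermediateField.mem_adjoin_range_iff]
  obtain ⟨a, b, -, hab⟩ := IsFractionRing.div_surjective (A := MvPolynomial (Var p) k) z
  exact ⟨a, b, by rw [aeval_gen, aeval_gen, hab]⟩

/-- The homomorphism attached to an algebraically independent family. -/
noncomputable def liftM {K : Type*} [Field K] [Algebra k K] {f : Var p → K}
    (hf : AlgebraicIndependent k f) : MF k p →ₐ[k] K :=
  IsFractionRing.liftAlgHom (K := MF k p) (algebraicIndependent_iff_injective_aeval.2 hf)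

lemma liftM_gen {K : Type*} [Field K] [Algebra k K] {f : Var p → K}
    (hf : AlgebraicIndependent k f) (i : Var p) : liftM hf (gen k i) = f i := by
  rw [liftM, IsFractionRing.liftAlgHom_apply, gen]
  rw [IsFractionRing.lift_algebraMap]
  change MvPolynomial.aeval f (MvPolynomial.X i) = f i
  rw [MvPolynomial.aeval_X]

end Basic

section XOf

variable {p : ℕ} [Fact p.Prime]

/-- The family of eigenvalues with product one attached to a family of coordinates. -/
noncomputable def xOf {K : Type*} [Field K] (f : Var p → K) (g : Ix p) : K :=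
  if h : g = 0 then (∏ g' : {g : Ix p // g ≠ 0}, f (Sum.inr g'))⁻¹ else f (Sum.inr ⟨g, h⟩)

lemma xOf_of_ne {K : Type*} [Field K] (f : Var p → K) {g : Ix p} (h : g ≠ 0) :
    xOf f g = f (Sum.inr ⟨g, h⟩) := dif_neg h

lemma xOf_zero {K : Type*} [Field K] (f : Var p → K) :
    xOf f 0 = (∏ g' : {g : Ix p // g ≠ 0}, f (Sum.inr g'))⁻¹ := dif_pos rfl

lemma prod_split {K : Type*} [CommMonoid K] (x : Ix p → K) :
    ∏ g, x g = x 0 * ∏ g' : {g : Ix p // g ≠ 0}, x g' := by
  rw [← Finset.mul_prod_erase Finset.univ x (Finset.mem_univ 0)]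
  congr 1
  exact Finset.prod_subtype (Finset.univ.erase 0)
    (fun g => by rw [Finset.mem_erase]; exact and_iff_left (Finset.mem_univ g)) x

lemma prod_xOf {K : Type*} [Field K] (f : Var p → K) (hf : ∀ g, f (Sum.inr g) ≠ 0) :
    ∏ g, xOf f g = 1 := by
  rw [prod_split, xOf_zero]
  have h1 : ∏ g' : {g : Ix p // g ≠ 0}, xOf f g' = ∏ g' : {g : Ix p // g ≠ 0}, f (Sum.inr g') :=
    Finset.prod_congr rfl fun g _ => xOf_of_ne f g.2
  rw [h1, inv_mul_cancel₀]
  exact Finset.prod_ne_zero_iff.mpr fun g _ => hf g

/-- A family with product one is determined by its values at non-zero indices. -/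
lemma xOf_eq {K : Type*} [Field K] (f : Var p → K) (x : Ix p → K) (hx : ∏ g, x g = 1)
    (h : ∀ g : {g : Ix p // g ≠ 0}, f (Sum.inr g) = x g) (g : Ix p) : xOf f g = x g := by
  by_cases hg : g = 0
  · subst hg
    rw [prod_split] at hx
    rw [xOf_zero, Finset.prod_congr rfl fun g _ => h g]
    exact (eq_inv_of_mul_eq_one_left hx).symm
  · rw [xOf_of_ne f hg, h]

lemma map_xOf {K L : Type*} [Field K] [Field L] (φ : K →+* L) (f : Var p → K) (g : Ix p) :
    φ (xOf f g) = xOf (fun i => φ (f i)) g := by
  by_cases hg : g = 0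
  · subst hg
    rw [xOf_zero, xOf_zero, map_inv₀, map_prod]
  · rw [xOf_of_ne f hg, xOf_of_ne _ hg]

end XOf

section Elements

variable (k : Type*) [Field k] {p : ℕ} [Fact p.Prime] (ψ : AddChar (ZMod p) k)

variable (p) in
/-- The generic matrix of (transformed) eigenvectors. -/
noncomputable def VV : Matrix (Ix p) (Ix p) (MF k p) := Matrix.of fun i c => gen k (Sum.inl (i, c))

/-- The eigenvalues. -/
noncomputable def xx (g : Ix p) : MF k p := xOf (gen k) g

lemma gen_ne_zero (i : Var p) : gen k i ≠ 0 := (gen_algInd k).ne_zero i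

lemma prod_xx : ∏ g : Ix p, xx k g = 1 := prod_xOf _ fun _ => gen_ne_zero k _

lemma xx_ne_zero (g : Ix p) : xx k g ≠ 0 := by
  intro h
  have h1 := prod_xx k (p := p)
  rw [Finset.prod_eq_zero (Finset.mem_univ g) h] at h1
  exact zero_ne_one h1

variable {k}

/-- The images of the generators under the action. -/
noncomputable def actFun (σ : Ix p) : Var p → MF k p :=
  Sum.elim (fun ic => pr ψ ic.2 σ • gen k (Sum.inl ic)) (fun g => xx k (g.1 + σ))

lemma xOf_actFun (σ g : Ix p) : xOf (actFun ψ σ) g = xx k (g + σ) := by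
  refine xOf_eq (actFun ψ σ) (fun g => xx k (g + σ)) ?_ (fun g => rfl) g
  rw [← prod_xx k (p := p)]
  exact Equiv.prod_comp (Equiv.addRight σ) (xx k)

lemma actFun_algInd (σ : Ix p) : AlgebraicIndependent k (actFun ψ σ) := by
  refine count' rfl _ (gen k) (gen_algInd k) fun i => ?_
  suffices h : gen k i ∈ IntermediateField.adjoin k (Set.range (actFun ψ σ)) from
    isAlgebraic_algebraMap (⟨_, h⟩ : IntermediateField.adjoin k (Set.range (actFun ψ σ)))
  have hmem : ∀ j, actFun ψ σ j ∈ IntermediateField.adjoin k (Set.range (actFun ψ σ)) :=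
    fun j => IntermediateField.subset_adjoin k _ ⟨j, rfl⟩
  have hx : ∀ g, xx k g ∈ IntermediateField.adjoin k (Set.range (actFun ψ σ)) := by
    intro g
    have h1 := xOf_actFun (k := k) ψ σ (g - σ)
    rw [sub_add_cancel] at h1
    rw [← h1]
    by_cases hg : g - σ = 0
    · rw [hg, xOf_zero]
      exact inv_mem (prod_mem fun g' _ => hmem _)
    · rw [xOf_of_ne _ hg]
      exact hmem _
  rcases i with ic | g
  · have h1 : gen k (Sum.inl ic) = (pr ψ ic.2 σ)⁻¹ • actFun ψ σ (Sum.inl ic) := by
      change _ = (pr ψ ic.2 σ)⁻¹ • (pr ψ ic.2 σ • gen k (Sum.inl ic))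
      rw [smul_smul, inv_mul_cancel₀ (pr_ne_zero ψ _ _), one_smul]
    rw [h1]
    exact IntermediateField.smul_mem _ (hmem _)
  · have h1 : gen k (Sum.inr g) = xx k g.1 := (xOf_of_ne (gen k) g.2).symm
    rw [h1]
    exact hx _

/-- The action. -/
noncomputable def act (σ : Ix p) : MF k p →ₐ[k] MF k p := liftM (actFun_algInd ψ σ)

lemma act_gen (σ : Ix p) (i : Var p) : act ψ σ (gen k i) = actFun ψ σ i := liftM_gen _ i

lemma act_V (σ : Ix p) (i c : Ix p) :
    act ψ σ (gen k (Sum.inl (i, c))) = pr ψ c σ • gen k (Sum.inl (i, c)) := act_gen ψ σ _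

lemma act_xx (σ g : Ix p) : act ψ σ (xx k g) = xx k (g + σ) := by
  have h1 : act ψ σ (xx k g) = xOf (fun i => act ψ σ (gen k i)) g :=
    map_xOf (act ψ σ).toRingHom (gen k) g
  rw [h1, ← xOf_actFun ψ]
  congr 1
  funext i
  exact act_gen ψ σ i

lemma act_iterate (σ : Ix p) (z : MF k p) : (act ψ σ)^[p] z = z := by
  have h1 : ((act ψ σ) ^ p : MF k p →ₐ[k] MF k p) = AlgHom.id k (MF k p) := by
    refine algHom_ext_of_adjoin (gen_top k) fun i => ?_
    rw [AlgHom.coe_pow, AlgHom.id_apply]
    have hV : ∀ (n : ℕ) (ic : Ix p × Ix p), (act ψ σ)^[n] (gen k (Sum.inl ic))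
        = pr ψ ic.2 σ ^ n • gen k (Sum.inl ic) := by
      intro n
      induction n with
      | zero => intro ic; simp
      | succ n ih =>
        intro ic
        rw [Function.iterate_succ_apply', ih, map_smul, act_V, smul_smul, pow_succ]
    have hx : ∀ (n : ℕ) (g : Ix p), (act ψ σ)^[n] (xx k g) = xx k (g + n • σ) := by
      intro n
      induction n with
      | zero => intro g; simp
      | succ n ih =>
        intro g
        rw [Function.iterate_succ_apply', ih, act_xx, succ_nsmul, add_assoc]
    rcases i with ic | g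
    · rw [hV, pr_pow, one_smul]
    · have h1 : gen k (Sum.inr g) = xx k g.1 := (xOf_of_ne (gen k) g.2).symm
      rw [h1, hx]
      have h2 : p • σ = 0 := by
        ext
        · rw [Prod.smul_fst, nsmul_eq_mul, CharP.cast_eq_zero, zero_mul, Prod.fst_zero]
        · rw [Prod.smul_snd, nsmul_eq_mul, CharP.cast_eq_zero, zero_mul, Prod.snd_zero]
      rw [h2, add_zero]
  have h2 := DFunLike.congr_fun h1 z
  rw [AlgHom.coe_pow, AlgHom.id_apply] at h2
  exact h2

end Elements

end Pool.Agent.Cayley
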