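import Mathlib

/-!
# Residues of Hahn series
-/

set_option autoImplicit false
set_option linter.unusedSectionVars false

namespace Pool.Agent.Cayley

open HahnSeries hiding pow_add

attribute [-instance] HahnSeries.powerSeriesAlgebra

variable {K : Type*} [Field K]

/-- `h` has non-negative order and residue `c`. -/
def Near (h : HahnSeries ℝ K) (c : K) : Prop := 0 < (h - C c).orderTop

lemma near_C (c : K) : Near (C c) c := by
  rw [Near, sub_self, orderTop_zero]
  exact WithTop.coe_lt_top 0

lemma orderTop_C_nonneg (c : K) : (0 : WithTop ℝ) ≤ (C c : HahnSeries ℝ K).orderTop :=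
  orderTop_single_le

lemma near_nonneg {h : HahnSeries ℝ K} {c : K} (hc : Near h c) : 0 ≤ h.orderTop := by
  have h1 : h = (h - C c) + C c := by ring
  rw [h1]
  exact le_trans (le_min hc.le (orderTop_C_nonneg c)) min_orderTop_le_orderTop_add

lemma near_add {h h' : HahnSeries ℝ K} {c c' : K} (hc : Near h c) (hc' : Near h' c') :
    Near (h + h') (c + c') := by
  have h1 : h + h' - C (c + c') = (h - C c) + (h' - C c') := by rw [map_add]; ring
  rw [Near, h1]
  exact lt_of_lt_of_le (lt_min hc hc') min_orderTop_le_orderTop_add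

lemma near_mul {h h' : HahnSeries ℝ K} {c c' : K} (hc : Near h c) (hc' : Near h' c') :
    Near (h * h') (c * c') := by
  have h1 : h * h' - C (c * c') = (h - C c) * h' + C c * (h' - C c') := by rw [map_mul]; ring
  rw [Near, h1]
  refine lt_of_lt_of_le (lt_min ?_ ?_) min_orderTop_le_orderTop_add
  · rw [orderTop_mul]
    exact add_pos_of_pos_of_nonneg hc (near_nonneg hc')
  · rw [orderTop_mul]
    rw [add_comm]
    exact add_pos_of_pos_of_nonneg hc' (orderTop_C_nonneg c)

lemma near_pow {h : HahnSeries ℝ K} {c : K} (hc : Near h c) (n : ℕ) : Near (h ^ n) (c ^ n) := by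
  induction n with
  | zero =>
    rw [pow_zero, pow_zero, ← map_one (C : K →+* HahnSeries ℝ K)]
    exact near_C 1
  | succ n ih => rw [pow_succ, pow_succ]; exact near_mul ih hc

lemma near_sum {B : Type*} (s : Finset B) (t : B → HahnSeries ℝ K) (c : B → K)
    (h : ∀ b ∈ s, Near (t b) (c b)) : Near (∑ b ∈ s, t b) (∑ b ∈ s, c b) := by
  classical
  induction s using Finset.induction_on with
  | empty =>
    rw [Finset.sum_empty, Finset.sum_empty, ← map_zero (C : K →+* HahnSeries ℝ K)]
    exact near_C 0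
  | insert a s ha ih =>
    rw [Finset.sum_insert ha, Finset.sum_insert ha]
    exact near_add (h a (Finset.mem_insert_self a s))
      (ih fun b hb => h b (Finset.mem_insert_of_mem hb))

lemma near_of_order {h : HahnSeries ℝ K} (h0 : h.order = 0) : Near h h.leadingCoeff := by
  rw [Near]
  by_cases hz : h - C h.leadingCoeff = 0
  · rw [hz, orderTop_zero]
    exact WithTop.coe_lt_top 0
  · rw [zero_lt_orderTop_iff hz]
    by_contra hneg
    push Not at hneg
    have h1 : (h - C h.leadingCoeff).coeff (h - C h.leadingCoeff).order ≠ 0 :=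
      fun h => hz (coeff_order_eq_zero.mp h)
    apply h1
    rcases lt_or_eq_of_le hneg with hlt | heq
    · rw [coeff_sub, coeff_eq_zero_of_lt_order (h0 ▸ hlt), zero_sub, neg_eq_zero]
      change (single 0 h.leadingCoeff).coeff _ = 0
      exact coeff_single_of_ne hlt.ne
    · rw [heq, coeff_sub]
      change h.coeff 0 - (single 0 h.leadingCoeff).coeff 0 = 0
      rw [coeff_single_same, leadingCoeff_eq, h0, sub_self]

/-- The defining inequality for the residue of a fraction. -/
lemma residue_ineq {h P Q : HahnSeries ℝ K} {N : K} (hN : Near h N) (hQ : Q ≠ 0)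
    (hPQ : h * Q = P) : Q.orderTop < (P - C N * Q).orderTop := by
  have h1 : P - C N * Q = (h - C N) * Q := by rw [← hPQ]; ring
  rw [h1, orderTop_mul]
  have h2 : Q.orderTop ≠ ⊤ := orderTop_ne_top.mpr hQ
  calc Q.orderTop = 0 + Q.orderTop := (zero_add _).symm
    _ < _ := WithTop.add_lt_add_right h2 hN

lemma residue_unique {P Q : HahnSeries ℝ K} {N N' : K}
    (h : Q.orderTop < (P - C N * Q).orderTop) (h' : Q.orderTop < (P - C N' * Q).orderTop) :
    N = N' := by
  by_contra hne
  have h1 : (C (N - N') * Q) = (P - C N' * Q) - (P - C N * Q) := by rw [map_sub]; ring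
  have h2 : Q.orderTop < (C (N - N') * Q).orderTop := by
    rw [h1]
    exact lt_of_lt_of_le (lt_min h' h) min_orderTop_le_orderTop_sub
  rw [orderTop_mul] at h2
  have h3 : (C (N - N') : HahnSeries ℝ K).orderTop = 0 :=
    orderTop_single (sub_ne_zero.mpr hne)
  rw [h3, zero_add] at h2
  exact lt_irrefl _ h2

/-- The indicator of a root of unity. -/
lemma indicator_sum {p : ℕ} (hp : (p : K) ≠ 0) {c ω : K} (hc : c ^ p = 1) (hω : ω ^ p = 1)
    [Decidable (c = ω)] :
    (p : K)⁻¹ * ∑ l ∈ Finset.range p, (ω⁻¹) ^ l * c ^ l = if c = ω then 1 else 0 := by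
  have hp0 : p ≠ 0 := by rintro rfl; exact hp Nat.cast_zero
  have hω0 : ω ≠ 0 := by
    rintro rfl
    rw [zero_pow hp0] at hω
    exact zero_ne_one hω
  simp only [← mul_pow]
  split_ifs with h
  · rw [h, inv_mul_cancel₀ hω0]
    simp only [one_pow, Finset.sum_const, Finset.card_range, nsmul_eq_mul, mul_one]
    exact inv_mul_cancel₀ hp
  · have h1 : ω⁻¹ * c ≠ 1 := by
      intro h1
      apply h
      rw [← mul_right_inj' (inv_ne_zero hω0), h1, inv_mul_cancel₀ hω0]
    have h2 : (ω⁻¹ * c) ^ p = 1 := by rw [mul_pow, inv_pow, hω, hc, inv_one, one_mul]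
    have h3 := mul_geom_sum (ω⁻¹ * c) p
    rw [h2, sub_self] at h3
    rcases mul_eq_zero.mp h3 with h4 | h4
    · exact absurd (sub_eq_zero.mp h4) h1
    · rw [h4, mul_zero]

section Count

variable {k M : Type*} [Field k] [Algebra k K] [Field M] [Algebra k M] [CharZero k]

/-- The element of `M` whose residues count the embeddings with leading coefficient `ω`. -/
noncomputable def indElt (p : ℕ) (ω : k) (z : M) : M :=
  algebraMap k M (p : k)⁻¹ * ∑ l ∈ Finset.range p, algebraMap k M (ω⁻¹) ^ l * z ^ l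

open Classical in
lemma near_indElt {p : ℕ} (hp : p ≠ 0) {ω : k} (hω : ω ^ p = 1) (z : M)
    (ι : M →ₐ[k] HahnSeries ℝ K) (h0 : (ι z).order = 0) (hc : (ι z).leadingCoeff ^ p = 1) :
    Near (ι (indElt p ω z)) (if (ι z).leadingCoeff = algebraMap k K ω then 1 else 0) := by
  have hpK : ((p : ℕ) : K) ≠ 0 := by
    rw [← map_natCast (algebraMap k K), Ne, map_eq_zero]
    exact_mod_cast hp
  rw [← indicator_sum hpK hc (by rw [← map_pow, hω, map_one])]
  have hC : ∀ a : k, ι (algebraMap k M a) = C (algebraMap k K a) := by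
    intro a
    rw [AlgHom.commutes, HahnSeries.algebraMap_apply]
  have h1 : ι (indElt p ω z) = C ((p : K)⁻¹) *
      ∑ l ∈ Finset.range p, C ((algebraMap k K ω)⁻¹) ^ l * (ι z) ^ l := by
    rw [indElt, map_mul, hC, map_sum, map_inv₀ (algebraMap k K), map_natCast]
    congr 1
    refine Finset.sum_congr rfl fun l _ => ?_
    rw [map_mul, map_pow, map_pow, hC, map_inv₀ (algebraMap k K)]
  rw [h1]
  refine near_mul (near_C _) (near_sum _ _ _ fun l _ => near_mul (near_pow (near_C _) l) ?_)
  exact near_pow (near_of_order h0) l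

open Classical in
lemma near_count {p : ℕ} (hp : p ≠ 0) {ω : k} (hω : ω ^ p = 1) (z : M)
    (S : Finset (M →ₐ[k] HahnSeries ℝ K))
    (hS : ∀ ι ∈ S, (ι z).order = 0 ∧ (ι z).leadingCoeff ^ p = 1) :
    Near (∑ ι ∈ S, ι (indElt p ω z))
      (((S.filter fun ι => (ι z).leadingCoeff = algebraMap k K ω).card : ℕ) : K) := by
  have h1 := near_sum S (fun ι => ι (indElt p ω z))
    (fun ι => if (ι z).leadingCoeff = algebraMap k K ω then 1 else 0)
    fun ι hι => near_indElt hp hω z ι (hS ι hι).1 (hS ι hι).2
  rw [Finset.sum_boole] at h1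
  exact h1

end Count

end Pool.Agent.Cayley
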