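import Mathlib

/-!
# Automorphisms of Hahn series fields given by characters of the value group
-/

set_option autoImplicit false
set_option linter.unusedSectionVars false

namespace Pool.Agent.Cayley

open HahnSeries hiding pow_add

variable {Γ k : Type*} [AddCommGroup Γ] [LinearOrder Γ] [IsOrderedAddMonoid Γ] [Field k]

lemma addChar_ne_zero (ε : AddChar Γ k) (b : Γ) : ε b ≠ 0 := by
  intro h
  have h1 : ε b * ε (-b) = 1 := by
    rw [← AddChar.map_add_eq_mul, add_neg_cancel, AddChar.map_zero_eq_one]
  rw [h, zero_mul] at h1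
  exact zero_ne_one h1

variable (K : Type*) [Field K] [Algebra k K]

/-- The function multiplying the coefficient at `b` with `ε b`. -/
noncomputable def twistFun (ε : AddChar Γ k) (h : HahnSeries Γ K) : HahnSeries Γ K :=
  ⟨fun b => algebraMap k K (ε b) * h.coeff b,
    h.isPWO_support.mono fun b hb => by
      rw [Function.mem_support] at hb
      rw [mem_support]
      exact right_ne_zero_of_mul hb⟩

lemma coeff_twistFun (ε : AddChar Γ k) (h : HahnSeries Γ K) (b : Γ) :
    (twistFun K ε h).coeff b = algebraMap k K (ε b) * h.coeff b := rfl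

lemma algebraMap_addChar_ne_zero (ε : AddChar Γ k) (b : Γ) : algebraMap k K (ε b) ≠ 0 :=
  (map_ne_zero _).mpr (addChar_ne_zero ε b)

lemma support_twistFun (ε : AddChar Γ k) (h : HahnSeries Γ K) :
    (twistFun K ε h).support = h.support := by
  ext b
  rw [mem_support, mem_support, coeff_twistFun]
  exact ⟨right_ne_zero_of_mul, mul_ne_zero (algebraMap_addChar_ne_zero K ε b)⟩

lemma twistFun_mul (ε : AddChar Γ k) (h h' : HahnSeries Γ K) :
    twistFun K ε (h * h') = twistFun K ε h * twistFun K ε h' := by
  ext b
  rw [coeff_twistFun, coeff_mul, coeff_mul, Finset.mul_sum]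
  refine Finset.sum_congr ?_ ?_
  · ext ij
    simp only [Finset.mem_antidiagonal, support_twistFun]
  · intro ij hij
    rw [Finset.mem_antidiagonal] at hij
    rw [coeff_twistFun, coeff_twistFun, ← hij.2.2, AddChar.map_add_eq_mul, map_mul]
    ring

/-- The automorphism of the field of Hahn series attached to a character. -/
noncomputable def twist (ε : AddChar Γ k) : HahnSeries Γ K →ₐ[k] HahnSeries Γ K where
  toFun := twistFun K ε
  map_one' := by
    ext b
    rw [coeff_twistFun, coeff_one]
    split_ifs with hb
    · rw [hb, AddChar.map_zero_eq_one, map_one, mul_one]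
    · rw [mul_zero]
  map_mul' := twistFun_mul K ε
  map_zero' := by ext b; rw [coeff_twistFun, coeff_zero, mul_zero]
  map_add' h h' := by
    ext b
    rw [coeff_twistFun, coeff_add, coeff_add, coeff_twistFun, coeff_twistFun, mul_add]
  commutes' r := by
    ext b
    rw [HahnSeries.algebraMap_apply, coeff_twistFun]
    change _ * (single 0 (algebraMap k K r)).coeff b = (single 0 (algebraMap k K r)).coeff b
    rw [coeff_single]
    split_ifs with hb
    · rw [hb, AddChar.map_zero_eq_one, map_one, one_mul]
    · rw [mul_zero]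

lemma coeff_twist (ε : AddChar Γ k) (h : HahnSeries Γ K) (b : Γ) :
    (twist K ε h).coeff b = algebraMap k K (ε b) * h.coeff b := rfl

lemma orderTop_twist (ε : AddChar Γ k) (h : HahnSeries Γ K) :
    (twist K ε h).orderTop = h.orderTop := by
  by_cases h0 : h = 0
  · rw [h0, map_zero]
  · have h1 := order_eq_orderTop_of_ne_zero h0
    rw [← h1]
    refine orderTop_eq_of_le ?_ ?_
    · change _ ∈ (twistFun K ε h).support
      rw [support_twistFun, mem_support]
      exact coeff_order_eq_zero.not.mpr h0
    · intro b hb
      change b ∈ (twistFun K ε h).support at hb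
      rw [support_twistFun, mem_support] at hb
      exact order_le_of_coeff_ne_zero hb

lemma order_twist (ε : AddChar Γ k) (h : HahnSeries Γ K) :
    (twist K ε h).order = h.order := by
  by_cases h0 : h = 0
  · rw [h0, map_zero]
  · have h2 : twist K ε h ≠ 0 := (map_ne_zero _).mpr h0
    have h1 := orderTop_twist K ε h
    rw [← order_eq_orderTop_of_ne_zero h0, ← order_eq_orderTop_of_ne_zero h2,
      WithTop.coe_eq_coe] at h1
    exact h1

lemma leadingCoeff_twist (ε : AddChar Γ k) (h : HahnSeries Γ K) :
    (twist K ε h).leadingCoeff = algebraMap k K (ε h.order) * h.leadingCoeff := by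
  rw [leadingCoeff_eq, leadingCoeff_eq, order_twist, coeff_twist]

lemma twist_single (ε : AddChar Γ k) (b : Γ) (c : K) :
    twist K ε (single b c) = single b (algebraMap k K (ε b) * c) := by
  ext b'
  rw [coeff_twist, coeff_single, coeff_single]
  split_ifs with h
  · rw [h]
  · rw [mul_zero]

lemma twist_iterate (ε : AddChar Γ k) (n : ℕ) (h : HahnSeries Γ K) (b : Γ) :
    ((twist K ε)^[n] h).coeff b = algebraMap k K (ε b) ^ n * h.coeff b := by
  induction n with
  | zero => simp
  | succ n ih => rw [Function.iterate_succ_apply', coeff_twist, ih, pow_succ]; ring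

/-- If some iterate of the automorphism of order prime to `p` fixes `h`, where the character has
values of `p`-power order, then the automorphism fixes `h`. -/
lemma twist_fixed_of_iterate {p : ℕ} (hp : p.Prime) (ε : AddChar Γ k)
    (hε : ∀ b, ∃ N : ℕ, ε b ^ p ^ N = 1) (e : ℕ) (he : 0 < e) (hep : e < p)
    (h : HahnSeries Γ K) (hfix : (twist K ε)^[e * p] h = h) : (twist K ε)^[p] h = h := by
  ext b
  by_cases hb : h.coeff b = 0
  · rw [twist_iterate, hb, mul_zero]
  · have h1 := congrArg (fun t => HahnSeries.coeff t b) hfix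
    simp only [twist_iterate] at h1
    have h2 : algebraMap k K (ε b) ^ (e * p) = 1 := mul_right_cancel₀ hb (by rw [h1, one_mul])
    obtain ⟨N, hN⟩ := hε b
    have h3 : algebraMap k K (ε b) ^ p ^ N = 1 := by rw [← map_pow, hN, map_one]
    rw [twist_iterate]
    have h4 : orderOf (algebraMap k K (ε b)) ∣ e * p := orderOf_dvd_of_pow_eq_one h2
    have h5 : orderOf (algebraMap k K (ε b)) ∣ p ^ N := orderOf_dvd_of_pow_eq_one h3
    have h6 : Nat.Coprime (orderOf (algebraMap k K (ε b))) e := by
      refine Nat.Coprime.coprime_dvd_left h5 (Nat.Coprime.pow_left N ?_)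
      exact (Nat.Prime.coprime_iff_not_dvd hp).mpr fun hd => absurd (Nat.le_of_dvd he hd)
        (not_le.mpr hep)
    have h7 : orderOf (algebraMap k K (ε b)) ∣ p := h6.dvd_of_dvd_mul_left h4
    rw [orderOf_dvd_iff_pow_eq_one.mp h7, one_mul]

end Pool.Agent.Cayley
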